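import Pool.Agent.P.MP_b7bea3_al.Final

/-! Modules with a commuting action of a second algebra, coinduced layers, the horseshoe lemma. -/

open Module Function

namespace Pool.Agent.P.MP_b7bea3_al

/-- Finite-dimensional `A`-modules with a commuting action of `U`. -/
structure Bi (k A U : Type) [Field k] [Ring A] [Algebra k A] [Ring U] [Algebra k U]
    extends FMod k A where
  r : U →ₐ[k] Module.End A toFMod

variable {k A U : Type} [Field k] [Ring A] [Algebra k A] [Ring U] [Algebra k U]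

/-- Maps that commute with `U`. -/
def Cm (B B' : Bi k A U) (f : B.toFMod → B'.toFMod) : Prop := ∀ u x, f (B.r u x) = B'.r u (f x)

theorem SE.retr {X Y Z : FMod k A} {f : X →ₗ[A] Y} {g : Y →ₗ[A] Z} (h : SE f g) :
    ∃ r : Y →ₗ[k] X, ∀ x, r (f x) = x := by
  obtain ⟨r, hr⟩ := (f.restrictScalars k).exists_leftInverse_of_injective
    (LinearMap.ker_eq_bot.2 h.inj)
  exact ⟨r, LinearMap.congr_fun hr⟩

theorem SE.sect {X Y Z : FMod k A} {f : X →ₗ[A] Y} {g : Y →ₗ[A] Z} (h : SE f g) (r : Y →ₗ[k] X)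
    (hr : ∀ x, r (f x) = x) :
    ∃ σ : Z →ₗ[k] Y, (∀ z, g (σ z) = z) ∧ ∀ y, f (r y) + σ (g y) = y := by
  obtain ⟨s, hs⟩ := (g.restrictScalars k).exists_rightInverse_of_surjective
    (LinearMap.range_eq_top.2 h.surj)
  have hs' : ∀ z, g (s z) = z := LinearMap.congr_fun hs
  refine ⟨s - f.restrictScalars k ∘ₗ r ∘ₗ s, fun z => ?_, fun y => ?_⟩
  · simp [hs', h.ex.apply_apply_eq_zero]
  · obtain ⟨x, hx⟩ := (h.ex (y - s (g y))).1 (by simp [hs'])
    have := congrArg (fun t => f (r t)) hx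
    simp only [hr, map_sub] at this
    simp only [LinearMap.sub_apply, LinearMap.comp_apply, LinearMap.restrictScalars_apply]
    rw [← add_sub_assoc, add_sub_right_comm, ← this, hx, sub_add_cancel]

theorem SE.desc {X Y Z W : FMod k A} {f : X →ₗ[A] Y} {g : Y →ₗ[A] Z} (h : SE f g) (u : Y →ₗ[A] W)
    (hu : ∀ x, u (f x) = 0) : ∃ v : Z →ₗ[A] W, ∀ y, v (g y) = u y := by
  refine ⟨(LinearMap.ker g).liftQ u (fun y hy => ?_) ∘ₗ
    (g.quotKerEquivOfSurjective h.surj).symm.toLinearMap, fun y => ?_⟩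
  · obtain ⟨x, rfl⟩ := (h.ex y).1 hy
    exact hu x
  · have : (g.quotKerEquivOfSurjective h.surj).symm (g y) = Submodule.Quotient.mk y :=
      (LinearEquiv.symm_apply_eq _).2 rfl
    rw [LinearMap.comp_apply, LinearEquiv.coe_coe, this, Submodule.liftQ_apply]

/-- Quotients. -/
abbrev Bi.quot (B : Bi k A U) (N : Submodule A B.toFMod) (hN : ∀ u, N ≤ N.comap (B.r u)) :
    Bi k A U where
  toFMod := B.toFMod.quot N
  r := AlgHom.ofLinearMap
    { toFun := fun u => N.mapQ N (B.r u) (hN u)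
      map_add' := fun u v => Submodule.linearMap_qext _ (by ext; simp)
      map_smul' := fun c u => Submodule.linearMap_qext _ (by ext; simp) }
    (Submodule.linearMap_qext _ (by ext; simp))
    fun u v => Submodule.linearMap_qext _ (by ext; simp)

theorem cm_mkQ (B : Bi k A U) (N : Submodule A B.toFMod) (hN : ∀ u, N ≤ N.comap (B.r u)) :
    Cm B (B.quot N hN) N.mkQ := fun _ _ => rfl

/-- Products. -/
abbrev Bi.prod (B B' : Bi k A U) : Bi k A U where
  toFMod := FMod.of k A (B.toFMod × B'.toFMod)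
  r := AlgHom.ofLinearMap
    { toFun := fun u => LinearMap.prodMap (B.r u) (B'.r u)
      map_add' := fun u v => by ext <;> simp
      map_smul' := fun c u => by ext <;> simp }
    (by ext <;> simp) fun u v => by ext <;> simp

/-- The maps from a `U`-module that commute with `U`. -/
def HS (W : FMod k U) (B : Bi k A U) : Submodule A (W →ₗ[k] B.toFMod) where
  carrier := {φ | ∀ (u : U) (w : W), φ (u • w) = B.r u (φ w)}
  add_mem' {φ ψ} h h' u w := by simp [h u w, h' u w]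
  zero_mem' u w := by simp
  smul_mem' a φ h u w := by simp [h u w]

/-- `Hom_U(W, B)` as an `A`-module. -/
abbrev HW (W : FMod k U) (B : Bi k A U) : FMod k A :=
  (FMod.of k A (W →ₗ[k] B.toFMod)).sub (HS W B)

/-- Functoriality for linear maps. -/
def HW.mapk (W : FMod k U) {B B' : Bi k A U} (f : B.toFMod →ₗ[k] B'.toFMod) (hf : Cm B B' f) :
    HW W B →ₗ[k] HW W B' where
  toFun φ := ⟨f ∘ₗ φ.1, fun u w => by rw [LinearMap.comp_apply, φ.2 u w, hf]; rfl⟩
  map_add' φ ψ := by ext; simp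
  map_smul' c φ := by ext; simp

@[simp] theorem HW.mapk_apply (W : FMod k U) {B B' : Bi k A U} (f : B.toFMod →ₗ[k] B'.toFMod)
    (hf : Cm B B' f) (φ : HW W B) (w : W) : (HW.mapk W f hf φ).1 w = f (φ.1 w) := rfl

/-- Functoriality. -/
def HW.map (W : FMod k U) {B B' : Bi k A U} (f : B.toFMod →ₗ[A] B'.toFMod) (hf : Cm B B' f) :
    HW W B →ₗ[A] HW W B' where
  toFun := HW.mapk W (f.restrictScalars k) hf
  map_add' := map_add _
  map_smul' a φ := Subtype.ext (LinearMap.ext fun w => map_smul f a (φ.1 w))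

@[simp] theorem HW.map_apply (W : FMod k U) {B B' : Bi k A U} (f : B.toFMod →ₗ[A] B'.toFMod)
    (hf : Cm B B' f) (φ : HW W B) (w : W) : (HW.map W f hf φ).1 w = f (φ.1 w) := rfl

/-- Injective as a `U`-module. -/
def UI (B : Bi k A U) : Prop := ∀ (Z Z' : Bi k A U) (f : Z.toFMod →ₗ[k] Z'.toFMod)
  (h : Z.toFMod →ₗ[k] B.toFMod), Injective f → Cm Z Z' f → Cm Z B h →
    ∃ h' : Z'.toFMod →ₗ[k] B.toFMod, Cm Z' B h' ∧ ∀ z, h' (f z) = h z

section split

variable {B₁ B B₂ : Bi k A U} {f : B₁.toFMod →ₗ[A] B.toFMod} {g : B.toFMod →ₗ[A] B₂.toFMod}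

theorem SE.usplit (h : SE f g) (cf : Cm B₁ B f) (cg : Cm B B₂ g) (hU : UI B₁) :
    ∃ (r : B.toFMod →ₗ[k] B₁.toFMod) (σ : B₂.toFMod →ₗ[k] B.toFMod), Cm B B₁ r ∧ Cm B₂ B σ ∧
      (∀ x, r (f x) = x) ∧ (∀ z, g (σ z) = z) ∧ ∀ y, f (r y) + σ (g y) = y := by
  obtain ⟨r, cr, hr⟩ := hU B₁ B (f.restrictScalars k) LinearMap.id h.inj cf fun _ _ => rfl
  obtain ⟨σ, h1, h2⟩ := h.sect r hr
  refine ⟨r, σ, cr, fun u z => ?_, hr, h1, h2⟩
  obtain ⟨y, rfl⟩ := h.surj z
  rw [← cg, eq_sub_of_add_eq' (h2 _), eq_sub_of_add_eq' (h2 y), map_sub, cr, cf]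

theorem SE.hw (h : SE f g) (cf : Cm B₁ B f) (cg : Cm B B₂ g) (hU : UI B₁) (W : FMod k U) :
    SE (HW.map W f cf) (HW.map W g cg) := by
  obtain ⟨r, σ, cr, cσ, h1, h2, h3⟩ := h.usplit cf cg hU
  refine ⟨fun φ ψ e => ?_, fun φ => ⟨fun e => ⟨HW.mapk W r cr φ, ?_⟩, ?_⟩,
    fun ψ => ⟨HW.mapk W σ cσ ψ, ?_⟩⟩
  · ext w
    exact h.inj (LinearMap.congr_fun (congrArg Subtype.val e) w)
  · ext w
    have e1 : g (φ.1 w) = 0 := LinearMap.congr_fun (congrArg Subtype.val e) w
    exact (by simpa [e1] using h3 (φ.1 w) : f (r (φ.1 w)) = φ.1 w)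
  · rintro ⟨ψ, rfl⟩
    ext w
    exact h.ex.apply_apply_eq_zero _
  · ext w
    exact h2 _

theorem SE.ui (h : SE f g) (cf : Cm B₁ B f) (cg : Cm B B₂ g) (h1 : UI B₁) (h2 : UI B₂) : UI B := by
  obtain ⟨r, σ, cr, cσ, -, -, h3⟩ := h.usplit cf cg h1
  intro Z Z' i u hi ci cu
  obtain ⟨a, ca, ha⟩ := h1 Z Z' i (r ∘ₗ u) hi ci fun t z => by simp [cu t z, cr t]
  obtain ⟨b, cb, hb⟩ := h2 Z Z' i (g.restrictScalars k ∘ₗ u) hi ci fun t z => by
    simp [cu t z, cg t]
  exact ⟨f.restrictScalars k ∘ₗ a + σ ∘ₗ b, fun t z => by simp [ca t z, cb t z, cf t, cσ t],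
    fun z => by simp [ha, hb, h3]⟩

end split

variable [FiniteDimensional k U]

/-- The maps on `e U`. -/
def GS (e : U) (T : FMod k A) : Submodule A (U →ₗ[k] T) where
  carrier := {φ | ∀ x, φ (e * x) = φ x}
  add_mem' {φ ψ} h h' x := by simp [h x, h' x]
  zero_mem' x := by simp
  smul_mem' a φ h x := by simp [h x]

/-- The coinduced bimodule `Hom_k(e U, T)`. -/
abbrev G (e : U) (T : FMod k A) : Bi k A U where
  toFMod := (FMod.of k A (U →ₗ[k] T)).sub (GS e T)
  r := AlgHom.ofLinearMap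
    { toFun := fun u =>
        { toFun := fun φ => ⟨φ.1 ∘ₗ LinearMap.mulRight k u, fun x => by
            simp [mul_assoc, φ.2 (x * u)]⟩
          map_add' := fun _ _ => rfl
          map_smul' := fun _ _ => rfl }
      map_add' := fun u v => by ext; simp [mul_add]
      map_smul' := fun c u => by ext; simp }
    (by ext; simp) fun u v => by ext; simp [mul_assoc]

@[simp] theorem G_r (e : U) (T : FMod k A) (u : U) (φ : (G e T).toFMod) (x : U) :
    ((G e T).r u φ).1 x = φ.1 (x * u) := rfl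

/-- Functoriality. -/
def G.map (e : U) {T T' : FMod k A} (f : T →ₗ[A] T') : (G e T).toFMod →ₗ[A] (G e T').toFMod where
  toFun φ := ⟨f.restrictScalars k ∘ₗ φ.1, fun x => by simp [φ.2 x]⟩
  map_add' φ ψ := by ext; simp
  map_smul' c φ := by ext; simp

@[simp] theorem G.map_apply (e : U) {T T' : FMod k A} (f : T →ₗ[A] T') (φ : (G e T).toFMod)
    (x : U) : (G.map e f φ).1 x = f (φ.1 x) := rfl

theorem G.cm_map (e : U) {T T' : FMod k A} (f : T →ₗ[A] T') : Cm (G e T) (G e T') (G.map e f) :=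
  fun _ _ => rfl

theorem SE.gmap (e : U) {X Y Z : FMod k A} {f : X →ₗ[A] Y} {g : Y →ₗ[A] Z} (h : SE f g) :
    SE (G.map e f) (G.map e g) := by
  obtain ⟨r, hr⟩ := h.retr
  obtain ⟨σ, h2, h3⟩ := h.sect r hr
  refine ⟨fun φ ψ e => ?_, fun φ => ⟨fun e => ⟨⟨r ∘ₗ φ.1, fun x => by simp [φ.2 x]⟩, ?_⟩, ?_⟩,
    fun ψ => ⟨⟨σ ∘ₗ ψ.1, fun x => by simp [ψ.2 x]⟩, ?_⟩⟩
  · ext w
    exact h.inj (LinearMap.congr_fun (congrArg Subtype.val e) w)
  · ext w
    have e1 : g (φ.1 w) = 0 := LinearMap.congr_fun (congrArg Subtype.val e) w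
    exact (by simpa [e1] using h3 (φ.1 w) : f (r (φ.1 w)) = φ.1 w)
  · rintro ⟨ψ, rfl⟩
    ext w
    exact h.ex.apply_apply_eq_zero _
  · ext w
    exact h2 _

/-- The adjoint of a linear map. -/
def adj {e : U} (he : e * e = e) (Z : Bi k A U) {T : FMod k A} (ψ : Z.toFMod →ₗ[k] T) :
    Z.toFMod →ₗ[k] (G e T).toFMod where
  toFun z := ⟨{ toFun := fun x => ψ (Z.r (e * x) z)
                map_add' := fun x y => by simp [mul_add]
                map_smul' := fun c x => by simp }, fun x => by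
    change ψ (Z.r (e * (e * x)) z) = ψ (Z.r (e * x) z)
    rw [← mul_assoc, he]⟩
  map_add' x y := by ext; simp
  map_smul' c x := by ext; simp

@[simp] theorem adj_apply {e : U} (he : e * e = e) (Z : Bi k A U) {T : FMod k A}
    (ψ : Z.toFMod →ₗ[k] T) (z : Z.toFMod) (x : U) : (adj he Z ψ z).1 x = ψ (Z.r (e * x) z) := rfl

theorem cm_adj {e : U} (he : e * e = e) (Z : Bi k A U) {T : FMod k A} (ψ : Z.toFMod →ₗ[k] T) :
    Cm Z (G e T) (adj he Z ψ) := fun u z => by
  ext x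
  change ψ (Z.r (e * x) (Z.r u z)) = ψ (Z.r (e * (x * u)) z)
  rw [← mul_assoc, map_mul Z.r (e * x), Module.End.mul_apply]

theorem adj_ext {e : U} (he : e * e = e) {Z Z' : Bi k A U} {T : FMod k A}
    {f : Z.toFMod → Z'.toFMod} (cf : Cm Z Z' f) {h : Z.toFMod → (G e T).toFMod}
    (ch : Cm Z (G e T) h) (ψ : Z'.toFMod →ₗ[k] T) (hψ : ∀ z, ψ (f z) = (h z).1 1) (z : Z.toFMod) :
    adj he Z' ψ (f z) = h z := by
  ext x
  rw [adj_apply, ← cf, hψ, ch, G_r, one_mul, (h z).2]

/-- Evaluation at one. -/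
def ev1 (e : U) (T : FMod k A) : (G e T).toFMod →ₗ[A] T where
  toFun φ := φ.1 1
  map_add' _ _ := rfl
  map_smul' _ _ := rfl

theorem ui_G {e : U} (he : e * e = e) (T : FMod k A) : UI (G e T) := fun Z Z' f h hf cf ch => by
  obtain ⟨r, hr⟩ := f.exists_leftInverse_of_injective (LinearMap.ker_eq_bot.2 hf)
  have hr' : ∀ z, r (f z) = z := LinearMap.congr_fun hr
  exact ⟨_, cm_adj he Z' ((ev1 e T).restrictScalars k ∘ₗ h ∘ₗ r),
    adj_ext he cf ch _ fun z => by simp [hr', ev1]⟩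

theorem ext_G {e : U} (he : e * e = e) {T : FMod k A} [hT : Module.Injective A T]
    {Z Z' : Bi k A U} (f : Z.toFMod →ₗ[A] Z'.toFMod) (h : Z.toFMod →ₗ[A] (G e T).toFMod)
    (hf : Injective f) (cf : Cm Z Z' f) (ch : Cm Z (G e T) h) :
    ∃ h' : Z'.toFMod →ₗ[A] (G e T).toFMod, Cm Z' (G e T) h' ∧ ∀ z, h' (f z) = h z := by
  obtain ⟨ψ, hψ⟩ := hT.out f hf (ev1 e T ∘ₗ h)
  exact ⟨{ toFun := adj he Z' (ψ.restrictScalars k)
           map_add' := map_add _
           map_smul' := fun a z => Subtype.ext (LinearMap.ext fun x =>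
             (congrArg ψ (map_smul (Z'.r (e * x)) a z)).trans (map_smul ψ a _)) }, cm_adj he Z' _, adj_ext he cf ch _ hψ⟩

theorem inj_hw_G {e : U} (he : e * e = e) (T : FMod k A) [Module.Injective A T] (W : FMod k U) :
    Module.Injective A (HW W (G e T)) := by
  let i : HW W (G e T) →ₗ[A] (W →ₗ[k] T) :=
    { toFun := fun φ => (ev1 e T).restrictScalars k ∘ₗ φ.1
      map_add' := fun _ _ => rfl
      map_smul' := fun _ _ => rfl }
  let p : (W →ₗ[k] T) →ₗ[A] HW W (G e T) :=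
    { toFun := fun ψ => ⟨
        { toFun := fun w => ⟨
            { toFun := fun x => ψ ((e * x) • w)
              map_add' := fun x y => by simp [mul_add, add_smul]
              map_smul' := fun c x => by simp }, fun x => by simp [← mul_assoc, he]⟩
          map_add' := fun x y => by ext; simp
          map_smul' := fun c x => by ext; simp [smul_comm _ c] }, fun u w => by
          ext x; simp [mul_smul]⟩
      map_add' := fun _ _ => rfl
      map_smul' := fun _ _ => rfl }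
  let b := (Module.finBasis k W).constr (M' := T) A
  refine injective_of_retract (b.symm.toLinearMap ∘ₗ i) (p ∘ₗ b.toLinearMap) ?_
  ext φ w x
  simp only [LinearMap.comp_apply, LinearEquiv.coe_coe, LinearEquiv.apply_symm_apply]
  change (φ.1 ((e * x) • w)).1 1 = (φ.1 w).1 x
  rw [φ.2, G_r, one_mul, (φ.1 w).2]

/-- Bimodules filtered by coinduced ones. -/
def FB : ∀ {N : ℕ}, (Fin N → U) → (Fin N → FMod k A) → Bi k A U → Prop
  | 0, _, _, B => Subsingleton B.toFMod
  | _ + 1, e, S, B => ∃ (B' : Bi k A U) (f : (G (e 0) (S 0)).toFMod →ₗ[A] B.toFMod)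
      (g : B.toFMod →ₗ[A] B'.toFMod), SE f g ∧ Cm (G (e 0) (S 0)) B f ∧ Cm B B' g ∧
        FB (fun i => e i.succ) (fun i => S i.succ) B'

theorem FB.ui {N : ℕ} {e : Fin N → U} (he : ∀ i, e i * e i = e i) {S : Fin N → FMod k A}
    {B : Bi k A U} (h : FB e S B) : UI B := by
  induction N generalizing B with
  | zero =>
    have : Subsingleton B.toFMod := h
    exact fun Z Z' f u _ _ _ => ⟨0, fun _ _ => Subsingleton.elim _ _, fun _ => Subsingleton.elim _ _⟩
  | succ N ih =>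
    obtain ⟨B', f, g, h1, cf, cg, h2⟩ := h
    exact h1.ui cf cg (ui_G (he 0) _) (ih (fun i => he _) h2)

theorem FB.finrank_le {N : ℕ} {e : Fin N → U} {S : Fin N → FMod k A} {B : Bi k A U} (h : FB e S B)
    {C : ℕ} (hC : ∀ i, finrank k (S i) ≤ C) : finrank k B.toFMod ≤ N * (finrank k U * C) := by
  induction N generalizing B with
  | zero =>
    have : Subsingleton B.toFMod := h
    rw [finrank_zero_of_subsingleton]
    exact Nat.zero_le _
  | succ N ih =>
    obtain ⟨B', f, g, h1, -, -, h2⟩ := h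
    have h3 : finrank k (G (e 0) (S 0)).toFMod ≤ finrank k (U →ₗ[k] S 0) :=
      LinearMap.finrank_le_finrank_of_injective (f := (GS (e 0) (S 0)).subtype.restrictScalars k)
        (Submodule.subtype_injective _)
    rw [Module.finrank_linearMap] at h3
    have h4 := Nat.mul_le_mul_left (finrank k U) (hC 0)
    have h5 := ih h2 fun i => hC _
    rw [h1.finrank_eq, add_mul]
    omega

variable [FiniteDimensional k A]

theorem SE.inj_mid {X Y Z : FMod k A} {f : X →ₗ[A] Y} {g : Y →ₗ[A] Z} (h : SE f g)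
    [Module.Injective A X] [Module.Injective A Z] : Module.Injective A Y := by
  obtain ⟨v, hv⟩ := (se_co Y).extend (W := Y) (by
    have := h.le_co2 (co Y) (0 + 1)
    rw [ed_of_inj _ X, ed_of_inj _ Z] at this
    exact Nat.le_zero.1 this) LinearMap.id
  exact injective_of_retract (coI Y) v hv

theorem horseshoe {N : ℕ} {e : Fin N → U} (he : ∀ i, e i * e i = e i) {S I S' : Fin N → FMod k A}
    {ι : ∀ i, S i →ₗ[A] I i} {π : ∀ i, I i →ₗ[A] S' i} (hs : ∀ i, SE (ι i) (π i))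
    (hI : ∀ i, Module.Injective A (I i)) {B : Bi k A U} (h : FB e S B) :
    ∃ (J C : Bi k A U) (f : B.toFMod →ₗ[A] J.toFMod) (g : J.toFMod →ₗ[A] C.toFMod), SE f g ∧
      Cm B J f ∧ Cm J C g ∧ (∀ W, Module.Injective A (HW W J)) ∧ FB e S' C := by
  induction N generalizing B with
  | zero =>
    have : Subsingleton B.toFMod := h
    refine ⟨B, B, 0, 0, ⟨fun _ _ _ => Subsingleton.elim _ _, fun y => ⟨fun _ =>
      ⟨y, Subsingleton.elim _ _⟩, fun _ => rfl⟩, fun y => ⟨y, Subsingleton.elim _ _⟩⟩,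
      fun _ _ => Subsingleton.elim _ _, fun _ _ => Subsingleton.elim _ _, fun W => ?_, h⟩
    exact injective_of_retract (Y := (Om k A).pi 0) 0 0 (Subsingleton.elim _ _)
  | succ N ih =>
    obtain ⟨B', a, b, h1, ca, cb, h2⟩ := h
    obtain ⟨J', C', f', g', h3, cf', cg', hJ', h4⟩ :=
      ih (fun i => he _) (fun i => hs i.succ) (fun i => hI _) h2
    have := hI 0
    have hG := (hs 0).gmap (e 0)
    obtain ⟨u, cu, hu⟩ := ext_G (he 0) a (G.map (e 0) (ι 0)) h1.inj ca (G.cm_map _ _)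
    let J := (G (e 0) (I 0)).prod J'
    let f : B.toFMod →ₗ[A] J.toFMod := u.prod (f' ∘ₗ b)
    have cf : Cm B J f := fun t x => Prod.ext (cu t x) ((congrArg f' (cb t x)).trans (cf' t _))
    have hf : Injective f := (injective_iff_map_eq_zero f).2 fun x hx => by
      obtain ⟨y, rfl⟩ := (h1.ex x).1 ((injective_iff_map_eq_zero f').1 h3.inj _ (congrArg Prod.snd hx))
      rw [(injective_iff_map_eq_zero _).1 hG.inj y ((hu y).symm.trans (congrArg Prod.fst hx)),
        map_zero]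
    have hN : ∀ t, LinearMap.range f ≤ (LinearMap.range f).comap (J.r t) := by
      rintro t _ ⟨x, rfl⟩
      exact ⟨_, cf t x⟩
    let C := J.quot _ hN
    obtain ⟨a', ha'⟩ := hG.desc (W := C.toFMod) ((LinearMap.range f).mkQ ∘ₗ LinearMap.inl A _ _)
      fun y => (Submodule.Quotient.mk_eq_zero _).2 ⟨a y, Prod.ext (hu y)
        ((congrArg f' (h1.ex.apply_apply_eq_zero y)).trans (map_zero _))⟩
    let b' : C.toFMod →ₗ[A] C'.toFMod := (LinearMap.range f).liftQ (g' ∘ₗ LinearMap.snd A _ _) (by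
      rintro _ ⟨x, rfl⟩
      exact h3.ex.apply_apply_eq_zero _)
    refine ⟨J, C, f, _, se_coker f hf, cf, cm_mkQ J _ hN, fun W => ?_, C', a', b', ⟨?_, ?_, ?_⟩,
      fun t z => ?_, fun t z => ?_, h4⟩
    · have := hJ' W
      have := inj_hw_G (he 0) (I 0) W
      exact (SE.hw (B₁ := G (e 0) (I 0)) (B := J) (B₂ := J') ⟨LinearMap.inl_injective,
        Function.Exact.inl_snd, LinearMap.snd_surjective⟩
        (fun t x => Prod.ext rfl (map_zero (J'.r t)).symm) (fun _ _ => rfl) (ui_G (he 0) _) W).inj_mid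
    · refine (injective_iff_map_eq_zero _).2 fun z hz => ?_
      obtain ⟨y, rfl⟩ := hG.surj z
      obtain ⟨x, hx⟩ := (Submodule.Quotient.mk_eq_zero _).1 ((ha' y).symm.trans hz)
      obtain ⟨w, rfl⟩ := (h1.ex x).1 ((injective_iff_map_eq_zero f').1 h3.inj _ (congrArg Prod.snd hx))
      exact (hG.ex y).2 ⟨w, (hu w).symm.trans (congrArg Prod.fst hx)⟩
    · intro z
      constructor
      · intro hz
        obtain ⟨⟨y, j⟩, rfl⟩ := (LinearMap.range f).mkQ_surjective z
        obtain ⟨x', rfl⟩ := (h3.ex j).1 hz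
        obtain ⟨x, rfl⟩ := h1.surj x'
        refine ⟨G.map _ (π 0) (y - u x), (ha' _).trans ((Submodule.Quotient.eq _).2 ⟨-x, ?_⟩)⟩
        refine Prod.ext ?_ ?_
        · change u (-x) = y - u x - y
          rw [map_neg]
          abel
        · change f' (b (-x)) = 0 - f' (b x)
          rw [map_neg, map_neg, zero_sub]
      · rintro ⟨z, rfl⟩
        obtain ⟨y, rfl⟩ := hG.surj z
        rw [ha']
        exact map_zero g'
    · intro z
      obtain ⟨j, rfl⟩ := h3.surj z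
      exact ⟨(LinearMap.range f).mkQ (0, j), rfl⟩
    · obtain ⟨y, rfl⟩ := hG.surj z
      rw [← G.cm_map, ha', ha']
      exact congrArg (LinearMap.range f).mkQ (Prod.ext rfl (map_zero (J'.r t)).symm)
    · obtain ⟨⟨y, j⟩, rfl⟩ := (LinearMap.range f).mkQ_surjective z
      exact cg' t j

end Pool.Agent.P.MP_b7bea3_al
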