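import Pool.Agent.P.MP_b7bea3_al.Any1

/-! Minimal cosyzygies, families of bimodules, the uniform bound. -/

open Module Function

namespace Pool.Agent.P.MP_b7bea3_al

variable {k A U : Type} [Field k] [Ring A] [Algebra k A] [Ring U] [Algebra k U]
  [FiniteDimensional k A]

theorem exists_hull (T : FMod k A) : ∃ (I : FMod k A) (f : T →ₗ[A] I), Module.Injective A I ∧
    Injective f ∧ ∀ N : Submodule A I, Disjoint N (LinearMap.range f) → N = ⊥ := by
  obtain ⟨I, ⟨f, hI, hf⟩, hmin⟩ := exists_minimalFor_of_wellFoundedLT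
    (fun I : FMod k A => ∃ f : T →ₗ[A] I, Module.Injective A I ∧ Injective f)
    (fun I => finrank k I) (let ⟨n, u, hu⟩ := exists_embed T; ⟨(Om k A).pi n, u, inferInstance, hu⟩)
  refine ⟨I, f, hI, hf, fun N hN => ?_⟩
  have h1 : Injective (N.mkQ ∘ₗ f) := (injective_iff_map_eq_zero _).2 fun x hx =>
    (injective_iff_map_eq_zero f).1 hf x
      (Submodule.disjoint_def.1 hN _ ((Submodule.Quotient.mk_eq_zero _).1 hx) ⟨x, rfl⟩)
  obtain ⟨v, hv⟩ := hI.out _ h1 f
  let u : Module.End A I := v ∘ₗ N.mkQ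
  have hu : ∀ (m : ℕ) x, (u ^ m) (f x) = f x := fun m x => by
    induction m with
    | zero => rfl
    | succ m ih => rw [pow_succ', Module.End.mul_apply, ih]; exact hv x
  obtain ⟨m, hm⟩ := Filter.eventually_atTop.1 (LinearMap.eventually_isCompl_ker_pow_range_pow u)
  have hc := hm (m + 1) (Nat.le_succ m)
  by_contra hne
  have hlt : finrank k (I.sub (LinearMap.range (u ^ (m + 1)))) < finrank k I :=
    finrank_sub_lt I fun h => hne (eq_bot_iff.2 fun x hx => by
      rw [← eq_bot_of_isCompl_top (h ▸ hc), LinearMap.mem_ker, pow_succ, Module.End.mul_apply,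
        show u x = 0 from (congrArg v ((Submodule.Quotient.mk_eq_zero _).2 hx)).trans (map_zero v),
        map_zero])
  exact absurd (hmin (j := I.sub (LinearMap.range (u ^ (m + 1))))
    ⟨f.codRestrict _ fun x => ⟨f x, hu _ x⟩, injective_of_retract (Submodule.subtype _) _
      (Submodule.projectionOnto_comp_subtype hc.symm),
      fun x y h => hf (congrArg Subtype.val h)⟩ hlt.le) (not_le.2 hlt)

/-- Chosen injective hull. -/
noncomputable def huI (T : FMod k A) : FMod k A := (exists_hull T).choose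

/-- Chosen embedding into the hull. -/
noncomputable def huF (T : FMod k A) : T →ₗ[A] huI T := (exists_hull T).choose_spec.choose

instance (T : FMod k A) : Module.Injective A (huI T) := (exists_hull T).choose_spec.choose_spec.1

/-- The minimal cosyzygy. -/
noncomputable def cs (T : FMod k A) : FMod k A := (huI T).quot (LinearMap.range (huF T))

/-- The projection to the minimal cosyzygy. -/
noncomputable def csP (T : FMod k A) : huI T →ₗ[A] cs T := (LinearMap.range (huF T)).mkQ

theorem se_cs (T : FMod k A) : SE (huF T) (csP T) :=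
  se_coker _ (exists_hull T).choose_spec.choose_spec.2.1

theorem finrank_cs_le (T : FMod k A) : finrank k (cs T) ≤ ed (SS k A) T 1 * finrank k A := by
  refine (finrank_le_socle _).trans (Nat.mul_le_mul_right _ ((se_cs T).hd_le_ed_one fun v => ?_))
  have : IsSemisimpleModule A (SS k A) := semisimple_of_kill (k := k) SS_kill
  obtain ⟨N, hN⟩ := exists_isCompl ((LinearMap.range (huF T)).comap v)
  have h1 : N.map v = ⊥ := (exists_hull T).choose_spec.choose_spec.2.2 _
    (Submodule.disjoint_def.2 (by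
      rintro _ ⟨x, hx, rfl⟩ h
      rw [Submodule.disjoint_def.1 hN.disjoint x h hx, map_zero]))
  refine LinearMap.ext fun x => ?_
  obtain ⟨y, hy, z, hz, rfl⟩ := Submodule.mem_sup.1 (hN.sup_eq_top ▸ Submodule.mem_top : x ∈ _ ⊔ N)
  have h2 : v z = 0 := by simpa [h1] using Submodule.mem_map_of_mem (f := v) hz
  rw [LinearMap.comp_apply, map_add, h2, add_zero]
  exact (Submodule.Quotient.mk_eq_zero _).2 hy

/-- A sequence of cosyzygies. -/
def CoS (Y : ℕ → FMod k A) : Prop := ∀ j, ∃ (I : FMod k A) (f : Y j →ₗ[A] I) (g : I →ₗ[A] Y (j + 1)),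
  SE f g ∧ Module.Injective A I

theorem CoS.ed_co {Y : ℕ → FMod k A} (h : CoS Y) (W : FMod k A) (j t n : ℕ) :
    ed W (Y (j + t)) (n + 1) = ed W (Y j) (n + 1 + t) := by
  induction t generalizing n with
  | zero => rfl
  | succ t ih =>
    obtain ⟨I, f, g, hs, hI⟩ := h (j + t)
    rw [← add_assoc, ← hs.shift_co, ih, show n + 1 + 1 + t = n + 1 + (t + 1) by ring]

theorem cos_cs (T : FMod k A) : CoS fun j => cs^[j] T := fun j => by
  change ∃ (I : FMod k A) (f : (cs^[j] T : FMod k A) →ₗ[A] I)
    (g : I →ₗ[A] (cs^[j + 1] T : FMod k A)), SE f g ∧ Module.Injective A I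
  rw [Function.iterate_succ_apply']
  exact ⟨_, _, _, se_cs _, inferInstance⟩

theorem bdd_cs {T : FMod k A} (h : Bdd (SS k A) T) : ∃ C, ∀ j, finrank k (cs^[j] T : FMod k A) ≤ C := by
  obtain ⟨C, hC⟩ := h
  refine ⟨finrank k T + C * finrank k A, fun j => ?_⟩
  cases j with
  | zero => exact Nat.le_add_right _ _
  | succ j =>
    rw [Function.iterate_succ_apply']
    have h1 := (cos_cs T).ed_co (SS k A) 0 j 0
    rw [zero_add] at h1
    refine (finrank_cs_le _).trans ((Nat.mul_le_mul_right _ ?_).trans (Nat.le_add_left _ _))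
    exact h1.le.trans (hC _)

theorem pair_abs {σ : Type} [Fintype σ] (w : ℕ → σ → k) : ∃ j j', j < j' ∧
    ∀ (V : Type) [AddCommGroup V] [Module k V] [FiniteDimensional k V] (Y : ℕ → FMod k A)
      (i : ∀ j, Y j →ₗ[k] V) (q : ∀ j, V →ₗ[k] Y j) (T : Fin (finrank k A) → σ → Module.End k V),
      (∀ j y, q j (i j y) = y) →
      (∀ j α, rep (Y j) (i j) (q j) (Module.finBasis k A α) = ∑ s, w j s • T α s) →
      ed (Y j) (Y j) 1 = 0 → ed (Y j') (Y j') 1 = 0 → InAdd (Y j) (Y j') := by
  classical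
  let b := Module.finBasis k A
  obtain ⟨j, j', hjj, H⟩ := family (k := k) (fun α β γ => b.repr (b α * b β) γ) w
  refine ⟨j, j', hjj, fun V _ _ _ Y i q T hqi hT h1 h2 => ?_⟩
  let e := LinearMap.toMatrixAlgEquiv (Module.finBasis k V)
  have hrig : ∀ j, ed (Y j) (Y j) 1 = 0 → Rigid (fun α β γ => b.repr (b α * b β) γ)
      (fun α => e (rep (Y j) (i j) (q j) (b α))) := fun j hj c hc => by
    obtain ⟨z, hz⟩ := rep_inner (Y j) hj (i j) (q j) (hqi j)
      (b.constr k fun α => e.symm (c α)) fun x y => by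
        have : LinearMap.compr₂ (LinearMap.mul k A) (b.constr k fun α => e.symm (c α)) =
            (LinearMap.mul k _).compl₁₂ (rep (Y j) (i j) (q j)) (b.constr k fun α => e.symm (c α)) +
            (LinearMap.mul k _).compl₁₂ (b.constr k fun α => e.symm (c α))
              (rep (Y j) (i j) (q j)) := by
          refine b.ext fun α => b.ext fun β => ?_
          apply e.injective
          simp only [LinearMap.compr₂_apply, LinearMap.mul_apply', LinearMap.add_apply,
            LinearMap.compl₁₂_apply, Basis.constr_basis, map_add, map_mul,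
            AlgEquiv.apply_symm_apply]
          rw [hc]
          conv_lhs => rw [← b.sum_repr (b α * b β)]
          simp only [map_sum, map_smul, Basis.constr_basis, AlgEquiv.apply_symm_apply]
        exact LinearMap.congr_fun (LinearMap.congr_fun this x) y
    refine ⟨e z, fun α => ?_⟩
    have := congrArg e (hz (b α))
    simpa only [Basis.constr_basis, AlgEquiv.apply_symm_apply, map_sub, map_mul] using this
  have hmem := H _ (fun α s => e (T α s)) (fun j α => e (rep (Y j) (i j) (q j) (b α)))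
    (fun j α => by rw [hT, map_sum]; simp only [map_smul])
    (fun j α β => by
      rw [← map_mul, ← rep_mul _ _ _ (hqi j)]
      conv_lhs => rw [← b.sum_repr (b α * b β)]
      simp only [map_sum, map_smul])
    (hrig j h1) (hrig j' h2)
  obtain ⟨N, t, g, hg⟩ := Submodule.mem_span_set'.1 hmem
  choose φ ψ hφ hψ hgl using fun l => (g l).2
  have hext : ∀ (Y Y' : FMod k A) (i : Y →ₗ[k] V) (p : V →ₗ[k] Y) (i' : Y' →ₗ[k] V)
      (p' : V →ₗ[k] Y') (M : Matrix _ _ k),
      (∀ α, e (rep Y' i' p' (b α)) * M = M * e (rep Y i p (b α))) →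
      ∀ a, rep Y' i' p' a * e.symm M = e.symm M * rep Y i p a := fun Y Y' i p i' p' M hM a => by
    rw [← b.sum_repr a]
    simp only [map_sum, map_smul, Finset.sum_mul, Finset.mul_sum, smul_mul_assoc, mul_smul_comm]
    refine Finset.sum_congr rfl fun α _ => ?_
    congr 1
    apply e.injective
    simpa only [map_mul, AlgEquiv.apply_symm_apply] using hM α
  refine inAdd_of_sum _ _ (i j) (q j) (hqi j) (i j') (q j') (hqi j') t (fun l => e.symm (φ l))
    (fun l => e.symm (ψ l)) (fun l => hext _ _ _ _ _ _ _ (hφ l))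
    (fun l => hext _ _ _ _ _ _ _ (hψ l)) ?_
  apply e.injective
  simp only [map_sum, map_smul, map_mul, AlgEquiv.apply_symm_apply, map_one, ← hgl, hg]

theorem pair_ret (B : ℕ → Bi k A U) (I : Bi k A U) (l : ∀ j, (B j).toFMod →ₗ[k] I.toFMod)
    (p : ∀ j, I.toFMod →ₗ[k] (B j).toFMod) (cl : ∀ j, Cm (B j) I (l j)) (cp : ∀ j, Cm I (B j) (p j))
    (hp : ∀ j x, p j (l j x) = x) :
    ∃ j j', j < j' ∧ ∀ W : FMod k U, ed (HW W (B j)) (HW W (B j)) 1 = 0 →
      ed (HW W (B j')) (HW W (B j')) 1 = 0 → InAdd (HW W (B j)) (HW W (B j')) := by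
  classical
  let E : Submodule k (Module.End k I.toFMod) :=
    { carrier := {f | Cm I I f}
      add_mem' := fun {f g} hf hg u x => by
        rw [LinearMap.add_apply, LinearMap.add_apply, hf, hg, map_add]
      zero_mem' := fun u x => (map_zero _).symm
      smul_mem' := fun c f hf u x => by
        rw [LinearMap.smul_apply, LinearMap.smul_apply, hf, LinearMap.map_smul_of_tower] }
  let c := Module.finBasis k E
  let θ : ℕ → A → E := fun j a => ⟨rep (B j).toFMod (l j) (p j) a, fun u x => by
    rw [rep_apply, rep_apply, cp, ← map_smul, cl]⟩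
  obtain ⟨j, j', hjj, H⟩ := pair_abs (A := A) (σ := Fin (finrank k A) × Fin (finrank k E))
    fun j s => c.repr (θ j (Module.finBasis k A s.1)) s.2
  refine ⟨j, j', hjj, fun W => @H (HW W I) _ _ (HW W I).fin (fun j => HW W (B j))
    (fun j => HW.mapk W _ (cl j)) (fun j => HW.mapk W _ (cp j))
    (fun α s => if s.1 = α then HW.mapk W (c s.2).1 (c s.2).2 else 0)
    (fun j y => Subtype.ext (LinearMap.ext fun w => hp j _)) fun j α => ?_⟩
  rw [Fintype.sum_prod_type, Finset.sum_eq_single α (fun β _ hβ => by simp [hβ]) (by simp)]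
  let L : E →ₗ[k] Module.End k (HW W I) :=
    { toFun := fun f => HW.mapk W f.1 f.2
      map_add' := fun _ _ => rfl
      map_smul' := fun _ _ => rfl }
  have := congrArg L (c.sum_repr (θ j (Module.finBasis k A α)))
  simp only [map_sum, map_smul] at this
  simp only [if_true]
  exact this.symm

variable [FiniteDimensional k U]

theorem pair_bi (B : ℕ → Bi k A U) (hB : ∀ j, UI (B j)) (T : FMod k A)
    (hT : ∀ j, finrank k (B j).toFMod ≤ finrank k T) :
    ∃ j j', j < j' ∧ ∀ W : FMod k U, ed (HW W (B j)) (HW W (B j)) 1 = 0 →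
      ed (HW W (B j')) (HW W (B j')) 1 = 0 → InAdd (HW W (B j)) (HW W (B j')) := by
  choose l hl using fun j => finrank_le_iff_exists_linearMap.1 (hT j)
  have he : (1 : U) * 1 = 1 := mul_one 1
  have hinj : ∀ j, Injective (adj he (B j) (l j)) := fun j x y h => hl j (by
    have : l j ((B j).r (1 * 1) x) = l j ((B j).r (1 * 1) y) :=
      LinearMap.congr_fun (congrArg Subtype.val h) 1
    simpa using this)
  choose p cp hp using fun j => hB j (B j) (G 1 T) (adj he (B j) (l j)) LinearMap.id (hinj j)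
    (cm_adj he _ _) fun _ _ => rfl
  exact pair_ret B (G 1 T) _ p (fun j => cm_adj he _ _) cp hp

section selfinj

variable [Module.Projective A (OmT k A)]

omit [FiniteDimensional k U] in
theorem CoS.ed_both {Y : ℕ → FMod k A} (h : CoS Y) (j n : ℕ) :
    ed (Y j) (Y j) (n + 1) = ed (Y 0) (Y 0) (n + 1) := by
  induction j with
  | zero => rfl
  | succ j ih =>
    obtain ⟨I, f, g, hs, hI⟩ := h j
    have := proj_of_inj I
    rw [← hs.shift_co, hs.shift_con, ih]

omit [FiniteDimensional k U] in
theorem CoS.proj {Y : ℕ → FMod k A} (h : CoS Y) (j : ℕ) (hj : ed (Y (j + 1)) (Y j) 1 = 0) :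
    Module.Projective A (Y 0) := by
  have key : ∀ j, ed (Y (j + 1)) (Y j) 1 = 0 → Module.Projective A (Y j) := fun j hj => by
    obtain ⟨I, f, g, hs, hI⟩ := h j
    have := proj_of_inj I
    obtain ⟨r, hr⟩ := hs.extend hj LinearMap.id
    exact Module.Projective.of_split f r hr
  induction j with
  | zero => exact key 0 hj
  | succ j ih =>
    have := key _ hj
    exact ih (ed_of_proj _ _ 0)

variable [Module.Injective A A]

theorem bound_bi {M : FMod k A} {d : ℕ} (h : CT M d) [Nontrivial A] {N : ℕ} {e : Fin N → U}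
    (he : ∀ i, e i * e i = e i) {S : Fin N → FMod k A} {B : Bi k A U} (hB : FB e S B) :
    ∃ R, ∀ W : FMod k U, (∀ i, 0 < i → i ≤ R → ed (HW W B) (HW W B) i = 0) →
      Module.Projective A (HW W B) := by
  choose C hC using fun i => bdd_cs (bdd_all h (SS k A) (S i))
  have step := fun (j : ℕ) (B : Bi k A U) (hB : FB e (fun i => cs^[j] (S i)) B) =>
    horseshoe he (fun i => se_cs (cs^[j] (S i))) (fun i => inferInstance) hB
  simp only [← Function.iterate_succ_apply' cs] at step
  choose J D f g hs cf cg hJ hD using step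
  let Q : ∀ j, {B : Bi k A U // FB e (fun i => cs^[j] (S i)) B} := fun j =>
    Nat.rec ⟨B, hB⟩ (fun j q => ⟨D j q.1 q.2, hD j q.1 q.2⟩) j
  have hQ : ∀ W, CoS fun j => HW W (Q j).1 := fun W j =>
    ⟨_, _, _, (hs j _ (Q j).2).hw (cf _ _ _) (cg _ _ _) ((Q j).2.ui he) W, hJ _ _ _ W⟩
  obtain ⟨j, j', hjj, H⟩ := pair_bi (fun j => (Q j).1) (fun j => (Q j).2.ui he)
    ((FMod.reg k A).pi (N * (finrank k U * ∑ i, C i))) fun j => by
      refine ((Q j).2.finrank_le fun i => (hC i j).trans
        (Finset.single_le_sum (fun _ _ => Nat.zero_le _) (Finset.mem_univ i))).trans ?_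
      rw [Module.finrank_pi_fintype, Finset.sum_const, Finset.card_univ, Fintype.card_fin]
      exact Nat.le_mul_of_pos_right _ (Module.finrank_pos (R := k) (M := A))
  obtain ⟨t, rfl⟩ : ∃ t, j' = j + t + 1 := ⟨j' - (j + 1), by omega⟩
  refine ⟨t + 1, fun W hX => (hQ W).proj (j + t) ?_⟩
  have hr : ∀ i, ed (HW W (Q i).1) (HW W (Q i).1) 1 = 0 := fun i =>
    ((hQ W).ed_both i 0).trans (hX _ (by omega) (by omega))
  refine (H W (hr _) (hr _)).ed_con _ _ (((hQ W).ed_co _ j t 0).trans ?_)
  rw [show 0 + 1 + t = t + 1 by ring]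
  exact ((hQ W).ed_both j t).trans (hX _ (by omega) le_rfl)

end selfinj

end Pool.Agent.P.MP_b7bea3_al
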