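import Pool.Agent.P.MP_b7bea3_al.Any2

/-! Split filtrations; the universal bimodule of a sequence of triangular models. -/

open Module Function

namespace Pool.Agent.P.MP_b7bea3_al

variable {k A U : Type} [Field k] [Ring A] [Algebra k A] [Ring U] [Algebra k U]

/-- A filtration with the layers `L i`, split over the field. -/
structure Flag {N : ℕ} (X : FMod k A) (L : Fin N → FMod k A) where
  p : ∀ i, X →ₗ[k] L i
  s : ∀ i, L i →ₗ[k] X
  sum : ∀ x, ∑ i, s i (p i x) = x
  diag : ∀ i (a : A) y, p i (a • s i y) = a • y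
  low : ∀ i j, j < i → ∀ (a : A) y, p i (a • s j y) = 0
  up : ∀ i j, i < j → ∀ y, p i (s j y) = 0

theorem Flag.ps {N : ℕ} {X : FMod k A} {L : Fin N → FMod k A} (F : Flag X L) (i : Fin N) (y : L i) :
    F.p i (F.s i y) = y := by simpa using F.diag i 1 y

theorem Flag.ps_ne {N : ℕ} {X : FMod k A} {L : Fin N → FMod k A} (F : Flag X L) {i j : Fin N}
    (h : j ≠ i) (y : L j) : F.p i (F.s j y) = 0 := by
  rcases lt_or_gt_of_ne h with h | h
  · simpa using F.low i j h 1 y
  · exact F.up i j h y

theorem Flag.cons {N : ℕ} {X X' : FMod k A} (L : Fin (N + 1) → FMod k A) {f : L 0 →ₗ[A] X}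
    {g : X →ₗ[A] X'} (h : SE f g) (F : Flag X' fun i => L i.succ) : Nonempty (Flag X L) := by
  obtain ⟨r, hr⟩ := h.retr
  obtain ⟨σ, h1, h2⟩ := h.sect r hr
  refine ⟨⟨Fin.cases r fun i => F.p i ∘ₗ g.restrictScalars k,
    Fin.cases (f.restrictScalars k) fun i => σ ∘ₗ F.s i, fun x => ?_, fun i a y => ?_,
    fun i j hij a y => ?_, fun i j hij y => ?_⟩⟩
  · rw [Fin.sum_univ_succ]
    change f (r x) + ∑ i, σ (F.s i (F.p i (g x))) = x
    rw [← map_sum, F.sum, h2]
  · cases i using Fin.cases with
    | zero => exact (congrArg r (map_smul f a y).symm).trans (hr _)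
    | succ i =>
      change F.p i (g (a • σ (F.s i y))) = _
      rw [map_smul, h1, F.diag]
  · cases i using Fin.cases with
    | zero => exact absurd hij (Fin.not_lt_zero _)
    | succ i =>
      cases j using Fin.cases with
      | zero =>
        change F.p i (g (a • f y)) = _
        rw [map_smul, h.ex.apply_apply_eq_zero, smul_zero, map_zero]
      | succ j =>
        change F.p i (g (a • σ (F.s j y))) = _
        rw [map_smul, h1, F.low i j (Fin.succ_lt_succ_iff.1 hij)]
  · cases j using Fin.cases with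
    | zero => exact absurd hij (Fin.not_lt_zero _)
    | succ j =>
      cases i using Fin.cases with
      | zero =>
        have := h2 (σ (F.s j y))
        rw [h1, add_eq_right] at this
        exact (injective_iff_map_eq_zero f).1 h.inj _ this
      | succ i =>
        change F.p i (g (σ (F.s j y))) = _
        rw [h1, F.up i j (Fin.succ_lt_succ_iff.1 hij)]

/-- A power of `S`, as a space of linear maps. -/
abbrev Hm (m : ℕ) (S : FMod k A) : FMod k A := FMod.of k A ((Fin m → k) →ₗ[k] S)

theorem exists_flag [FiniteDimensional k A] (I : Submodule A (FMod.reg k A)) :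
    ∃ (N : ℕ) (S : Fin N → FMod k A), ∀ X : FMod k A, (∀ a ∈ I, ∀ x : X, (a : A) • x = 0) →
      ∃ m : Fin N → ℕ, Nonempty (Flag X fun i => Hm (m i) (S i)) := by
  have : IsArtinian A (FMod.reg k A) := isArtinian_of_tower k inferInstance
  have : IsNoetherian A (FMod.reg k A) := isNoetherian_of_tower k inferInstance
  induction I using WellFoundedGT.induction with
  | _ I ih =>
  rcases eq_top_or_lt_top I with rfl | hI
  · refine ⟨0, Fin.elim0, fun X hX => ⟨Fin.elim0, ⟨⟨fun i => i.elim0, fun i => i.elim0, fun x => ?_,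
      fun i => i.elim0, fun i => i.elim0, fun i => i.elim0⟩⟩⟩⟩
    simpa using (hX 1 trivial x).symm
  obtain ⟨J, hJ, -⟩ := exists_covBy_le_of_lt hI
  obtain ⟨N, S, H⟩ := ih J hJ.lt
  let T : FMod k A := ((FMod.reg k A).sub J).quot (I.comap J.subtype)
  have hT : IsSimpleModule A T := (covBy_iff_quot_is_simple hJ.le).1 hJ
  refine ⟨N + 1, Fin.cons T S, fun X hX => ?_⟩
  obtain ⟨n, ⟨e⟩⟩ := (IsIsotypicOfType.isotypicComponent A X T).linearEquiv_fun
  obtain ⟨m, ⟨F⟩⟩ := H (X.quot (isotypicComponent A X T)) fun a ha x => by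
    obtain ⟨x, rfl⟩ := Submodule.mkQ_surjective _ x
    rw [← map_smul, Submodule.mkQ_apply, Submodule.Quotient.mk_eq_zero]
    let φ : T →ₗ[A] X := (I.comap J.subtype).liftQ (LinearMap.toSpanSingleton A X x ∘ₗ J.subtype)
      fun b hb => hX _ hb x
    exact LinearMap.le_comap_isotypicComponent T φ (x := Submodule.Quotient.mk ⟨a, ha⟩)
      (isotypicComponent_eq_top_iff.2 (IsIsotypicOfType.of_isSimpleModule A T) ▸ trivial)
  let e' : Hm n T ≃ₗ[A] isotypicComponent A X T :=
    ((Pi.basisFun k (Fin n)).constr (M' := T) A).symm.trans e.symm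
  refine ⟨Fin.cons n m, Flag.cons _ (f := (isotypicComponent A X T).subtype ∘ₗ e'.toLinearMap)
    (g := (isotypicComponent A X T).mkQ) ⟨(Submodule.subtype_injective _).comp e'.injective,
      fun y => ?_, Submodule.mkQ_surjective _⟩ F⟩
  rw [Submodule.mkQ_apply, Submodule.Quotient.mk_eq_zero]
  exact ⟨fun hy => ⟨e'.symm ⟨y, hy⟩, congrArg Subtype.val (e'.apply_symm_apply _)⟩,
    fun ⟨z, hz⟩ => hz ▸ (e' z).2⟩

theorem fb_of_flag [FiniteDimensional k U] {N : ℕ} (e : Fin N → U) (S : Fin N → FMod k A)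
    (B : Bi k A U) (F : Flag B.toFMod fun i => (G (e i) (S i)).toFMod)
    (cp : ∀ i, Cm B (G (e i) (S i)) (F.p i)) (cs : ∀ i, Cm (G (e i) (S i)) B (F.s i)) :
    FB e S B := by
  induction N generalizing B with
  | zero => exact subsingleton_of_forall_eq 0 fun x => by simpa using (F.sum x).symm
  | succ N ih =>
    let f : (G (e 0) (S 0)).toFMod →ₗ[A] B.toFMod :=
      { toFun := F.s 0
        map_add' := map_add _
        map_smul' := fun a y => by
          rw [← F.sum ((RingHom.id A) a • F.s 0 y), Fin.sum_univ_succ, F.diag,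
            Finset.sum_eq_zero fun i _ => by rw [F.low _ _ (Fin.succ_pos i), map_zero], add_zero]
          rfl }
    have hf : Injective f := LeftInverse.injective (g := F.p 0) (F.ps 0)
    have hN : ∀ t, LinearMap.range f ≤ (LinearMap.range f).comap (B.r t) := by
      rintro t _ ⟨x, rfl⟩
      exact ⟨_, cs 0 t x⟩
    have h := se_coker f hf
    obtain ⟨σ, -, h2⟩ := h.sect (F.p 0) (F.ps 0)
    have h3 : ∀ (i : Fin N) x, F.p i.succ (σ ((LinearMap.range f).mkQ x)) = F.p i.succ x :=
      fun i x => by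
        rw [eq_sub_of_add_eq' (h2 x), map_sub]
        exact sub_eq_self.2 (F.ps_ne (Fin.succ_ne_zero i).symm _)
    refine ⟨B.quot _ hN, f, _, h, cs 0, cm_mkQ B _ hN, ih _ _ _
      ⟨fun i => F.p i.succ ∘ₗ σ, fun i => (LinearMap.range f).mkQ.restrictScalars k ∘ₗ F.s i.succ,
        fun x => ?_, fun i a y => (h3 i (a • F.s _ y)).trans (F.diag _ _ _),
        fun i j hij a y => (h3 i (a • F.s _ y)).trans (F.low _ _ (Fin.succ_lt_succ_iff.2 hij) _ _),
        fun i j hij y => (h3 i (F.s _ y)).trans (F.up _ _ (Fin.succ_lt_succ_iff.2 hij) _)⟩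
      (fun i u x => ?_) fun i u y => congrArg (LinearMap.range f).mkQ (cs _ u y)⟩
    · obtain ⟨x, rfl⟩ := (LinearMap.range f).mkQ_surjective x
      change ∑ i : Fin N, (LinearMap.range f).mkQ
        (F.s i.succ (F.p i.succ (σ ((LinearMap.range f).mkQ x)))) = _
      simp only [h3]
      conv_rhs => rw [← F.sum x, Fin.sum_univ_succ, map_add, map_sum]
      exact (add_eq_right.2 (h.ex.apply_apply_eq_zero _)).symm
    · obtain ⟨x, rfl⟩ := (LinearMap.range f).mkQ_surjective x
      exact ((h3 i (B.r u x)).trans (cp _ u x)).trans (congrArg _ (h3 i x).symm)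

/-- The module given by a representation. -/
def twist (V : Type) [AddCommGroup V] [Module k V] [FiniteDimensional k V]
    (ρ : A →ₐ[k] Module.End k V) : FMod k A :=
  letI : Module A V := Module.compHom V ρ.toRingHom
  haveI : IsScalarTower k A V := ⟨fun c a v => by
    change ρ (c • a) v = c • ρ a v
    rw [map_smul, LinearMap.smul_apply]⟩
  FMod.of k A V

/-- The bimodule given by two commuting representations. -/
def twistB (V : Type) [AddCommGroup V] [Module k V] [FiniteDimensional k V]
    (ρ : A →ₐ[k] Module.End k V) (r : U →ₐ[k] Module.End k V)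
    (h : ∀ u a v, r u (ρ a v) = ρ a (r u v)) : Bi k A U where
  toFMod := twist V ρ
  r := AlgHom.ofLinearMap
    { toFun := fun u => { toFun := r u, map_add' := map_add _, map_smul' := h u }
      map_add' := fun u v => LinearMap.ext fun (x : V) =>
        LinearMap.congr_fun (R := k) (M := V) (map_add r u v) x
      map_smul' := fun c u => LinearMap.ext fun (x : V) =>
        LinearMap.congr_fun (R := k) (M := V) (map_smul r c u) x }
    (LinearMap.ext fun (x : V) => LinearMap.congr_fun (R := k) (M := V) (map_one r) x)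
    fun u v => LinearMap.ext fun (x : V) => LinearMap.congr_fun (R := k) (M := V) (map_mul r u v) x

theorem exists_bi [FiniteDimensional k U] {N : ℕ} (e : Fin N → U) (S : Fin N → FMod k A)
    {τ : Fin N → Fin N → Type} [∀ i j, Fintype (τ i j)] (xx : ∀ i j, τ i j → S j →ₗ[k] S i)
    (η : ∀ i j, τ i j → A →ₗ[k] U) (hη : ∀ i j t a, η i j t a * e i = η i j t a)
    (hη0 : ∀ i j t a, ¬ i < j → η i j t a = 0) (X : ℕ → FMod k A) (W : ℕ → FMod k U)
    (hW : ∀ u : U, (∀ n (w : W n), u • w = 0) → u = 0) (P : ∀ n i, X n →ₗ[k] W n →ₗ[k] S i)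
    (hP : ∀ n i x w, P n i x (e i • w) = P n i x w) (hinj : ∀ n x, (∀ i, P n i x = 0) → x = 0)
    (hsurj : ∀ n (ψ : ∀ i, W n →ₗ[k] S i), ∃ x, ∀ i w, P n i x w = ψ i (e i • w))
    (hact : ∀ n i (a : A) x w, P n i (a • x) w =
      a • P n i x w + ∑ j, ∑ t, xx i j t (P n j x (η i j t a • w))) :
    ∃ B : Bi k A U, FB e S B ∧ ∀ n, Nonempty (X n ≃ₗ[A] HW (W n) B) := by
  classical
  let H : Type := ∀ i, (G (e i) (S i)).toFMod
  let cor : A → H → H := fun a φ i => ⟨∑ j, ∑ t, xx i j t ∘ₗ (φ j).1 ∘ₗ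
    LinearMap.mulLeft k (η i j t a), fun x => by simp [← mul_assoc, hη]⟩
  have hcor : ∀ a (φ : H) i x, (cor a φ i).1 x =
      ∑ j, ∑ t, xx i j t ((φ j).1 (η i j t a * x)) := fun a φ i x => by simp [cor]
  have hx : ∀ {φ ψ : H}, (∀ i x, (φ i).1 x = (ψ i).1 x) → φ = ψ := fun h =>
    funext fun i => Subtype.ext (LinearMap.ext (h i))
  let lam : A →ₗ[k] Module.End k H := LinearMap.mk₂ k (fun a φ => a • φ + cor a φ)
    (fun a b φ => hx fun i x => by
      simp [H, hcor, add_smul, add_mul, Finset.sum_add_distrib]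
      abel)
    (fun c a φ => hx fun i x => by simp [H, hcor, Finset.smul_sum])
    (fun a φ ψ => hx fun i x => by
      simp [H, hcor, Finset.sum_add_distrib]
      abel)
    fun c a φ => hx fun i x => by simp [H, hcor, Finset.smul_sum, smul_comm a c]
  have hlam : ∀ a (φ : H) i x, (lam a φ i).1 x =
      a • (φ i).1 x + ∑ j, ∑ t, xx i j t ((φ j).1 (η i j t a * x)) := fun a φ i x =>
    congrArg (a • (φ i).1 x + ·) (hcor a φ i x)
  let E : ∀ n, X n → W n → H := fun n x w i =>
    ⟨P n i x ∘ₗ (LinearMap.toSpanSingleton U (W n) w).restrictScalars k, fun u => by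
      simp [mul_smul, hP]⟩
  have hE : ∀ n x w i u, (E n x w i).1 u = P n i x (u • w) := fun _ _ _ _ _ => rfl
  have key : ∀ a n x w, lam a (E n x w) = E n (a • x) w := fun a n x w => hx fun i u => by
    simp only [hlam, hE, hact, mul_smul]
  have dense : Submodule.span k {φ | ∃ n x w, E n x w = φ} = ⊤ := by
    refine Submodule.eq_top_iff'.2 fun φ => ?_
    have hD : Submodule.span k {g : U →ₗ[k] k | ∃ (n : ℕ) (w : W n) (f : W n →ₗ[k] k),
        f ∘ₗ (LinearMap.toSpanSingleton U (W n) w).restrictScalars k = g} = ⊤ := by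
      refine Submodule.span_eq_top_of_ne_zero fun u hu => ?_
      by_contra hc
      refine hu (hW u fun n w => (Module.forall_dual_apply_eq_zero_iff k _).1 fun f => ?_)
      by_contra h
      exact hc ⟨_, ⟨n, w, f, rfl⟩, h⟩
    rw [← Finset.univ_sum_single φ]
    refine Submodule.sum_mem _ fun i _ => ?_
    have he : ∀ (n : ℕ) (w : W n) (ψ : W n →ₗ[k] S i), ∃ x, ∀ u : U,
        (E n x w i).1 u = ψ (e i • u • w) ∧ ∀ j, j ≠ i → (E n x w j).1 u = 0 := fun n w ψ => by
      obtain ⟨x, hx⟩ := hsurj n (Pi.single i ψ)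
      exact ⟨x, fun u => ⟨by simp [hE, hx], fun j hj => by simp [hE, hx, hj]⟩⟩
    have key2 : ∀ (s : S i) (g : U →ₗ[k] k), ∃ ψ ∈ Submodule.span k {φ | ∃ n x w, E n x w = φ},
        ∀ u, (ψ i).1 u = g (e i * u) • s ∧ ∀ j, j ≠ i → (ψ j).1 u = 0 := fun s g => by
      induction (hD ▸ Submodule.mem_top : g ∈ Submodule.span k _) using Submodule.span_induction with
      | mem g hg =>
        obtain ⟨n, w, f, rfl⟩ := hg
        obtain ⟨x, hx⟩ := he n w (f.smulRight s)
        exact ⟨_, Submodule.subset_span ⟨n, x, w, rfl⟩, fun u =>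
          ⟨(hx u).1.trans (by simp [mul_smul]), (hx u).2⟩⟩
      | zero => exact ⟨0, Submodule.zero_mem _, fun u => by simp [H]⟩
      | add g g' _ _ h h' =>
        obtain ⟨ψ, h1, h2⟩ := h
        obtain ⟨ψ', h1', h2'⟩ := h'
        exact ⟨ψ + ψ', Submodule.add_mem _ h1 h1', fun u => ⟨by simp [H, h2 u, h2' u, add_smul],
          fun j hj => by simp [H, (h2 u).2 j hj, (h2' u).2 j hj]⟩⟩
      | smul c g _ h =>
        obtain ⟨ψ, h1, h2⟩ := h
        exact ⟨c • ψ, Submodule.smul_mem _ c h1, fun u => ⟨by simp [H, h2 u, mul_smul],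
          fun j hj => by simp [H, (h2 u).2 j hj]⟩⟩
    let b := Module.finBasis k (S i)
    choose ψ h1 h2 using fun q => key2 (b q) (b.coord q ∘ₗ (φ i).1)
    convert Submodule.sum_mem _ fun q (_ : q ∈ Finset.univ) => h1 q
    refine hx fun j u => ?_
    by_cases hj : j = i
    · subst hj
      simp [H, h2, (φ j).2 u]
    · simp [H, hj, fun q => (h2 q u).2 j hj]
  let ρ : A →ₐ[k] Module.End k H := AlgHom.ofLinearMap lam
    (LinearMap.ext_on dense (by rintro _ ⟨n, x, w, rfl⟩; simp [key]))
    fun a b => LinearMap.ext_on dense (by rintro _ ⟨n, x, w, rfl⟩; simp [key, mul_smul])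
  have : FiniteDimensional k H := @Module.Finite.pi _ _ _ _ _ _ _ fun i => (G (e i) (S i)).fin
  let r : U →ₐ[k] Module.End k H := AlgHom.ofLinearMap
    (LinearMap.mk₂ k (fun u (φ : H) i => (G (e i) (S i)).r u (φ i))
      (fun u v φ => hx fun i x => by simp [H, mul_add]) (fun c u φ => hx fun i x => by simp [H])
      (fun _ _ _ => rfl) fun _ _ _ => rfl)
    (LinearMap.ext fun φ => hx fun i x => congrArg (φ i).1 (mul_one x))
    fun u v => LinearMap.ext fun φ => hx fun i x => congrArg (φ i).1 (mul_assoc x u v).symm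
  have hr : ∀ u (φ : H) i x, (r u φ i).1 x = (φ i).1 (x * u) := fun _ _ _ _ => rfl
  let B : Bi k A U := twistB H ρ r fun u a φ => hx fun i x => by
    change (r u (lam a φ) i).1 x = (lam a (r u φ) i).1 x
    simp only [hr, hlam, mul_assoc]
  have hs : ∀ i j (a : A) (y : (G (e j) (S j)).toFMod), ¬ i < j →
      lam a (Pi.single j y) i = a • (Pi.single j y : H) i := fun i j a y hij =>
    Subtype.ext (LinearMap.ext fun x => (hlam _ _ _ _).trans (add_eq_left.2
      (Finset.sum_eq_zero fun l _ => Finset.sum_eq_zero fun t _ => by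
        by_cases h : l = j
        · subst h
          simp [hη0 i l t a hij]
        · simp [h])))
  let p : ∀ i, H →ₗ[k] (G (e i) (S i)).toFMod := fun i => LinearMap.proj i
  let s : ∀ i, (G (e i) (S i)).toFMod →ₗ[k] H := fun i =>
    LinearMap.single k (fun i => (G (e i) (S i)).toFMod) i
  let F : Flag B.toFMod fun i => (G (e i) (S i)).toFMod := ⟨p, s, fun x => Finset.univ_sum_single x,
    fun i a y => (hs i i a y (lt_irrefl i)).trans (by rw [Pi.single_eq_same]),
    fun i j hij a y => (hs i j a y hij.le.not_gt).trans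
      (by rw [Pi.single_eq_of_ne hij.ne', smul_zero]),
    fun i j hij y => (show (Pi.single j y : H) i = 0 by rw [Pi.single_eq_of_ne hij.ne])⟩
  refine ⟨B, fb_of_flag e S B F (fun _ _ _ => rfl) fun i u y => ?_, fun n => ?_⟩
  · exact funext fun j => (Pi.apply_single (fun l => (G (e l) (S l)).r u) (fun _ => map_zero _)
      i y j).symm
  let Φ : X n →ₗ[A] HW (W n) B :=
    { toFun := fun x => ⟨
        { toFun := E n x
          map_add' := fun w w' => hx fun i u =>
            (congrArg (P n i x) (smul_add u w w')).trans (map_add _ _ _)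
          map_smul' := fun c w => hx fun i u =>
            (congrArg (P n i x) (smul_comm u c w)).trans (map_smul _ _ _) },
        fun u w => hx fun i v => congrArg (P n i x) (mul_smul v u w).symm⟩
      map_add' := fun x y => Subtype.ext (LinearMap.ext fun w => hx fun i u =>
        LinearMap.congr_fun (map_add (P n i) x y) (u • w))
      map_smul' := fun a x => Subtype.ext (LinearMap.ext fun w => (key a n x w).symm) }
  refine ⟨LinearEquiv.ofBijective Φ ⟨(injective_iff_map_eq_zero Φ).2 fun x h =>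
    hinj n x fun i => LinearMap.ext fun w => ?_, fun ψ => ?_⟩⟩
  · have : P n i x ((1 : U) • w) = 0 :=
      congrArg (fun φ : HW (W n) B => ((φ.1 w : H) i).1 1) h
    rwa [one_smul] at this
  · obtain ⟨x, h⟩ := hsurj n fun i =>
      (ev1 (e i) (S i)).restrictScalars k ∘ₗ LinearMap.proj (R := k) i ∘ₗ ψ.1
    refine ⟨x, Subtype.ext (LinearMap.ext fun w => hx fun i u => (h i (u • w)).trans ?_)⟩
    change ((ψ.1 (e i • u • w) : H) i).1 1 = _
    rw [← mul_smul, ψ.2]
    exact (congrArg _ (one_mul _)).trans (((ψ.1 w : H) i).2 u)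

end Pool.Agent.P.MP_b7bea3_al
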