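import Pool.Agent.P.MP_b7bea3_al.Any3

/-! The algebra of triangular coefficients; the self-injective case over any field. -/

open Module Function

namespace Pool.Agent.P.MP_b7bea3_al

variable {k A : Type} [Field k] [Ring A] [Algebra k A]

/-- Orthogonal idempotents and finitely many strictly triangular elements generate a
finite-dimensional algebra. -/
theorem fd_adjoin {R : Type} [Ring R] [Algebra k R] {N : ℕ} (e : Fin N → R)
    (he : ∀ i j, e i * e j = if i = j then e i else 0) (h1 : ∑ i, e i = 1) (s : Set R)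
    (hs : (Submodule.span k s).FG) (ht : ∀ g ∈ s, g = 0 ∨ ∃ i j, i < j ∧ e j * g = g ∧ g * e i = g) :
    FiniteDimensional k (Algebra.adjoin k (Set.range e ∪ s)) := by
  let T : ℕ → Submodule k R := fun r =>
    Nat.rec (Submodule.span k (Set.range e)) (fun _ t => Submodule.span k s * t) r
  have hT : ∀ r, T (r + 1) = Submodule.span k s * T r := fun _ => rfl
  have fg : ∀ r, (T r).FG := fun r => by
    induction r with
    | zero => exact Submodule.fg_span (Set.finite_range e)
    | succ r ih => exact hs.mul ih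
  have hes : ∀ l, ∀ g ∈ Submodule.span k s, e l * g ∈ Submodule.span k s := fun l g hg => by
    refine (Submodule.span_le (p := (Submodule.span k s).comap (LinearMap.mulLeft k (e l)))).2
      (fun g hg => ?_) hg
    change e l * g ∈ Submodule.span k s
    rcases ht g hg with rfl | ⟨i, j, -, h, -⟩
    · simp
    · rw [← h, ← mul_assoc, he]
      split_ifs with hl
      · rw [hl, h]; exact Submodule.subset_span hg
      · simp
  have heT : ∀ l r, ∀ x ∈ T r, e l * x ∈ T r := fun l r x hx => by
    cases r with
    | zero =>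
      refine (Submodule.span_le (p := (T 0).comap (LinearMap.mulLeft k (e l)))).2 ?_ hx
      rintro _ ⟨j, rfl⟩
      change e l * e j ∈ T 0
      rw [he]
      split_ifs
      · exact Submodule.subset_span ⟨l, rfl⟩
      · exact Submodule.zero_mem _
    | succ r =>
      refine Submodule.mul_induction_on hx (fun g hg y hy => ?_) fun x y hx hy => ?_
      · rw [← mul_assoc]; exact Submodule.mul_mem_mul (hes l g hg) hy
      · rw [mul_add]; exact Submodule.add_mem _ hx hy
  have hz : ∀ r, ∀ x ∈ T r, ∀ l : Fin N, l.1 < r → e l * x = 0 := fun r => by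
    induction r with
    | zero => exact fun _ _ _ h => absurd h (Nat.not_lt_zero _)
    | succ r ih =>
      intro x hx l hl
      refine Submodule.mul_induction_on hx (fun g hg y hy => ?_) fun x y hx hy => ?_
      · refine (Submodule.span_le (p := LinearMap.ker (LinearMap.mulLeft k (e l) ∘ₗ
          LinearMap.mulRight k y))).2 (fun g hg => ?_) hg
        change e l * (g * y) = 0
        rcases ht g hg with rfl | ⟨i, j, hij, h, h'⟩
        · simp
        · by_cases hi : i.1 < r
          · rw [← h', mul_assoc, ih y hy i hi, mul_zero, mul_zero]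
          · rw [← h, mul_assoc, ← mul_assoc, he, if_neg, zero_mul]
            rintro rfl
            exact hi (lt_of_lt_of_le hij (Nat.le_of_lt_succ hl))
      · rw [mul_add, hx, hy, add_zero]
  let V := ⨆ r : Fin (N + 1), T r
  have hV : ∀ r, T r ≤ V := fun r x hx => by
    by_cases h : r < N + 1
    · exact le_iSup (fun r : Fin (N + 1) => T r) ⟨r, h⟩ hx
    · rw [← one_mul x, ← h1, Finset.sum_mul, Finset.sum_eq_zero fun l _ => hz r x hx l (by omega)]
      exact V.zero_mem
  have : Module.Finite k V := Module.Finite.iff_fg.2 (Submodule.fg_iSup _ fun r => fg r)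
  have key : ∀ x ∈ Algebra.adjoin k (Set.range e ∪ s), V ≤ V.comap (LinearMap.mulLeft k x) :=
    fun x hx => by
    induction hx using Algebra.adjoin_induction with
    | mem x hx =>
      refine iSup_le fun r y hy => ?_
      rcases hx with ⟨l, rfl⟩ | hx
      · exact hV r (heT l r y hy)
      · exact hV (r + 1) (Submodule.mul_mem_mul (Submodule.subset_span hx) hy)
    | algebraMap c => exact fun y hy => by simpa [← Algebra.smul_def] using V.smul_mem c hy
    | add x y _ _ hx hy => exact fun z hz => by simpa [add_mul] using V.add_mem (hx hz) (hy hz)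
    | mul x y _ _ hx hy => exact fun z hz => by simpa [mul_assoc] using hx (hy hz)
  refine Submodule.finiteDimensional_of_le
    (S₁ := Subalgebra.toSubmodule (Algebra.adjoin k (Set.range e ∪ s))) (S₂ := V) fun x hx => ?_
  have h0 : (1 : R) ∈ Submodule.span k (Set.range e) :=
    h1 ▸ Submodule.sum_mem _ fun i _ => Submodule.subset_span (Set.mem_range_self i)
  simpa using key x hx (hV 0 h0)

/-- Linear maps between powers have coefficients. -/
theorem exists_coef (S S' : FMod k A) : ∃ (t : ℕ) (x : Fin t → S' →ₗ[k] S), ∀ m m' : ℕ,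
    ∃ Y : Fin t → (((Fin m' → k) →ₗ[k] S') →ₗ[k] (Fin m → k) →ₗ[k] S) →ₗ[k]
      (Fin m → k) →ₗ[k] Fin m' → k, ∀ (Θ : ((Fin m' → k) →ₗ[k] S') →ₗ[k] (Fin m → k) →ₗ[k] S)
        (ψ : (Fin m' → k) →ₗ[k] S') (w : Fin m → k), Θ ψ w = ∑ q, x q (ψ (Y q Θ w)) := by
  let b := Module.finBasis k S
  let c := Module.finBasis k S'
  let z := finProdFinEquiv (m := finrank k S) (n := finrank k S')
  refine ⟨_, fun q => (c.coord (z.symm q).2).smulRight (b (z.symm q).1), fun m m' => ⟨fun q =>
    { toFun := fun Θ => LinearMap.pi fun j => b.coord (z.symm q).1 ∘ₗ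
        Θ ((LinearMap.proj j : (Fin m' → k) →ₗ[k] k).smulRight (c (z.symm q).2))
      map_add' := fun _ _ => by ext; simp
      map_smul' := fun _ _ => by ext; simp }, fun Θ ψ w => ?_⟩⟩
  have hψ : ψ = ∑ j, ∑ q, c.repr (ψ (Pi.single j 1)) q •
      (LinearMap.proj j : (Fin m' → k) →ₗ[k] k).smulRight (c q) := by
    refine (Pi.basisFun k _).ext fun j => ?_
    simp [Pi.single_apply, ite_smul]
  have hv : ∀ v : Fin m' → k, ψ v = ∑ j, v j • ψ (Pi.single j 1) := fun v => by
    conv_lhs => rw [← Finset.univ_sum_single v, map_sum]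
    exact Finset.sum_congr rfl fun j _ => by rw [← map_smul, ← Pi.single_smul, smul_eq_mul, mul_one]
  rw [← z.sum_comp, Fintype.sum_prod_type]
  conv_lhs => rw [hψ, ← b.sum_repr (Θ _ w)]
  refine Finset.sum_congr rfl fun p _ => ?_
  simp only [Equiv.symm_apply_apply, LinearMap.smulRight_apply, ← Finset.sum_smul]
  congr 1
  simp only [map_sum, map_smul, LinearMap.sum_apply, LinearMap.smul_apply, Finsupp.finsetSum_apply,
    Finsupp.smul_apply]
  rw [Finset.sum_comm]
  refine Finset.sum_congr rfl fun q _ => ?_
  rw [hv]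
  simp [mul_comm]

variable [FiniteDimensional k A]

theorem exists_univ (X : ℕ → FMod k A) : ∃ (U : Type) (_ : Ring U) (_ : Algebra k U)
    (_ : FiniteDimensional k U) (N : ℕ) (e : Fin N → U) (S : Fin N → FMod k A) (B : Bi k A U),
      (∀ i, e i * e i = e i) ∧ FB e S B ∧ ∀ n, ∃ W : FMod k U, Nonempty (X n ≃ₗ[A] HW W B) := by
  classical
  obtain ⟨N, S, H⟩ := exists_flag (k := k) (A := A) ⊥
  choose m hm using fun n => H (X n) fun a ha x => by rw [(Submodule.mem_bot A).1 ha, zero_smul]
  let F := fun n => (hm n).some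
  choose t xx Y hY using fun i j => exists_coef (S i) (S j)
  let W : ℕ → Type := fun n => ∀ i, Fin (m n i) → k
  let pr : ∀ n i, W n →ₗ[k] Fin (m n i) → k := fun n i => LinearMap.proj i
  let sg : ∀ n i, (Fin (m n i) → k) →ₗ[k] W n := fun n i =>
    LinearMap.single k (fun i => Fin (m n i) → k) i
  have ps : ∀ n i v, pr n i (sg n i v) = v := fun n i v => by simp [pr, sg, W]
  have ps' : ∀ n i j v, i ≠ j → pr n i (sg n j v) = 0 := fun n i j v h => by
    simp [pr, sg, W, h]
  let R : Type := ∀ n, Module.End k (W n)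
  let e : Fin N → R := fun i n => sg n i ∘ₗ pr n i
  let η : ∀ i j, Fin (t i j) → A →ₗ[k] R := fun i j q => if i < j then
    { toFun := fun a n => sg n j ∘ₗ Y i j _ _ q ((F n).p i ∘ₗ act (X n) a ∘ₗ (F n).s j) ∘ₗ pr n i
      map_add' := fun a b => by
        simp only [map_add, LinearMap.add_comp, LinearMap.comp_add]
        rfl
      map_smul' := fun c a => by
        simp only [map_smul, LinearMap.smul_comp, LinearMap.comp_smul]
        rfl } else 0
  have hη : ∀ i j q a n w, i < j → η i j q a n w =
      sg n j (Y i j _ _ q ((F n).p i ∘ₗ act (X n) a ∘ₗ (F n).s j) (pr n i w)) :=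
    fun i j q a n w h => by simp only [η, if_pos h]; rfl
  have hη0 : ∀ i j q a, ¬ i < j → η i j q a = 0 := fun i j q a h => by simp only [η, if_neg h]; rfl
  have hee : ∀ i j, e i * e j = if i = j then e i else 0 := fun i j => by
    split_ifs with h
    · subst h
      exact funext fun n => LinearMap.ext fun w => congrArg (sg n i) (ps n i _)
    · exact funext fun n => LinearMap.ext fun w =>
        (congrArg (sg n i) (ps' n i j _ h)).trans (map_zero _)
  have hηe : ∀ i j q a, η i j q a * e i = η i j q a := fun i j q a => by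
    by_cases h : i < j
    · exact funext fun n => LinearMap.ext fun w => (hη i j q a n _ h).trans
        ((hη i j q a n _ h).trans (by rw [show pr n i (e i n w) = pr n i w from ps n i _])).symm
    · rw [hη0 i j q a h, zero_mul]
  let s : Set R := {g | ∃ i j q a, η i j q a = g}
  have hfd := fd_adjoin (k := k) e hee
    (funext fun n => LinearMap.ext fun w => by
      rw [Finset.sum_apply, LinearMap.sum_apply]
      exact Finset.univ_sum_single w) s
    (by
      have : Submodule.span k s = ⨆ i, ⨆ j, ⨆ q, LinearMap.range (η i j q) := by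
        refine le_antisymm (Submodule.span_le.2 ?_) (iSup_le fun i => iSup_le fun j =>
          iSup_le fun q => ?_)
        · rintro _ ⟨i, j, q, a, rfl⟩
          exact Submodule.mem_iSup_of_mem i (Submodule.mem_iSup_of_mem j
            (Submodule.mem_iSup_of_mem q ⟨a, rfl⟩))
        · rintro _ ⟨a, rfl⟩
          exact Submodule.subset_span ⟨i, j, q, a, rfl⟩
      rw [this]
      exact Submodule.fg_iSup _ fun i => Submodule.fg_iSup _ fun j => Submodule.fg_iSup _ fun q =>
        Submodule.fg_range _)
    (by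
      rintro _ ⟨i, j, q, a, rfl⟩
      by_cases h : i < j
      · refine .inr ⟨i, j, h, funext fun n => LinearMap.ext fun w => ?_, hηe i j q a⟩
        change sg n j (pr n j (η i j q a n w)) = _
        rw [hη i j q a n w h, ps]
      · exact .inl (hη0 i j q a h))
  let U := Algebra.adjoin k (Set.range e ∪ s)
  let eU : Fin N → U := fun i => ⟨e i, Algebra.subset_adjoin (.inl ⟨i, rfl⟩)⟩
  let ηU : ∀ i j, Fin (t i j) → A →ₗ[k] U := fun i j q =>
    { toFun := fun a => ⟨η i j q a, Algebra.subset_adjoin (.inr ⟨i, j, q, a, rfl⟩)⟩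
      map_add' := fun a b => Subtype.ext (map_add _ a b)
      map_smul' := fun c a => Subtype.ext (map_smul _ c a) }
  let WU : ℕ → FMod k U := fun n => twist (W n) ((Pi.evalAlgHom k _ n).comp U.val)
  let P : ∀ n i, X n →ₗ[k] W n →ₗ[k] S i := fun n i =>
    LinearMap.lcomp k (S i) (pr n i) ∘ₗ (F n).p i
  obtain ⟨B, h1, h2⟩ := exists_bi eU S xx ηU (fun i j q a => Subtype.ext (hηe i j q a))
    (fun i j q a h => Subtype.ext (hη0 i j q a h)) X WU
    (fun u hu => Subtype.ext (funext fun n => LinearMap.ext (hu n))) P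
    (fun n i x w => congrArg ((F n).p i x) (ps n i _))
    (fun n x h => by
      rw [← (F n).sum x]
      refine Finset.sum_eq_zero fun i _ => ?_
      rw [show (F n).p i x = 0 from LinearMap.ext fun v => ?_, map_zero]
      have : (F n).p i x (pr n i (sg n i v)) = 0 := LinearMap.congr_fun (h i) (sg n i v)
      rwa [ps] at this)
    (fun n (ψ : ∀ i, W n →ₗ[k] S i) => ⟨∑ j, (F n).s j (ψ j ∘ₗ sg n j), fun i (w : W n) => by
      change (F n).p i _ (pr n i w) = _
      rw [map_sum, Finset.sum_eq_single i (fun j _ hj => (F n).ps_ne hj _) (by simp), (F n).ps]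
      rfl⟩)
    fun n i a x (w : W n) => by
      change (F n).p i (a • x) (pr n i w) = a • (F n).p i x (pr n i w) +
        ∑ j, ∑ q, xx i j q ((F n).p j x (pr n j (η i j q a n w)))
      conv_lhs => rw [← (F n).sum x, Finset.smul_sum, map_sum, LinearMap.sum_apply]
      rw [← Finset.add_sum_erase _ _ (Finset.mem_univ i), (F n).diag,
        ← Finset.add_sum_erase _ _ (Finset.mem_univ i), Finset.sum_eq_zero (s := Finset.univ)
          fun q _ => by rw [hη0 i i q a (lt_irrefl i)]; simp [R], zero_add]
      refine congrArg _ (Finset.sum_congr rfl fun j hj => ?_)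
      rcases lt_or_gt_of_ne (Finset.ne_of_mem_erase hj) with h | h
      · rw [(F n).low i j h, Finset.sum_eq_zero fun q _ => by rw [hη0 i j q a h.le.not_gt]; simp [R]]
        rfl
      · refine (hY i j _ _ ((F n).p i ∘ₗ act (X n) a ∘ₗ (F n).s j) _ _).trans
          (Finset.sum_congr rfl fun q _ => ?_)
        rw [hη i j q a n w h, ps]
  exact ⟨U, inferInstance, inferInstance, hfd, N, eU, S, B,
    fun i => Subtype.ext ((hee i i).trans (if_pos rfl)), h1, fun n => ⟨WU n, h2 n⟩⟩

theorem exists_bound_any [Module.Projective A (OmT k A)] [Module.Injective A A] [Nontrivial A]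
    {M : FMod k A} {d : ℕ} (h : CT M d) :
    ∃ R, ∀ X : FMod k A, (∀ i, 0 < i → i ≤ R → ed X X i = 0) → Module.Projective A X := by
  by_contra hc
  simp only [not_exists, not_forall] at hc
  choose X h1 h2 using hc
  obtain ⟨U, _, _, _, N, e, S, B, he, hB, H⟩ := exists_univ X
  obtain ⟨R, hR⟩ := bound_bi h he hB
  obtain ⟨W, ⟨φ⟩⟩ := H R
  have := hR W fun i h0 hi => by
    rw [← ed_congr_co _ φ, ← ed_congr_con _ φ]
    exact h1 R i h0 hi
  exact h2 R (Module.Projective.of_equiv' φ.symm)

theorem finite_of_tachikawa_any (hA : ¬ IsSemisimpleRing A)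
    (hT : (∀ i, 0 < i → ed (Om k A) (FMod.reg k A) i = 0) → Module.Injective A A) :
    {d : ℕ | ∃ M : FMod k A, CT M d}.Finite := by
  by_cases h : ∀ i, 0 < i → ed (Om k A) (FMod.reg k A) i = 0
  · have := hT h
    have : Module.Projective A (OmT k A) := proj_om_of_injective
    have : Nontrivial A := by
      by_contra hn
      have := not_nontrivial_iff_subsingleton.1 hn
      exact hA inferInstance
    rcases Set.eq_empty_or_nonempty {d : ℕ | ∃ M : FMod k A, CT M d} with h | ⟨d, M, h⟩
    · rw [h]; exact Set.finite_empty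
    obtain ⟨R, hR⟩ := exists_bound_any h
    refine (Set.finite_le_nat R).subset ?_
    rintro d' ⟨N, hN⟩
    by_contra hlt
    have := hR N fun i h0 hi => hN.ed_self h0 (lt_of_le_of_lt hi (not_le.1 hlt))
    exact hA (semisimple_of_ct_proj hN)
  push Not at h
  obtain ⟨i, h0, hi⟩ := h
  refine (Set.finite_le_nat i).subset ?_
  rintro d ⟨M, hM⟩
  by_contra hlt
  have : Module.Projective A (FMod.reg k A) := inferInstanceAs (Module.Projective A A)
  exact hi ((hM.om (Om k A)).ed_con _ _ ((hM.reg (FMod.reg k A)).ed_co _ _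
    (hM.ed_self h0 (not_le.1 hlt))))

end Pool.Agent.P.MP_b7bea3_al
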