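import Mathlib

/-! Finite-dimensional modules and dimensions of Ext groups. -/

open CategoryTheory CategoryTheory.Abelian Module

namespace Pool.Agent.P.MP_b7bea3_al

/-- Finite-dimensional modules over a `k`-algebra `A`. -/
structure FMod (k A : Type) [Field k] [Ring A] [Algebra k A] : Type 1 where
  carrier : Type
  [ab : AddCommGroup carrier]
  [mA : Module A carrier]
  [mk' : Module k carrier]
  [tower : IsScalarTower k A carrier]
  [fin : FiniteDimensional k carrier]

attribute [instance] FMod.ab FMod.mA FMod.mk' FMod.tower FMod.fin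

instance (k A : Type) [Field k] [Ring A] [Algebra k A] : CoeSort (FMod k A) Type :=
  ⟨FMod.carrier⟩

/-- Bundling. -/
abbrev FMod.of (k A : Type) [Field k] [Ring A] [Algebra k A] (X : Type) [AddCommGroup X]
    [Module A X] [Module k X] [IsScalarTower k A X] [FiniteDimensional k X] : FMod k A :=
  ⟨X⟩

variable {k A : Type} [Field k] [Ring A] [Algebra k A]

instance (X : FMod k A) : Module.Finite A X := Module.Finite.of_restrictScalars_finite k A X

/-- The object of the module category. -/
abbrev FMod.obj (X : FMod k A) : ModuleCat.{0} A := ModuleCat.of A X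

instance hasExtOne (A : Type) [Ring A] : HasExt.{1} (ModuleCat.{0} A) := HasExt.standard _

/-- Ext groups. -/
abbrev EE (X Y : FMod k A) (i : ℕ) : Type 1 := Ext.{1} X.obj Y.obj i

/-- Dimension of Ext. -/
noncomputable def ed (X Y : FMod k A) (i : ℕ) : ℕ := finrank k (EE X Y i)

/-- Dimension of Hom. -/
noncomputable def hd (X Y : FMod k A) : ℕ := finrank k (X →ₗ[A] Y)

/-- Short exact sequences. -/
structure SE {X Y Z : FMod k A} (f : X →ₗ[A] Y) (g : Y →ₗ[A] Z) : Prop where
  inj : Function.Injective f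
  ex : Function.Exact f g
  surj : Function.Surjective g

instance (X Y : FMod k A) : FiniteDimensional k (X →ₗ[A] Y) :=
  FiniteDimensional.of_injective (LinearMap.restrictScalarsₗ k A X Y k)
    (LinearMap.restrictScalars_injective k)

/-- The short complex. -/
noncomputable def SE.sc {X Y Z : FMod k A} {f : X →ₗ[A] Y} {g : Y →ₗ[A] Z} (h : SE f g) :
    ShortComplex (ModuleCat.{0} A) :=
  ShortComplex.mk (X₁ := X.obj) (X₂ := Y.obj) (X₃ := Z.obj) (ModuleCat.ofHom f)
    (ModuleCat.ofHom g) (by
      ext x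
      exact h.ex.apply_apply_eq_zero x)

theorem SE.se {X Y Z : FMod k A} {f : X →ₗ[A] Y} {g : Y →ₗ[A] Z} (h : SE f g) :
    h.sc.ShortExact :=
  ModuleCat.shortComplex_shortExact _ h.ex h.inj h.surj

/-- degree-zero class of a map. -/
noncomputable def m0 {X Y : FMod k A} : (X →ₗ[A] Y) →ₗ[k] EE X Y 0 where
  toFun f := Ext.mk₀ (ModuleCat.ofHom f)
  map_add' f g := by rw [ModuleCat.ofHom_add, Ext.mk₀_add]
  map_smul' c f := by
    rw [RingHom.id_apply, ← Ext.mk₀_smul]
    congr 1
    ext x
    exact (algebraMap_smul A c (f x)).symm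

theorem m0_bijective {X Y : FMod k A} : Function.Bijective (m0 (X := X) (Y := Y)) := by
  constructor
  · intro f g h
    have := (Ext.mk₀_bijective X.obj Y.obj).1 h
    exact congrArg ModuleCat.Hom.hom this
  · intro x
    obtain ⟨f, rfl⟩ := (Ext.mk₀_bijective X.obj Y.obj).2 x
    exact ⟨f.hom, rfl⟩

theorem ed_zero (X Y : FMod k A) : ed X Y 0 = hd X Y :=
  (LinearEquiv.ofBijective m0 m0_bijective).finrank_eq.symm

/-- Postcomposition on Ext. -/
noncomputable def post (W : FMod k A) {X Y : FMod k A} (f : X →ₗ[A] Y) (n : ℕ) :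
    EE W X n →ₗ[k] EE W Y n :=
  (m0 f).postcompOfLinear k W.obj (add_zero n)

/-- Precomposition on Ext. -/
noncomputable def pre (W : FMod k A) {X Y : FMod k A} (f : X →ₗ[A] Y) (n : ℕ) :
    EE Y W n →ₗ[k] EE X W n :=
  (m0 f).precompOfLinear k W.obj (zero_add n)

theorem post_apply (W : FMod k A) {X Y : FMod k A} (f : X →ₗ[A] Y) (n : ℕ) (x : EE W X n) :
    post W f n x = x.comp (Ext.mk₀ (ModuleCat.ofHom f)) (add_zero n) := rfl

theorem pre_apply (W : FMod k A) {X Y : FMod k A} (f : X →ₗ[A] Y) (n : ℕ) (x : EE Y W n) :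
    pre W f n x = (Ext.mk₀ (ModuleCat.ofHom f)).comp x (zero_add n) := rfl

theorem post_post (W : FMod k A) {X Y Z : FMod k A} (f : X →ₗ[A] Y) (g : Y →ₗ[A] Z) (n : ℕ)
    (x : EE W X n) : post W g n (post W f n x) = post W (g ∘ₗ f) n x := by
  simp only [post_apply, Ext.comp_assoc_of_second_deg_zero, Ext.mk₀_comp_mk₀]
  rfl

theorem pre_pre (W : FMod k A) {X Y Z : FMod k A} (f : X →ₗ[A] Y) (g : Y →ₗ[A] Z) (n : ℕ)
    (x : EE Z W n) : pre W f n (pre W g n x) = pre W (g ∘ₗ f) n x := by
  simp only [pre_apply, Ext.mk₀_comp_mk₀_assoc]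
  rfl

theorem post_id (W X : FMod k A) (n : ℕ) (x : EE W X n) : post W LinearMap.id n x = x := by
  rw [post_apply]
  exact Ext.comp_mk₀_id x

theorem pre_id (W X : FMod k A) (n : ℕ) (x : EE X W n) : pre W LinearMap.id n x = x := by
  rw [pre_apply]
  exact Ext.mk₀_id_comp x

theorem post_zero (W : FMod k A) {X Y : FMod k A} (n : ℕ) (x : EE W X n) :
    post W (0 : X →ₗ[A] Y) n x = 0 := by
  rw [post_apply]; simp

theorem pre_zero (W : FMod k A) {X Y : FMod k A} (n : ℕ) (x : EE Y W n) :
    pre W (0 : X →ₗ[A] Y) n x = 0 := by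
  rw [pre_apply]; simp

theorem post_m0 {W X Y : FMod k A} (u : W →ₗ[A] X) (f : X →ₗ[A] Y) :
    post W f 0 (m0 u) = m0 (f ∘ₗ u) := by
  rw [post_apply]
  exact Ext.mk₀_comp_mk₀ _ _

theorem pre_m0 {W X Y : FMod k A} (f : X →ₗ[A] Y) (u : Y →ₗ[A] W) :
    pre W f 0 (m0 u) = m0 (u ∘ₗ f) := by
  rw [pre_apply]
  exact Ext.mk₀_comp_mk₀ _ _

section les

variable {X Y Z : FMod k A} {f : X →ₗ[A] Y} {g : Y →ₗ[A] Z}

/-- Covariant connecting map. -/
noncomputable def SE.dco (h : SE f g) (W : FMod k A) (n : ℕ) : EE W Z n →ₗ[k] EE W X (n + 1) :=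
  h.se.extClass.postcompOfLinear k W.obj rfl

/-- Contravariant connecting map. -/
noncomputable def SE.dcon (h : SE f g) (W : FMod k A) (n : ℕ) : EE X W n →ₗ[k] EE Z W (n + 1) :=
  h.se.extClass.precompOfLinear k W.obj (add_comm 1 n)

theorem SE.co1 (h : SE f g) (W : FMod k A) (n : ℕ) :
    Function.Exact (h.dco W n) (post W f (n + 1)) :=
  (ShortComplex.ab_exact_iff_function_exact _).1
    (Ext.covariant_sequence_exact₁' W.obj h.se n (n + 1) rfl)

theorem SE.co2 (h : SE f g) (W : FMod k A) (n : ℕ) :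
    Function.Exact (post W f n) (post W g n) :=
  (ShortComplex.ab_exact_iff_function_exact _).1
    (Ext.covariant_sequence_exact₂' W.obj h.se n)

theorem SE.co3 (h : SE f g) (W : FMod k A) (n : ℕ) :
    Function.Exact (post W g n) (h.dco W n) :=
  (ShortComplex.ab_exact_iff_function_exact _).1
    (Ext.covariant_sequence_exact₃' W.obj h.se n (n + 1) rfl)

theorem SE.con1 (h : SE f g) (W : FMod k A) (n : ℕ) :
    Function.Exact (pre W f n) (h.dcon W n) :=
  (ShortComplex.ab_exact_iff_function_exact _).1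
    (Ext.contravariant_sequence_exact₁' h.se W.obj n (n + 1) (add_comm 1 n))

theorem SE.con2 (h : SE f g) (W : FMod k A) (n : ℕ) :
    Function.Exact (pre W g n) (pre W f n) :=
  (ShortComplex.ab_exact_iff_function_exact _).1
    (Ext.contravariant_sequence_exact₂' h.se W.obj n)

theorem SE.con3 (h : SE f g) (W : FMod k A) (n : ℕ) :
    Function.Exact (h.dcon W n) (pre W g (n + 1)) :=
  (ShortComplex.ab_exact_iff_function_exact _).1
    (Ext.contravariant_sequence_exact₃' h.se W.obj n (n + 1) (add_comm 1 n))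

end les

theorem sub_of_inj (W X : FMod k A) [Module.Injective A X] (n : ℕ) :
    Subsingleton (EE W X (n + 1)) := by
  have : CategoryTheory.Injective X.obj := Module.injective_object_of_injective_module A X
  exact Ext.subsingleton_of_injective _ _ _

theorem sub_of_proj (X W : FMod k A) [Module.Projective A X] (n : ℕ) :
    Subsingleton (EE X W (n + 1)) := by
  have : CategoryTheory.Projective X.obj := (IsProjective.iff_projective (R := A) X).1 inferInstance
  exact Ext.subsingleton_of_projective _ _ _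

end Pool.Agent.P.MP_b7bea3_al
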