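import Pool.Agent.P.MP_b7bea3_al.Morita

/-! A self-injective algebra with a cluster tilting module has bounded Ext dimensions. -/

open Module MulOpposite

namespace Pool.Agent.P.MP_b7bea3_al

variable {k A : Type} [Field k] [Ring A] [Algebra k A]

instance (X : FMod k A) : IsArtinian A X := isArtinian_of_tower k inferInstance

instance (X : FMod k A) : IsNoetherian A X := isNoetherian_of_tower k inferInstance

theorem finrank_sub_lt (X : FMod k A) {N : Submodule A X} (h : N ≠ ⊤) :
    finrank k N < finrank k X :=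
  Submodule.finrank_lt (s := N.restrictScalars k) (fun h' => h (by simpa using h'))

theorem SE.finrank_eq {X Y Z : FMod k A} {f : X →ₗ[A] Y} {g : Y →ₗ[A] Z} (h : SE f g) :
    finrank k Y = finrank k X + finrank k Z := by
  have h1 := LinearMap.finrank_range_add_finrank_ker (g.restrictScalars k)
  have h2 : LinearMap.ker (g.restrictScalars k) = LinearMap.range (f.restrictScalars k) :=
    LinearMap.exact_iff.1 h.ex
  rw [h2, LinearMap.finrank_range_of_inj (f := f.restrictScalars k) h.inj,
    (LinearMap.range_eq_top (f := g.restrictScalars k)).2 h.surj, finrank_top] at h1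
  omega

/-- Indecomposable or zero. -/
def Indec (Y : FMod k A) : Prop := ∀ N N' : Submodule A Y, IsCompl N N' → N = ⊥ ∨ N' = ⊥

theorem Indec.unit_or_nilp {Y : FMod k A} (h : Indec Y) (u : Module.End A Y) :
    IsUnit u ∨ IsNilpotent u := by
  obtain ⟨n, hn⟩ := Filter.eventually_atTop.1 (LinearMap.eventually_isCompl_ker_pow_range_pow u)
  rcases h _ _ (hn (n + 1) (Nat.le_succ n)) with h1 | h1
  · left
    have hi : Function.Injective u := by
      have := LinearMap.ker_eq_bot.1 h1
      rw [pow_succ] at this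
      exact Function.Injective.of_comp (f := (u ^ n : Module.End A Y)) this
    exact (Module.End.isUnit_iff u).2 (IsArtinian.bijective_of_injective_endomorphism u hi)
  · exact Or.inr ⟨n + 1, LinearMap.range_eq_bot.1 h1⟩

theorem Indec.exists_unit {Y : FMod k A} [Nontrivial Y] (h : Indec Y) {ι : Type} (s : Finset ι)
    (u : ι → Module.End A Y) (hu : IsUnit (∑ i ∈ s, u i)) : ∃ i, IsUnit (u i) := by
  classical
  induction s using Finset.induction_on with
  | empty => simp at hu
  | insert a s ha ih =>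
    rw [Finset.sum_insert ha] at hu
    obtain ⟨v, hv⟩ := hu
    rcases h.unit_or_nilp (v⁻¹ * u a : Module.End A Y) with h1 | h1
    · exact ⟨a, by simpa using h1⟩
    · apply ih
      have h2 := h1.isUnit_one_sub
      have h3 : (1 : Module.End A Y) - ↑v⁻¹ * u a = ↑v⁻¹ * ∑ i ∈ s, u i := by
        rw [sub_eq_iff_eq_add, ← mul_add, add_comm, ← hv, Units.inv_mul]
      rw [h3] at h2
      simpa using h2

theorem Indec.retract {M Y : FMod k A} [Nontrivial Y] (h : Indec Y) (hY : InAdd M Y) :
    ∃ (i : Y →ₗ[A] M) (r : M →ₗ[A] Y), r ∘ₗ i = LinearMap.id := by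
  obtain ⟨n, f, g, hfg⟩ := hY
  let p : Fin n → (M.pi n →ₗ[A] M) := fun l => LinearMap.proj l
  let q : Fin n → (M →ₗ[A] M.pi n) := fun l => LinearMap.single A (fun _ => M) l
  obtain ⟨l, v, hv⟩ := h.exists_unit Finset.univ (fun l => (g ∘ₗ q l) ∘ₗ (p l ∘ₗ f)) (by
    convert isUnit_one
    ext y
    have := LinearMap.congr_fun hfg y
    simp only [LinearMap.comp_apply, LinearMap.id_apply] at this
    simp only [LinearMap.sum_apply, LinearMap.comp_apply, ← map_sum, Module.End.one_apply]
    rw [← this]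
    congr 1
    rw [this]
    exact Finset.univ_sum_single (f y))
  refine ⟨p l ∘ₗ f, (↑v⁻¹ : Module.End A Y) ∘ₗ (g ∘ₗ q l), ?_⟩
  rw [LinearMap.comp_assoc, ← hv]
  exact v.inv_mul

variable [FiniteDimensional k A]

theorem ed_le_mul (M W T : FMod k A) (n : ℕ) (Y : FMod k A) (hY : InAdd M Y)
    (H : ∀ (Y₀ : FMod k A) (i : Y₀ →ₗ[A] Y) (r : Y →ₗ[A] Y₀), r ∘ₗ i = LinearMap.id →
      ed W Y₀ 1 = 0 → Module.Injective A Y₀) :
    ed T Y (n + 1) ≤ ed W Y 1 * ed T M (n + 1) := by
  induction hm : finrank k Y using Nat.strong_induction_on generalizing Y with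
  | _ m ih =>
  by_cases hI : Indec Y
  · by_cases h0 : ed W Y 1 = 0
    · have := H Y LinearMap.id LinearMap.id rfl h0
      rw [ed_of_inj]
      exact Nat.zero_le _
    have : Nontrivial Y := by
      by_contra hT
      have := not_nontrivial_iff_subsingleton.1 hT
      exact h0 (ed_of_subsingleton_co _ _ _)
    obtain ⟨i, r, hr⟩ := hI.retract hY
    exact (ed_le_of_retract_co T i r hr _).trans (Nat.le_mul_of_pos_left _ (Nat.pos_of_ne_zero h0))
  · simp only [Indec, not_forall, not_or] at hI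
    obtain ⟨N, N', hc, hN, hN'⟩ := hI
    have hs : SE (X := Y.sub N) (Y := Y) (Z := Y.sub N') N.subtype (N'.projectionOnto N hc.symm) :=
      ⟨N.subtype_injective, fun y => by
        rw [Submodule.projectionOnto_apply_eq_zero_iff]
        simp, Submodule.projectionOnto_surjective _⟩
    have r1 := Submodule.projectionOnto_comp_subtype hc
    have r2 := Submodule.projectionOnto_comp_subtype hc.symm
    have l1 : finrank k (Y.sub N) < m := hm ▸ finrank_sub_lt Y fun h => hN' (by
      subst h; exact eq_bot_of_top_isCompl hc)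
    have l2 : finrank k (Y.sub N') < m := hm ▸ finrank_sub_lt Y fun h => hN (by
      subst h; exact eq_bot_of_isCompl_top hc)
    have i1 := ih _ l1 (Y.sub N) (hY.of_retract (X := Y.sub N) _ _ r1)
      (fun Y₀ i r hr => H Y₀ (N.subtype ∘ₗ i) (r ∘ₗ N.projectionOnto N' hc) (by
        rw [LinearMap.comp_assoc, ← LinearMap.comp_assoc i, r1, LinearMap.id_comp, hr])) rfl
    have i2 := ih _ l2 (Y.sub N') (hY.of_retract (X := Y.sub N') _ _ r2)
      (fun Y₀ i r hr => H Y₀ (N'.subtype ∘ₗ i) (r ∘ₗ N'.projectionOnto N hc.symm) (by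
        rw [LinearMap.comp_assoc, ← LinearMap.comp_assoc i, r2, LinearMap.id_comp, hr])) rfl
    have a1 := hs.le_co2 T (n + 1)
    have a2 := hs.add_le_of_split (N.projectionOnto N' hc) r1 N'.subtype r2 W 1
    calc ed T Y (n + 1) ≤ (ed W (Y.sub N) 1 + ed W (Y.sub N') 1) * ed T M (n + 1) := by
          rw [add_mul]; omega
      _ ≤ _ := Nat.mul_le_mul_right _ a2

theorem ed_le_s_mul (M T : FMod k A) (n : ℕ) (Y : FMod k A) (hY : InAdd M Y) :
    ed T Y (n + 1) ≤ ed (co Y) Y 1 * ed T M (n + 1) := by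
  refine ed_le_mul M (co Y) T n Y hY fun Y₀ i r hr h0 => ?_
  obtain ⟨v, hv⟩ := (se_co Y).extend h0 r
  refine injective_of_retract (coI Y ∘ₗ i) v ?_
  rw [← LinearMap.comp_assoc, hv, hr]

theorem ed_le_of_sm {Y : FMod k A} {n C : ℕ} (H : ∀ T : FMod k A, Sm T → ed T Y n ≤ C)
    (X : FMod k A) : ed X Y n ≤ finrank k X * C := by
  induction hm : finrank k X using Nat.strong_induction_on generalizing X with
  | _ m ih =>
  by_cases hT : Subsingleton X
  · rw [ed_of_subsingleton_con]; exact Nat.zero_le _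
  have : Nontrivial X := not_subsingleton_iff_nontrivial.1 hT
  have hpos : 0 < m := hm ▸ Module.finrank_pos
  by_cases hS : Sm X
  · exact (H X hS).trans (Nat.le_mul_of_pos_left _ hpos)
  simp only [Sm, not_forall, not_or] at hS
  obtain ⟨N, h1, h2⟩ := hS
  have hs := se_sub X N
  have e := hs.finrank_eq
  have l1 : finrank k (X.sub N) < m := hm ▸ finrank_sub_lt X h2
  have : Nontrivial (X.sub N) := Submodule.nontrivial_iff_ne_bot.2 h1
  have p1 : 0 < finrank k (X.sub N) := Module.finrank_pos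
  have i1 := ih _ l1 (X.sub N) rfl
  have i2 := ih (finrank k (X.quot N)) (by omega) (X.quot N) rfl
  have a1 := hs.le_con2 Y n
  rw [← hm, e, add_mul]
  omega

theorem ed_succ_le (T M : FMod k A) (j : ℕ) :
    ed T M (j + 1) ≤ finrank k T * finrank k (co^[j + 1] M : FMod k A) := by
  rw [show j + 1 = 0 + 1 + j by ring, ed_co_iter, show 0 + 1 + j = j + 1 by ring,
    Function.iterate_succ_apply']
  have h1 := (se_co (co^[j] M)).le_co1 T 0
  rw [ed_of_inj T ((Om k A).pi _), ed_zero] at h1
  exact h1.trans (hd_le_mul _ _)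

omit [FiniteDimensional k A] in
theorem CT.ed_self {M : FMod k A} {d : ℕ} (h : CT M d) {i : ℕ} (h0 : 0 < i) (hi : i < d) :
    ed M M i = 0 := (h M).1.1 (InAdd.self M) i h0 hi

theorem CT.om {M : FMod k A} {d : ℕ} (h : CT M d) (X : FMod k A) [Module.Injective A X] :
    InAdd M X :=
  (h _).1.2 fun i h0 _ => by
    obtain ⟨j, rfl⟩ := Nat.exists_eq_succ_of_ne_zero h0.ne'
    exact ed_of_inj _ _ _

theorem CT.reg {M : FMod k A} {d : ℕ} (h : CT M d) (X : FMod k A) [Module.Projective A X] :
    InAdd M X :=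
  (h _).2.2 fun i h0 _ => by
    obtain ⟨j, rfl⟩ := Nat.exists_eq_succ_of_ne_zero h0.ne'
    exact ed_of_proj _ _ _

/-- The dimensions of `Ext^n(X, Y)` are bounded. -/
def Bdd (X Y : FMod k A) : Prop := ∃ C, ∀ n, ed X Y n ≤ C

theorem exists_approx {M : FMod k A} {d : ℕ} (h : CT M d) (Y : FMod k A) :
    ∃ (m : ℕ) (f : Y →ₗ[A] M.pi m), Function.Injective f ∧
      ∀ u : Y →ₗ[A] M, ∃ v : M.pi m →ₗ[A] M, v ∘ₗ f = u := by
  let b := Module.finBasis k (Y →ₗ[A] M)
  have H : ∀ u : Y →ₗ[A] M, ∃ v : M.pi (finrank k (Y →ₗ[A] M)) →ₗ[A] M,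
      v ∘ₗ (LinearMap.pi fun i => b i) = u := fun u => by
    refine ⟨∑ i, b.repr u i • LinearMap.proj i, ?_⟩
    ext y
    have := LinearMap.congr_fun (b.sum_repr u) y
    rw [LinearMap.sum_apply] at this
    simpa using this
  refine ⟨_, LinearMap.pi fun i => b i, ?_, H⟩
  obtain ⟨c, u, hu⟩ := exists_embed Y
  obtain ⟨n, f, g, hfg⟩ := h.om ((Om k A).pi c)
  rw [← LinearMap.ker_eq_bot, LinearMap.ker_eq_bot']
  intro y hy
  have h1 : f (u y) = 0 := by
    funext l
    obtain ⟨v, hv⟩ := H ((LinearMap.proj l : M.pi n →ₗ[A] M) ∘ₗ f ∘ₗ u)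
    have := LinearMap.congr_fun hv y
    rw [LinearMap.comp_apply] at this
    erw [hy] at this
    rw [map_zero] at this
    exact this.symm
  have h2 := LinearMap.congr_fun hfg (u y)
  rw [LinearMap.comp_apply, h1, map_zero] at h2
  exact hu (by rw [map_zero]; exact h2.symm)

theorem bdd_of_ct {M : FMod k A} {d : ℕ} (h : CT M d) (X : FMod k A) (hX : Bdd X M)
    (Y : FMod k A) : Bdd X Y := by
  obtain ⟨C, hC⟩ := hX
  have hadd : ∀ Y : FMod k A, InAdd M Y → Bdd X Y := by
    rintro Y ⟨m, f, g, hfg⟩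
    exact ⟨m * C, fun n => (ed_le_of_retract_co X f g hfg n).trans
      ((ed_pi_co X M m n).trans (Nat.mul_le_mul_left _ (hC n)))⟩
  have key : ∀ j, ∀ Y : FMod k A, (∀ i, 0 < i → i + j < d → ed Y M i = 0) → Bdd X Y := by
    intro j
    induction j with
    | zero => exact fun Y hY => hadd Y ((h Y).2.2 hY)
    | succ j ih =>
      intro Y hY
      obtain ⟨m, f, hf, H⟩ := exists_approx h Y
      have hs := se_coker f hf
      have hpi : ∀ i, 0 < i → i < d → ed (M.pi m) M i = 0 := fun i h0 hi => by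
        have := ed_pi_con M M m i
        rw [h.ed_self h0 hi] at this
        omega
      obtain ⟨C', hC'⟩ := ih ((M.pi m).quot (LinearMap.range f)) (fun i h0 hi => by
        obtain ⟨i, rfl⟩ := Nat.exists_eq_succ_of_ne_zero h0.ne'
        rcases Nat.eq_zero_or_pos i with rfl | hi0
        · exact hs.ed_one_eq_zero_of_extend (hpi 1 one_pos (by omega)) H
        · have := hs.le_con3 M i
          rw [hY i hi0 (by omega), hpi (i + 1) (by omega) (by omega)] at this
          exact Nat.le_zero.1 this)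
      refine ⟨ed X Y 0 + (C' + m * C), fun n => ?_⟩
      rcases n with _ | n
      · omega
      · have h1 := hs.le_co1 X n
        have h2 := hC' n
        have h3 := (ed_pi_co X M m (n + 1)).trans (Nat.mul_le_mul_left m (hC (n + 1)))
        omega
  exact key d Y fun i h0 hi => by omega

section selfinj

variable [Module.Projective A (OmT k A)] [Module.Injective A A]

omit [Module.Injective A A] in
theorem CT.G {M : FMod k A} {d : ℕ} (h : CT M d) {Y : FMod k A} (hY : InAdd M Y) :
    InAdd M (Phi (co^[d + 1] Y)) := by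
  refine (h _).2.2 fun i h0 hi => ?_
  obtain ⟨i, rfl⟩ := Nat.exists_eq_succ_of_ne_zero h0.ne'
  obtain ⟨j, rfl⟩ : ∃ j, d = i + j + 2 := ⟨d - i - 2, by omega⟩
  rw [ar_gen]
  exact (h Y).1.1 hY _ (by omega) (by omega)

omit [Module.Injective A A] in
theorem s_co (Y : FMod k A) : ed (co (co Y)) (co Y) 1 = ed (co Y) Y 1 := by
  rw [show (1 : ℕ) = 0 + 1 from rfl, ← ed_co, (se_co (co Y)).shift_con]

omit [Module.Injective A A] in
theorem s_co_iter (Y : FMod k A) (j : ℕ) :
    ed (co (co^[j] Y)) (co^[j] Y) 1 = ed (co Y) Y 1 := by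
  induction j with
  | zero => rfl
  | succ j ih => rw [Function.iterate_succ_apply', s_co, ih]

theorem s_phi (Y : FMod k A) : ed (co (Phi Y)) (Phi Y) 1 = ed (co Y) Y 1 := by
  rw [ed_cosyz_indep (se_co (Phi Y)) (se_phi (se_co Y))]
  exact ed_phi _ _ 0

theorem bdd_ct_self {M : FMod k A} {d : ℕ} (h : CT M d) (X : FMod k A) : Bdd X M := by
  let C := ∑ j ∈ Finset.range (d + 1), finrank k A * finrank k (co^[j + 1] M : FMod k A)
  have key : ∀ t j, j ≤ d → ∀ T Y : FMod k A, Sm T → InAdd M Y →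
      ed T Y (t * (d + 1) + j + 1) ≤ ed (co Y) Y 1 * C := by
    intro t j hj
    induction t with
    | zero =>
      intro T Y hT hY
      refine (ed_le_s_mul M T _ Y hY).trans (Nat.mul_le_mul_left _ ?_)
      rw [zero_mul, zero_add]
      refine (ed_succ_le T M j).trans ((Nat.mul_le_mul_right _ hT.finrank_le).trans ?_)
      exact Finset.single_le_sum
        (f := fun j => finrank k A * finrank k (co^[j + 1] M : FMod k A))
        (fun _ _ => Nat.zero_le _) (Finset.mem_range.2 (Nat.lt_succ_of_le hj))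
    | succ t ih =>
      intro T Y hT hY
      rw [show (t + 1) * (d + 1) + j + 1 = (t * (d + 1) + j) + 1 + (d + 1) by ring, ed_co_iter,
        ← ed_phi]
      refine (ih _ _ hT.phi (h.G hY)).trans ?_
      rw [s_phi, s_co_iter]
  refine ⟨ed X M 0 + finrank k X * (ed (co M) M 1 * C), fun n => ?_⟩
  rcases n with _ | n
  · omega
  refine le_trans ?_ (Nat.le_add_left _ _)
  refine ed_le_of_sm (fun T hT => ?_) X
  have := key (n / (d + 1)) (n % (d + 1)) (Nat.le_of_lt_succ (Nat.mod_lt _ (Nat.succ_pos d))) T M hT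
    (InAdd.self M)
  rwa [Nat.div_add_mod'] at this

theorem bdd_all {M : FMod k A} {d : ℕ} (h : CT M d) (X Y : FMod k A) : Bdd X Y :=
  bdd_of_ct h X (bdd_ct_self h X) Y

end selfinj

end Pool.Agent.P.MP_b7bea3_al
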