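import Mathlib

/-! Rigid points of an irreducible family of representations are generically isomorphic. -/

open Matrix

namespace Pool.Agent.P.MP_b7bea3_al

variable {k : Type} [Field k]

theorem exists_homotopy {U V W : Type} [AddCommGroup U] [AddCommGroup V] [AddCommGroup W]
    [Module k U] [Module k V] [Module k W] (a0 : U →ₗ[k] V) (a1 : V →ₗ[k] W)
    (h : LinearMap.ker a1 = LinearMap.range a0) :
    ∃ (h1 : V →ₗ[k] U) (h2 : W →ₗ[k] V), a0 ∘ₗ h1 + h2 ∘ₗ a1 = LinearMap.id ∧ h1 ∘ₗ h2 = 0 := by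
  obtain ⟨C, hC⟩ := (LinearMap.range a0).exists_isCompl
  obtain ⟨s, hs⟩ := a0.rangeRestrict.exists_rightInverse_of_surjective a0.range_rangeRestrict
  obtain ⟨t, ht⟩ := (a1 ∘ₗ C.subtype).exists_leftInverse_of_injective (by
    rw [LinearMap.ker_comp, h, ← Submodule.disjoint_iff_comap_eq_bot]
    exact hC.symm.disjoint)
  refine ⟨s ∘ₗ (LinearMap.range a0).projectionOnto C hC, C.subtype ∘ₗ t, ?_, ?_⟩
  · ext v
    obtain ⟨p, q, rfl, -⟩ := Submodule.existsUnique_add_of_isCompl hC v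
    have e1 : a0 (s p) = p := congrArg Subtype.val (LinearMap.congr_fun hs p)
    have e2 : t (a1 q) = q := LinearMap.congr_fun ht q
    have e3 : a1 p = 0 := by rw [← LinearMap.mem_ker, h]; exact p.2
    simp [e1, e2, e3]
  · ext w
    simp

theorem lift_kernel {D : Type} [CommRing D] [IsDomain D] [Algebra k D] (x : D →ₐ[k] k)
    {α0 α1 α2 : Type} [Fintype α0] [Fintype α1] [Fintype α2]
    (d0 : (α0 → D) →ₗ[D] (α1 → D)) (d1 : (α1 → D) →ₗ[D] (α2 → D)) (hd : ∀ v, d1 (d0 v) = 0)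
    (a0 : (α0 → k) →ₗ[k] (α1 → k)) (a1 : (α1 → k) →ₗ[k] (α2 → k))
    (h0 : ∀ v, x ∘ d0 v = a0 (x ∘ v)) (h1 : ∀ v, x ∘ d1 v = a1 (x ∘ v))
    (hex : ∀ v, a1 v = 0 → ∃ u, a0 u = v) (z0 : α0 → k) (hz : a0 z0 = 0) :
    ∃ z : α0 → D, d0 z = 0 ∧ x ∘ z = z0 := by
  classical
  have hx : ∀ {α : Type} (v : α → k), x ∘ (algebraMap k D ∘ v) = v := fun v => by
    funext i; simp
  have hker : LinearMap.ker a1 = LinearMap.range a0 := by
    ext v
    refine ⟨hex v, ?_⟩
    rintro ⟨u, rfl⟩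
    rw [LinearMap.mem_ker, ← hx u, ← h0, ← h1, hd]
    funext i; simp
  obtain ⟨g1, g2, hg, hg'⟩ := exists_homotopy a0 a1 hker
  let M0 := LinearMap.toMatrix' d0
  let M1 := LinearMap.toMatrix' d1
  let H1 : Matrix α0 α1 D := (LinearMap.toMatrix' g1).map (algebraMap k D)
  let H2 : Matrix α1 α2 D := (LinearMap.toMatrix' g2).map (algebraMap k D)
  have hsingle : ∀ {α : Type} [DecidableEq α] (j : α),
      x ∘ (Pi.single j (1 : D) : α → D) = Pi.single j (1 : k) := fun j => by
    funext i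
    by_cases hij : i = j
    · subst hij; simp
    · simp [Pi.single_eq_of_ne hij]
  have e0 : M0.map x = LinearMap.toMatrix' a0 := by
    ext i j
    have := congrFun (h0 (Pi.single j 1)) i
    rw [hsingle] at this
    simpa [M0] using this
  have e1 : M1.map x = LinearMap.toMatrix' a1 := by
    ext i j
    have := congrFun (h1 (Pi.single j 1)) i
    rw [hsingle] at this
    simpa [M1] using this
  have eH1 : H1.map x = LinearMap.toMatrix' g1 := by ext i j; simp [H1]
  have eH2 : H2.map x = LinearMap.toMatrix' g2 := by ext i j; simp [H2]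
  have hM : M1 * M0 = 0 := by
    rw [← LinearMap.toMatrix'_comp, show d1 ∘ₗ d0 = 0 from LinearMap.ext hd, map_zero]
  have hH : H1 * H2 = 0 := by
    rw [← Matrix.map_mul, ← LinearMap.toMatrix'_comp, hg', map_zero]
    ext i j; simp
  let U : Matrix α1 α1 D := M0 * H1 + H2 * M1
  have hU : x.mapMatrix U = 1 := by
    simp only [U, map_add, AlgHom.mapMatrix_apply]
    rw [show (M0 * H1).map x = M0.map x * H1.map x from Matrix.map_mul (f := (x : D →+* k)),
      show (H2 * M1).map x = H2.map x * M1.map x from Matrix.map_mul (f := (x : D →+* k)),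
      e0, e1, eH1, eH2, ← LinearMap.toMatrix'_comp, ← LinearMap.toMatrix'_comp, ← map_add, hg,
      LinearMap.toMatrix'_id]
  have hdet : x U.det = 1 := by rw [AlgHom.map_det, hU, det_one]
  have hdet0 : U.det ≠ 0 := fun h => by simp [h] at hdet
  let z0' : α0 → D := algebraMap k D ∘ z0
  let y := M0 *ᵥ z0'
  let y' := U.adjugate *ᵥ y
  have hy : M1 *ᵥ y = 0 := by rw [mulVec_mulVec, hM, zero_mulVec]
  have hy' : U *ᵥ y' = U.det • y := by
    rw [mulVec_mulVec, mul_adjugate, smul_mulVec, one_mulVec]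
  have hv : H2 *ᵥ (M1 *ᵥ y') = 0 := by
    have h2 : M1 *ᵥ (H2 *ᵥ (M1 *ᵥ y')) = 0 := by
      have : M1 * (H2 * M1) = M1 * U := by
        rw [Matrix.mul_add, ← Matrix.mul_assoc M1 M0, hM, Matrix.zero_mul, zero_add]
      rw [mulVec_mulVec y', mulVec_mulVec y', this, ← mulVec_mulVec, hy', mulVec_smul, hy,
        smul_zero]
    have h3 : U *ᵥ (H2 *ᵥ (M1 *ᵥ y')) = 0 := by
      rw [add_mulVec, ← mulVec_mulVec _ H2 M1, h2, mulVec_zero, add_zero, mulVec_mulVec,
        Matrix.mul_assoc, hH, Matrix.mul_zero, zero_mulVec]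
    exact Matrix.eq_zero_of_mulVec_eq_zero hdet0 h3
  refine ⟨U.det • z0' - H1 *ᵥ y', ?_, ?_⟩
  · rw [← LinearMap.toMatrix'_mulVec]
    change M0 *ᵥ _ = 0
    rw [mulVec_sub, mulVec_smul, ← hy', add_mulVec, ← mulVec_mulVec _ H2 M1, hv, add_zero,
      ← mulVec_mulVec y' M0 H1, sub_self]
  · have hxy : x ∘ y = 0 := by
      simp only [y, M0, LinearMap.toMatrix'_mulVec, h0, z0', hx, hz]
    have hxy' : x ∘ y' = 0 := by
      funext i
      simp only [y', mulVec, dotProduct, Function.comp_apply, map_sum, map_mul]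
      exact Finset.sum_eq_zero fun j _ => by rw [show x (y j) = 0 from congrFun hxy j, mul_zero]
    funext i
    simp only [Function.comp_apply, Pi.sub_apply, Pi.smul_apply, smul_eq_mul, map_sub, map_mul,
      hdet, one_mul, z0', AlgHom.commutes, Algebra.algebraMap_self, RingHom.id_apply, mulVec,
      dotProduct, map_sum]
    rw [Finset.sum_eq_zero fun j _ => by rw [show x (y' j) = 0 from congrFun hxy' j, mul_zero],
      sub_zero]

section rep

variable {κ ι : Type} [Fintype κ] [Fintype ι] [DecidableEq ι]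

/-- Multiplicativity with respect to structure constants. -/
def Mult {D : Type} [CommRing D] [Algebra k D] (m : κ → κ → κ → k) (θ : κ → Matrix ι ι D) :
    Prop := ∀ α β, θ α * θ β = ∑ γ, m α β γ • θ γ

/-- Every cocycle is a coboundary. -/
def Rigid (m : κ → κ → κ → k) (θ : κ → Matrix ι ι k) : Prop :=
  ∀ c : κ → Matrix ι ι k, (∀ α β, θ α * c β + c α * θ β = ∑ γ, m α β γ • c γ) →
    ∃ z, ∀ α, c α = θ α * z - z * θ α

/-- First differential. -/
def dd0 {D : Type} [CommRing D] (Θ θ : κ → Matrix ι ι D) :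
    (ι × ι → D) →ₗ[D] (κ × ι × ι → D) where
  toFun v p := (Θ p.1 * Matrix.of (fun i j => v (i, j)) -
    Matrix.of (fun i j => v (i, j)) * θ p.1) p.2.1 p.2.2
  map_add' u v := by
    funext p
    simp [Matrix.mul_apply, mul_add, add_mul, Finset.sum_add_distrib]
    ring
  map_smul' c v := by
    funext p
    simp only [Matrix.sub_apply, Matrix.mul_apply, of_apply, Pi.smul_apply, smul_eq_mul,
      RingHom.id_apply, mul_sub, Finset.mul_sum]
    congr 1 <;> exact Finset.sum_congr rfl fun _ _ => by ring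

/-- Second differential. -/
def dd1 {D : Type} [CommRing D] [Algebra k D] (m : κ → κ → κ → k) (Θ θ : κ → Matrix ι ι D) :
    (κ × ι × ι → D) →ₗ[D] (κ × κ × ι × ι → D) where
  toFun c p := (Θ p.1 * Matrix.of (fun i j => c (p.2.1, i, j)) +
    Matrix.of (fun i j => c (p.1, i, j)) * θ p.2.1 -
    ∑ γ, m p.1 p.2.1 γ • Matrix.of (fun i j => c (γ, i, j))) p.2.2.1 p.2.2.2
  map_add' u v := by
    funext p
    simp [Matrix.mul_apply, Matrix.sum_apply, mul_add, add_mul, Finset.sum_add_distrib]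
    ring
  map_smul' c v := by
    funext p
    simp only [Matrix.sub_apply, Matrix.add_apply, Matrix.sum_apply, Matrix.smul_apply,
      Matrix.mul_apply, of_apply, Pi.smul_apply, smul_eq_mul,
      RingHom.id_apply, mul_sub, mul_add, Finset.mul_sum, Algebra.mul_smul_comm]
    congr 1
    congr 1 <;> exact Finset.sum_congr rfl fun _ _ => by ring

theorem exists_intertwiner {D : Type} [CommRing D] [IsDomain D] [Algebra k D] (x : D →ₐ[k] k)
    (m : κ → κ → κ → k) (Θ : κ → Matrix ι ι D) (hΘ : Mult m Θ) (θ : κ → Matrix ι ι k)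
    (hθ : ∀ α, (Θ α).map x = θ α) (hr : Rigid m θ) :
    ∃ z : Matrix ι ι D, (∀ α, Θ α * z = z * (θ α).map (algebraMap k D)) ∧ z.det ≠ 0 := by
  let θ' : κ → Matrix ι ι D := fun α => (θ α).map (algebraMap k D)
  have hxθ : ∀ α i j, x (Θ α i j) = θ α i j := fun α i j => by rw [← hθ]; rfl
  have hθ' : Mult m θ' := fun α β => by
    have h1 := congrArg (fun M => (Algebra.ofId k D).mapMatrix (x.mapMatrix M)) (hΘ α β)
    simp only [map_mul, map_sum, map_smul, AlgHom.mapMatrix_apply, hθ] at h1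
    exact h1
  refine (lift_kernel x (dd0 Θ θ') (dd1 m Θ θ') (fun v => ?_) (dd0 θ θ) (dd1 m θ θ)
    (fun v => ?_) (fun v => ?_) (fun v hv => ?_) (fun p => (1 : Matrix ι ι k) p.1 p.2) ?_).elim ?_
  rotate_left 5
  · rintro z ⟨hz, hz'⟩
    refine ⟨Matrix.of fun i j => z (i, j), fun α => ?_, fun h => ?_⟩
    · rw [← sub_eq_zero]
      ext i j
      exact congrFun hz (α, i, j)
    · have h1 : x.mapMatrix (Matrix.of fun i j => z (i, j)) = 1 := by
        ext i j
        exact congrFun hz' (i, j)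
      have h2 := AlgHom.map_det x (Matrix.of fun i j => z (i, j))
      rw [h, h1] at h2
      simp at h2
  · funext p
    set Z : Matrix ι ι D := Matrix.of fun i j => v (i, j) with hZ
    have e : ∀ γ, (Matrix.of fun i j => dd0 Θ θ' v (γ, i, j)) = Θ γ * Z - Z * θ' γ := fun γ => rfl
    change (Θ p.1 * (Matrix.of fun i j => dd0 Θ θ' v (p.2.1, i, j)) +
      (Matrix.of fun i j => dd0 Θ θ' v (p.1, i, j)) * θ' p.2.1 -
      ∑ γ, m p.1 p.2.1 γ • (Matrix.of fun i j => dd0 Θ θ' v (γ, i, j))) p.2.2.1 p.2.2.2 = 0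
    simp only [e]
    have : Θ p.1 * (Θ p.2.1 * Z - Z * θ' p.2.1) + (Θ p.1 * Z - Z * θ' p.1) * θ' p.2.1 -
        ∑ γ, m p.1 p.2.1 γ • (Θ γ * Z - Z * θ' γ) = 0 := by
      have h1 : ∑ γ, m p.1 p.2.1 γ • (Θ γ * Z - Z * θ' γ) =
          Θ p.1 * Θ p.2.1 * Z - Z * (θ' p.1 * θ' p.2.1) := by
        rw [hΘ, hθ', Finset.sum_mul, Finset.mul_sum, ← Finset.sum_sub_distrib]
        exact Finset.sum_congr rfl fun γ _ => by simp [smul_sub]
      rw [h1]
      noncomm_ring
    rw [this]
    rfl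
  · funext p
    simp [dd0, Matrix.mul_apply, hxθ, θ']
  · funext p
    simp [dd1, Matrix.mul_apply, Matrix.sum_apply, hxθ, θ']
  · obtain ⟨z, hz⟩ := hr (fun α => Matrix.of fun i j => v (α, i, j)) (fun α β => by
      rw [← sub_eq_zero]
      ext i j
      exact congrFun hv (α, β, i, j))
    refine ⟨fun p => z p.1 p.2, funext fun p => ?_⟩
    exact (congrFun (congrFun (hz p.1) p.2.1) p.2.2).symm
  · funext p
    change (θ p.1 * 1 - 1 * θ p.1 : Matrix ι ι k) p.2.1 p.2.2 = 0
    simp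

omit [Fintype κ] [DecidableEq ι] in
theorem mem_span_of_intertwine {D : Type} [CommRing D] [Algebra k D] (θ θ' : κ → Matrix ι ι k)
    (z : Matrix ι ι D)
    (hz : ∀ α, (θ' α).map (algebraMap k D) * z = z * (θ α).map (algebraMap k D)) :
    z ∈ Submodule.span D {p : Matrix ι ι D | ∃ φ : Matrix ι ι k,
      (∀ α, θ' α * φ = φ * θ α) ∧ p = φ.map (algebraMap k D)} := by
  classical
  let b := Module.Basis.ofVectorSpace k D
  let S := (Finset.univ : Finset (ι × ι)).biUnion fun p => (b.repr (z p.1 p.2)).support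
  have hzs : z = ∑ s ∈ S, b s • (z.map (b.coord s)).map (algebraMap k D) := by
    ext i j
    rw [Matrix.sum_apply]
    conv_lhs => rw [← b.linearCombination_repr (z i j), Finsupp.linearCombination_apply,
      Finsupp.sum_of_support_subset _ (s := S)
        (Finset.subset_biUnion_of_mem (fun p : ι × ι => (b.repr (z p.1 p.2)).support)
          (Finset.mem_univ (i, j))) _ (by simp)]
    exact Finset.sum_congr rfl fun s _ => by simp [Algebra.smul_def, mul_comm]
  rw [hzs]
  refine Submodule.sum_mem _ fun s _ => Submodule.smul_mem _ _ (Submodule.subset_span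
    ⟨_, fun α => ?_, rfl⟩)
  ext i j
  have := congrArg (b.coord s) (congrFun (congrFun (hz α) i) j)
  simp only [Matrix.mul_apply, map_apply, map_sum] at this ⊢
  simp only [← Algebra.smul_def, map_smul, smul_eq_mul] at this
  rw [this]
  exact Finset.sum_congr rfl fun l _ => by
    rw [mul_comm (z i l), ← Algebra.smul_def, map_smul, smul_eq_mul, mul_comm]

theorem one_mem_span {D : Type} [CommRing D] [IsDomain D] [Algebra k D] (x y : D →ₐ[k] k)
    (m : κ → κ → κ → k) (Θ : κ → Matrix ι ι D) (hΘ : Mult m Θ) (θ θ' : κ → Matrix ι ι k)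
    (hθ : ∀ α, (Θ α).map x = θ α) (hθ' : ∀ α, (Θ α).map y = θ' α) (hr : Rigid m θ)
    (hr' : Rigid m θ') :
    (1 : Matrix ι ι k) ∈ Submodule.span k {p : Matrix ι ι k | ∃ φ ψ : Matrix ι ι k,
      (∀ α, θ' α * φ = φ * θ α) ∧ (∀ α, θ α * ψ = ψ * θ' α) ∧ p = φ * ψ} := by
  obtain ⟨z, hz, hd⟩ := exists_intertwiner x m Θ hΘ θ hθ hr
  obtain ⟨z', hz', hd'⟩ := exists_intertwiner y m Θ hΘ θ' hθ' hr'
  have adj : ∀ (z N N' : Matrix ι ι D), z.det ≠ 0 → N * z = z * N' →
      N' * z.adjugate = z.adjugate * N := fun z N N' h0 h => by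
    have h1 : z.det • (N' * z.adjugate) = z.det • (z.adjugate * N) := by
      calc z.det • (N' * z.adjugate) = z.adjugate * (z * N') * z.adjugate := by
            rw [← Matrix.mul_assoc, adjugate_mul]; simp
        _ = z.adjugate * N * (z * z.adjugate) := by rw [← h]; simp only [Matrix.mul_assoc]
        _ = _ := by rw [mul_adjugate]; simp
    exact smul_right_injective _ h0 h1
  have m1 := mem_span_of_intertwine θ θ' (z'.adjugate * z) fun α => by
    rw [← Matrix.mul_assoc, adj _ _ _ hd' (hz' α), Matrix.mul_assoc, hz, Matrix.mul_assoc]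
  have m2 := mem_span_of_intertwine θ' θ (z.adjugate * z') fun α => by
    rw [← Matrix.mul_assoc, adj _ _ _ hd (hz α), Matrix.mul_assoc, hz', Matrix.mul_assoc]
  have hδ : z.det * z'.det ≠ 0 := mul_ne_zero hd hd'
  obtain ⟨lam, hlam⟩ : ∃ lam : D →ₗ[k] k, lam (z.det * z'.det) = 1 := by
    obtain ⟨f, hf⟩ := (Module.Projective.exists_dual_eq_one k hδ)
    exact ⟨f, hf⟩
  have key : ∀ u ∈ Submodule.span D {p : Matrix ι ι D | ∃ φ : Matrix ι ι k,
      (∀ α, θ' α * φ = φ * θ α) ∧ p = φ.map (algebraMap k D)},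
      ∀ v ∈ Submodule.span D {p : Matrix ι ι D | ∃ φ : Matrix ι ι k,
      (∀ α, θ α * φ = φ * θ' α) ∧ p = φ.map (algebraMap k D)}, ∀ lam : D →ₗ[k] k,
      (u * v).map lam ∈ Submodule.span k {p : Matrix ι ι k | ∃ φ ψ : Matrix ι ι k,
      (∀ α, θ' α * φ = φ * θ α) ∧ (∀ α, θ α * ψ = ψ * θ' α) ∧ p = φ * ψ} := by
    intro u hu v hv
    induction hu, hv using Submodule.span_induction₂ with
    | mem_mem u v hu hv =>
      obtain ⟨φ, hφ, rfl⟩ := hu
      obtain ⟨ψ, hψ, rfl⟩ := hv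
      intro lam
      have : (φ.map (algebraMap k D) * ψ.map (algebraMap k D)).map lam = lam 1 • (φ * ψ) := by
        rw [← Matrix.map_mul]
        ext i j
        rw [map_apply, map_apply, Algebra.algebraMap_eq_smul_one, map_smul]
        simp [mul_comm]
      rw [this]
      exact Submodule.smul_mem _ _ (Submodule.subset_span ⟨φ, ψ, hφ, hψ, rfl⟩)
    | zero_left v hv => intro lam; rw [Matrix.zero_mul, Matrix.map_zero _ (map_zero _)]; simp
    | zero_right u hu => intro lam; rw [Matrix.mul_zero, Matrix.map_zero _ (map_zero _)]; simp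
    | add_left u u' v _ _ _ h1 h2 =>
      intro lam
      rw [Matrix.add_mul, Matrix.map_add _ (map_add _)]
      exact Submodule.add_mem _ (h1 lam) (h2 lam)
    | add_right u v v' _ _ _ h1 h2 =>
      intro lam
      rw [Matrix.mul_add, Matrix.map_add _ (map_add _)]
      exact Submodule.add_mem _ (h1 lam) (h2 lam)
    | smul_left c u v _ _ h =>
      intro lam
      rw [Matrix.smul_mul]
      exact h (lam ∘ₗ LinearMap.mulLeft k c)
    | smul_right c u v _ _ h =>
      intro lam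
      rw [Matrix.mul_smul]
      exact h (lam ∘ₗ LinearMap.mulLeft k c)
  have := key _ m1 _ m2 lam
  have e : z'.adjugate * z * (z.adjugate * z') = (z.det * z'.det) • (1 : Matrix ι ι D) := by
    rw [Matrix.mul_assoc, ← Matrix.mul_assoc z, mul_adjugate, Matrix.smul_mul, Matrix.one_mul,
      Matrix.mul_smul, adjugate_mul, smul_smul]
  rw [e] at this
  convert this using 1
  ext i j
  by_cases hij : i = j
  · subst hij; simp [hlam]
  · simp [Matrix.one_apply_ne hij]

end rep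

theorem exists_common_component {σ : Type} [Fintype σ] (w : ℕ → σ → k) :
    ∃ j j', j < j' ∧ ∃ 𝔭 : Ideal (MvPolynomial σ k), 𝔭.IsPrime ∧
      (∀ p, (∀ i, MvPolynomial.aeval (w i) p = 0) → p ∈ 𝔭) ∧
      (∀ p ∈ 𝔭, MvPolynomial.aeval (w j) p = 0) ∧ (∀ p ∈ 𝔭, MvPolynomial.aeval (w j') p = 0) := by
  let K : ℕ → Ideal (MvPolynomial σ k) := fun i => RingHom.ker (MvPolynomial.aeval (w i))
  have hK : ∀ i, (K i).IsPrime := fun i => RingHom.ker_isPrime _
  have hfin := Ideal.finite_minimalPrimes_of_isNoetherianRing (MvPolynomial σ k) (⨅ i, K i)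
  choose P hP hP' using fun i => Ideal.exists_minimalPrimes_le (I := ⨅ i, K i) (J := K i)
    (iInf_le K i)
  have := hfin.to_subtype
  obtain ⟨i, j, hij, h⟩ := Finite.exists_ne_map_eq_of_infinite
    (fun i => (⟨P i, hP i⟩ : (⨅ i, K i).minimalPrimes))
  have h' : P i = P j := congrArg Subtype.val h
  have hle : ∀ p, (∀ i, MvPolynomial.aeval (w i) p = 0) → p ∈ P i := fun p hp =>
    (hP i).1.2 (Ideal.mem_iInf.2 hp)
  rcases lt_or_gt_of_ne hij with hlt | hlt
  · exact ⟨i, j, hlt, P i, (hP i).1.1, hle, fun p hp => hP' i hp, fun p hp => hP' j (h' ▸ hp)⟩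
  · exact ⟨j, i, hlt, P i, (hP i).1.1, hle, fun p hp => hP' j (h' ▸ hp), fun p hp => hP' i hp⟩

theorem family {σ κ : Type} [Fintype σ] [Fintype κ] (m : κ → κ → κ → k) (w : ℕ → σ → k) :
    ∃ j j', j < j' ∧ ∀ (ι : Type) [Fintype ι] [DecidableEq ι] (T : κ → σ → Matrix ι ι k)
      (θ : ℕ → κ → Matrix ι ι k), (∀ i α, θ i α = ∑ s, w i s • T α s) → (∀ i, Mult m (θ i)) →
      Rigid m (θ j) → Rigid m (θ j') →
      (1 : Matrix ι ι k) ∈ Submodule.span k {p : Matrix ι ι k | ∃ φ ψ : Matrix ι ι k,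
        (∀ α, θ j' α * φ = φ * θ j α) ∧ (∀ α, θ j α * ψ = ψ * θ j' α) ∧ p = φ * ψ} := by
  obtain ⟨j, j', hjj, 𝔭, h𝔭, h1, h2, h3⟩ := exists_common_component w
  refine ⟨j, j', hjj, fun ι _ _ T θ hθ hm hr hr' => ?_⟩
  let ΘP : κ → Matrix ι ι (MvPolynomial σ k) := fun α =>
    ∑ s, (MvPolynomial.X s : MvPolynomial σ k) • (T α s).map (algebraMap k _)
  have hP : ∀ i α, (MvPolynomial.aeval (w i)).mapMatrix (ΘP α) = θ i α := fun i α => by
    ext a b
    simp [ΘP, hθ, Matrix.sum_apply]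
  let q := Ideal.Quotient.mkₐ k 𝔭
  refine one_mem_span (D := MvPolynomial σ k ⧸ 𝔭)
    (Ideal.Quotient.liftₐ 𝔭 (MvPolynomial.aeval (w j)) h2)
    (Ideal.Quotient.liftₐ 𝔭 (MvPolynomial.aeval (w j')) h3) m (fun α => q.mapMatrix (ΘP α))
    (fun α β => ?_) _ _ (fun α => ?_) (fun α => ?_) hr hr'
  · have : q.mapMatrix (ΘP α * ΘP β - ∑ γ, m α β γ • ΘP γ) = 0 := by
      ext a b
      refine Ideal.Quotient.eq_zero_iff_mem.2 (h1 _ fun i => ?_)
      have h4 : (MvPolynomial.aeval (w i)).mapMatrix (ΘP α * ΘP β - ∑ γ, m α β γ • ΘP γ) = 0 := by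
        simp only [map_sub, map_mul, map_sum, map_smul, hP]
        exact sub_eq_zero.2 (hm i α β)
      exact congrFun (congrFun h4 a) b
    simp only [map_sub, map_mul, map_sum, map_smul] at this
    exact sub_eq_zero.1 this
  · rw [← hP]; rfl
  · rw [← hP]; rfl

end Pool.Agent.P.MP_b7bea3_al
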