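import Pool.Agent.P.MP_b7bea3_al.Bound

/-! A left self-injective finite-dimensional algebra has projective dual. -/

open Module MulOpposite

namespace Pool.Agent.P.MP_b7bea3_al

variable {k A : Type} [Field k] [Ring A] [Algebra k A] [FiniteDimensional k A]

theorem proj_of_gen {R : Type} [Ring R] [Algebra k R] [FiniteDimensional k R] (e : A ≃ₗ[k] R)
    (he : ∀ a b, e (a * b) = e b * e a) (hG : Gen k A) : Module.Projective R (OmT k R) := by
  obtain ⟨b, r, w, hw⟩ := hG
  have hc : ∀ (i : Fin b) (ψ : OmT k R), ∃ c : A, ∀ ξ : OmT k A, ξ.l c = ψ.l (e (r i ξ)) :=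
    fun i ψ => by
      obtain ⟨c, hc⟩ := (Module.evalEquiv k A).surjective
        (ψ.l ∘ₗ e.toLinearMap ∘ₗ (r i).restrictScalars k ∘ₗ (OmT.lequiv k A).symm.toLinearMap)
      exact ⟨c, fun ξ => LinearMap.congr_fun hc ξ.l⟩
  choose c hc using hc
  have hu : ∀ x y : A, (∀ ξ : OmT k A, ξ.l x = ξ.l y) → x = y := fun x y h => by
    rw [← sub_eq_zero]
    refine (Module.forall_dual_apply_eq_zero_iff k _).1 fun φ => ?_
    rw [map_sub, sub_eq_zero]
    exact h ⟨φ⟩
  let rs : Fin b → (OmT k R →ₗ[R] R) := fun i =>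
    { toFun := fun ψ => e (c i ψ)
      map_add' := fun ψ ψ' => by
        rw [← map_add]
        congr 1
        exact hu _ _ fun ξ => by rw [map_add, hc, hc, hc]; rfl
      map_smul' := fun t ψ => by
        obtain ⟨a, rfl⟩ := e.surjective t
        rw [RingHom.id_apply, smul_eq_mul, ← he]
        congr 1
        refine hu _ _ fun ξ => ?_
        rw [hc, OmT.l_asmul, ← he, ← smul_eq_mul, ← map_smul, ← hc, OmT.l_asmul] }
  let w' : Fin b → OmT k R := fun i => ⟨(w i).l ∘ₗ e.symm.toLinearMap⟩
  refine Module.Projective.of_split (M := Fin b → R) (LinearMap.pi rs)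
    (Fintype.linearCombination R w') ?_
  ext ψ x
  obtain ⟨a, rfl⟩ := e.surjective x
  simp only [LinearMap.comp_apply, Fintype.linearCombination_apply, OmT.l_sum, LinearMap.sum_apply,
    OmT.l_asmul, LinearMap.pi_apply, LinearMap.id_apply]
  have : ∀ i, (w' i).l (e a * rs i ψ) = ψ.l (e (a * r i (w i))) := fun i => by
    change (w i).l (e.symm (e a * e (c i ψ))) = _
    rw [← he, e.symm_apply_apply, ← OmT.l_asmul, hc, map_smul, smul_eq_mul]
  simp only [this, ← map_sum, ← Finset.mul_sum, hw, mul_one]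

/-- The Serre class generated by a module. -/
inductive Ser (M : FMod k A) : FMod k A → Prop
  | self : Ser M M
  | left {X Y Z : FMod k A} (f : X →ₗ[A] Y) (g : Y →ₗ[A] Z) : SE f g → Ser M Y → Ser M X
  | right {X Y Z : FMod k A} (f : X →ₗ[A] Y) (g : Y →ₗ[A] Z) : SE f g → Ser M Y → Ser M Z
  | mid {X Y Z : FMod k A} (f : X →ₗ[A] Y) (g : Y →ₗ[A] Z) :
      SE f g → Ser M X → Ser M Z → Ser M Y

omit [FiniteDimensional k A] in
theorem Ser.of_inj {M X Y : FMod k A} (h : Ser M Y) (f : X →ₗ[A] Y) (hf : Function.Injective f) :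
    Ser M X := Ser.left _ _ (se_coker f hf) h

omit [FiniteDimensional k A] in
theorem Ser.of_surj {M Y Z : FMod k A} (h : Ser M Y) (g : Y →ₗ[A] Z)
    (hg : Function.Surjective g) : Ser M Z := Ser.right _ _ (se_ker g hg) h

omit [FiniteDimensional k A] in
theorem Ser.pi {M X : FMod k A} (h : Ser M X) (n : ℕ) : Ser M (X.pi n) := by
  induction n with
  | zero => exact h.of_inj 0 (Function.injective_of_subsingleton _)
  | succ n ih => exact Ser.mid _ _ (se_pi X n) h ih

theorem Ser.all_of_om {M : FMod k A} (h : Ser M (Om k A)) (X : FMod k A) : Ser M X := by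
  obtain ⟨n, u, hu⟩ := exists_embed X
  exact (h.pi n).of_inj u hu

theorem Ser.all_of_reg {M : FMod k A} (h : Ser M (FMod.reg k A)) (X : FMod k A) : Ser M X := by
  obtain ⟨n, u, hu⟩ := exists_cover X
  exact (h.pi n).of_surj u hu

omit [FiniteDimensional k A] in
theorem SE.length_eq {X Y Z : FMod k A} {f : X →ₗ[A] Y} {g : Y →ₗ[A] Z} (h : SE f g) :
    Module.length A Y = Module.length A X + Module.length A Z :=
  Module.length_eq_add_of_exact f g h.inj h.surj h.ex

/-- Length as a natural number. -/
noncomputable def len (X : FMod k A) : ℕ := (Module.length A X).toNat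

omit [FiniteDimensional k A] in
theorem SE.len_eq {X Y Z : FMod k A} {f : X →ₗ[A] Y} {g : Y →ₗ[A] Z} (h : SE f g) :
    len Y = len X + len Z := by
  rw [len, h.length_eq, ENat.toNat_add Module.length_ne_top Module.length_ne_top, len, len]

omit [FiniteDimensional k A] in
theorem len_eq_zero_iff (X : FMod k A) : len X = 0 ↔ Subsingleton X := by
  rw [len, ENat.toNat_eq_zero, Module.length_eq_zero_iff]
  simp [Module.length_ne_top]

omit [FiniteDimensional k A] in
theorem Sm.len_le {T : FMod k A} (h : Sm T) : len T ≤ 1 := by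
  rcases subsingleton_or_nontrivial T with hT | hT
  · rw [(len_eq_zero_iff T).2 hT]; exact Nat.zero_le _
  have : IsSimpleModule A T := (isSimpleModule_iff A T).2 { eq_bot_or_eq_top := h }
  rw [len, Module.length_eq_one]
  simp

variable [Module.Projective A (OmT k A)]

theorem Ser.phi {M X : FMod k A} (h : Ser M X) : Ser (Phi M) (Phi X) := by
  induction h with
  | self => exact Ser.self
  | left f g hs _ ih => exact Ser.left _ _ (se_phi hs) ih
  | right f g hs _ ih => exact Ser.right _ _ (se_phi hs) ih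
  | mid f g hs _ _ ih ih' => exact Ser.mid _ _ (se_phi hs) ih ih'

theorem len_phi_le (X : FMod k A) : len (Phi X) ≤ len X := by
  induction hm : finrank k X using Nat.strong_induction_on generalizing X with
  | _ m ih =>
    rcases subsingleton_or_nontrivial X with hX | hX
    · have : Subsingleton (Phi X) := ⟨fun u v => HomT.ext (Subsingleton.elim _ _)⟩
      rw [(len_eq_zero_iff _).2 this]
      exact Nat.zero_le _
    obtain ⟨N, hN⟩ := (eq_top_or_exists_le_coatom (⊥ : Submodule A X)).resolve_left bot_ne_top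
    have hs := se_sub X N
    have h1 := ih _ (hm ▸ finrank_sub_lt X hN.1.1) (X.sub N) rfl
    have h2 : IsSimpleModule A (X ⧸ N) := isSimpleModule_iff_isCoatom.2 hN.1
    have h3 : Sm (X.quot N) := fun N' => eq_bot_or_eq_top N'
    have h4 := h3.phi.len_le
    have h5 : len (X.quot N) ≠ 0 := fun h =>
      not_subsingleton_iff_nontrivial.2 (IsSimpleModule.nontrivial A (X ⧸ N))
        ((len_eq_zero_iff _).1 h)
    rw [hs.len_eq, (se_phi hs).len_eq]
    omega

theorem Ser.len_phi {M X : FMod k A} (h : Ser M X) (hM : len (Phi M) = len M) :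
    len (Phi X) = len X := by
  induction h with
  | self => exact hM
  | @left X Y Z f g hs _ ih =>
    have := len_phi_le X
    have := len_phi_le Z
    rw [hs.len_eq, (se_phi hs).len_eq] at ih
    omega
  | @right X Y Z f g hs _ ih =>
    have := len_phi_le X
    have := len_phi_le Z
    rw [hs.len_eq, (se_phi hs).len_eq] at ih
    omega
  | mid f g hs _ _ ih ih' => rw [hs.len_eq, (se_phi hs).len_eq, ih, ih']

theorem len_phi (X : FMod k A) : len (Phi X) = len X := by
  have key : ∀ n, ∀ M : FMod k A, len M = n → Ser M (Om k A) → len (Phi X) = len X := by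
    intro n
    induction n using Nat.strong_induction_on with
    | _ n ih =>
      intro M hn hM
      rcases (len_phi_le M).eq_or_lt with h | h
      · exact (hM.all_of_om X).len_phi h
      · refine ih _ (hn ▸ h) (Phi M) rfl (Ser.all_of_reg ?_ _)
        have := (hM.pi 1).phi.of_inj (X := (FMod.reg k A).pi 1) (freeEquiv 1).toLinearMap
          (freeEquiv 1).injective
        exact this.of_surj (Z := FMod.reg k A) (LinearMap.proj 0) (fun x => ⟨fun _ => x, rfl⟩)
  exact key _ (Om k A) rfl Ser.self

theorem gen_of_proj : Gen k A := by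
  let T : Submodule A A := ⨆ r : OmT k A →ₗ[A] A, LinearMap.range r
  have hT : T = ⊤ := by
    by_contra hT
    obtain ⟨N, hN, hTN⟩ := (eq_top_or_exists_le_coatom T).resolve_left hT
    have h2 : IsSimpleModule A (A ⧸ N) := isSimpleModule_iff_isCoatom.2 hN
    have h5 : len ((FMod.reg k A).quot N) ≠ 0 := fun h =>
      not_subsingleton_iff_nontrivial.2 (IsSimpleModule.nontrivial A (A ⧸ N))
        ((len_eq_zero_iff _).1 h)
    rw [← len_phi] at h5
    refine h5 ((len_eq_zero_iff _).2 (subsingleton_of_forall_eq 0 fun u => ?_))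
    obtain ⟨v, hv⟩ := Module.projective_lifting_property (P := OmT k A) N.mkQ u.l N.mkQ_surjective
    ext x
    change u.l x = 0
    rw [← hv]
    exact (Submodule.Quotient.mk_eq_zero N).2 (hTN (Submodule.mem_iSup_of_mem v ⟨x, rfl⟩))
  have h1 : (1 : A) ∈ T := hT ▸ Submodule.mem_top
  have H : ∀ x ∈ T, ∃ (b : ℕ) (r : Fin b → (OmT k A →ₗ[A] A)) (w : Fin b → OmT k A),
      ∑ i, r i (w i) = x := fun x hx => by
    induction hx using Submodule.iSup_induction' with
    | mem r x hx =>
      obtain ⟨w, rfl⟩ := hx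
      exact ⟨1, fun _ => r, fun _ => w, by simp⟩
    | zero => exact ⟨0, Fin.elim0, Fin.elim0, by simp⟩
    | add x y _ _ hx hy =>
      obtain ⟨b, r, w, rfl⟩ := hx
      obtain ⟨b', r', w', rfl⟩ := hy
      exact ⟨b + b', Fin.append r r', Fin.append w w', by simp [Fin.sum_univ_add]⟩
  exact H 1 h1

omit [Module.Projective A (OmT k A)] in
theorem proj_om_of_injective [Module.Injective A A] : Module.Projective A (OmT k A) := by
  have h1 : Module.Projective Aᵐᵒᵖ (OmT k Aᵐᵒᵖ) :=
    proj_of_gen (opLinearEquiv k) (fun a b => rfl) (gen_of_injective (k := k) (A := A))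
  exact proj_of_gen (A := Aᵐᵒᵖ) (opLinearEquiv k).symm (fun a b => rfl) gen_of_proj

end Pool.Agent.P.MP_b7bea3_al
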