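import Pool.Agent.P.MP_b7bea3_al.Main
import Pool.Agent.P.MP_b7bea3_al.QF

/-! Passage from finitely generated modules to finite-dimensional modules. -/

open CategoryTheory Module

namespace Pool.Agent.P.MP_b7bea3_al

variable {k A : Type} [Field k] [Ring A] [Algebra k A] [FiniteDimensional k A]

variable (k) in
/-- A finitely generated module as a finite-dimensional module. -/
noncomputable def toF (M : ModuleCat.{0} A) (h : Module.Finite A M) : FMod k A :=
  letI : Module k M := Module.compHom M (algebraMap k A)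
  haveI : IsScalarTower k A M := IsScalarTower.of_compHom k A M
  haveI : FiniteDimensional k M := Module.Finite.trans A M
  FMod.of k A M

theorem toF_obj (M : ModuleCat.{0} A) (h : Module.Finite A M) : (toF k M h).obj = M := rfl

theorem ct_toF {d : ℕ} (M : ModuleCat.{0} A) (hM : Module.Finite A M)
    (h : ∀ X : ModuleCat.{0} A, Module.Finite A X →
          (((∃ n : ℕ, ∃ f : X →ₗ[A] (Fin n → (M : Type)),
                ∃ g : (Fin n → (M : Type)) →ₗ[A] X, g ∘ₗ f = LinearMap.id) ↔
              ∀ i : ℕ, 0 < i → i < d →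
                Subsingleton (@Abelian.Ext (ModuleCat.{0} A) _ _
                  (HasExt.standard (ModuleCat.{0} A)) M X i)) ∧
           ((∃ n : ℕ, ∃ f : X →ₗ[A] (Fin n → (M : Type)),
                ∃ g : (Fin n → (M : Type)) →ₗ[A] X, g ∘ₗ f = LinearMap.id) ↔
              ∀ i : ℕ, 0 < i → i < d →
                Subsingleton (@Abelian.Ext (ModuleCat.{0} A) _ _
                  (HasExt.standard (ModuleCat.{0} A)) X M i)))) : CT (toF k M hM) d := by
  intro X
  simp only [ed_eq_zero_iff]
  exact h X.obj inferInstance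

theorem finite_of_tachikawa (hS : SepRad k A) (hA : ¬ IsSemisimpleRing A)
    (hT : (∀ i, 0 < i → ed (Om k A) (FMod.reg k A) i = 0) → Module.Injective A A) :
    {d : ℕ | ∃ M : FMod k A, CT M d}.Finite := by
  by_cases h : ∀ i, 0 < i → ed (Om k A) (FMod.reg k A) i = 0
  · have := hT h
    have : Module.Projective A (OmT k A) := proj_om_of_injective
    exact finite_of_selfinj hS hA
  push Not at h
  obtain ⟨i, h0, hi⟩ := h
  refine (Set.finite_le_nat i).subset ?_
  rintro d ⟨M, hM⟩
  by_contra hlt
  have : Module.Projective A (FMod.reg k A) := inferInstanceAs (Module.Projective A A)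
  exact hi ((hM.om (Om k A)).ed_con _ _ ((hM.reg (FMod.reg k A)).ed_co _ _
    (hM.ed_self h0 (not_le.1 hlt))))

theorem ed_inj_reg (h : ∀ i, 0 < i → ed (Om k A) (FMod.reg k A) i = 0) (I : FMod k A)
    [hI : Module.Injective A I] (i : ℕ) (h0 : 0 < i) : ed I (FMod.reg k A) i = 0 := by
  obtain ⟨b, u, hu⟩ := exists_embed I
  obtain ⟨r, hr⟩ := hI.out (X := I) (Y := (Om k A).pi b) u hu LinearMap.id
  exact InAdd.ed_con (M := Om k A) ⟨b, u, r, LinearMap.ext hr⟩ _ _ (h i h0)

end Pool.Agent.P.MP_b7bea3_al
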