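import Pool.Agent.P.MP_b7bea3_al.Num

/-! Bimodules, the functors `Hom_A(Q, -)`, and the dual of the regular module. -/

open Module MulOpposite

namespace Pool.Agent.P.MP_b7bea3_al

/-- Finite-dimensional bimodules. -/
structure BMod (k A : Type) [Field k] [Ring A] [Algebra k A] extends FMod k A where
  r : Aᵐᵒᵖ →ₐ[k] Module.End A toFMod

variable {k A : Type} [Field k] [Ring A] [Algebra k A]

/-- Underlying type of `Hom_A(Q, X)`. -/
@[ext] structure HomT (Q : BMod k A) (X : FMod k A) : Type where
  l : Q.toFMod →ₗ[A] X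

/-- Identification with linear maps. -/
def HomT.equiv (Q : BMod k A) (X : FMod k A) : HomT Q X ≃ (Q.toFMod →ₗ[A] X) :=
  ⟨HomT.l, HomT.mk, fun _ => rfl, fun _ => rfl⟩

instance (Q : BMod k A) (X : FMod k A) : AddCommGroup (HomT Q X) :=
  (HomT.equiv Q X).addCommGroup

instance (Q : BMod k A) (X : FMod k A) : Module k (HomT Q X) := (HomT.equiv Q X).module k

@[simp] theorem HomT.l_add {Q : BMod k A} {X : FMod k A} (f g : HomT Q X) :
    (f + g).l = f.l + g.l := rfl
@[simp] theorem HomT.l_sub {Q : BMod k A} {X : FMod k A} (f g : HomT Q X) :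
    (f - g).l = f.l - g.l := rfl
@[simp] theorem HomT.l_zero {Q : BMod k A} {X : FMod k A} : (0 : HomT Q X).l = 0 := rfl
@[simp] theorem HomT.l_smul {Q : BMod k A} {X : FMod k A} (c : k) (f : HomT Q X) :
    (c • f).l = c • f.l := rfl

/-- Identification with linear maps, `k`-linearly. -/
def HomT.lequiv (Q : BMod k A) (X : FMod k A) : HomT Q X ≃ₗ[k] (Q.toFMod →ₗ[A] X) :=
  { HomT.equiv Q X with
    map_add' := fun _ _ => rfl
    map_smul' := fun _ _ => rfl }

instance (Q : BMod k A) (X : FMod k A) : SMul A (HomT Q X) :=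
  ⟨fun a f => ⟨f.l ∘ₗ Q.r (op a)⟩⟩

@[simp] theorem HomT.l_asmul {Q : BMod k A} {X : FMod k A} (a : A) (f : HomT Q X) :
    (a • f).l = f.l ∘ₗ Q.r (op a) := rfl

instance (Q : BMod k A) (X : FMod k A) : Module A (HomT Q X) where
  one_smul f := by ext q; simp
  mul_smul a b f := by ext q; simp
  smul_zero a := by ext q; simp
  smul_add a f g := by ext q; simp
  add_smul a b f := by ext q; simp
  zero_smul f := by ext q; simp

instance (Q : BMod k A) (X : FMod k A) : IsScalarTower k A (HomT Q X) where
  smul_assoc c a f := by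
    ext q
    simp [op_smul]

instance (Q : BMod k A) (X : FMod k A) : FiniteDimensional k (HomT Q X) :=
  (HomT.lequiv Q X).symm.finiteDimensional

theorem HomT.l_sum {Q : BMod k A} {X : FMod k A} {ι : Type} (s : Finset ι) (f : ι → HomT Q X) :
    (∑ i ∈ s, f i).l = ∑ i ∈ s, (f i).l := map_sum (HomT.lequiv Q X) f s

/-- The module `Hom_A(Q, X)`. -/
abbrev HomF (Q : BMod k A) (X : FMod k A) : FMod k A := FMod.of k A (HomT Q X)

/-- Covariant functoriality. -/
def HomF.map (Q : BMod k A) {X Y : FMod k A} (f : X →ₗ[A] Y) : HomT Q X →ₗ[A] HomT Q Y where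
  toFun u := ⟨f ∘ₗ u.l⟩
  map_add' u v := by ext q; simp
  map_smul' a u := rfl

@[simp] theorem HomF.map_l (Q : BMod k A) {X Y : FMod k A} (f : X →ₗ[A] Y) (u : HomT Q X) :
    (HomF.map Q f u).l = f ∘ₗ u.l := rfl

/-- Contravariant functoriality. -/
def HomF.comap {Q Q' : BMod k A} (p : Q.toFMod →ₗ[A] Q'.toFMod)
    (hp : ∀ a, p ∘ₗ Q.r a = Q'.r a ∘ₗ p) (X : FMod k A) : HomT Q' X →ₗ[A] HomT Q X where
  toFun u := ⟨u.l ∘ₗ p⟩
  map_add' u v := by ext q; simp
  map_smul' a u := by
    ext q
    have := LinearMap.congr_fun (hp (op a)) q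
    simp only [LinearMap.comp_apply] at this
    simp [this]

@[simp] theorem HomF.comap_l {Q Q' : BMod k A} (p : Q.toFMod →ₗ[A] Q'.toFMod)
    (hp : ∀ a, p ∘ₗ Q.r a = Q'.r a ∘ₗ p) (X : FMod k A) (u : HomT Q' X) :
    (HomF.comap p hp X u).l = u.l ∘ₗ p := rfl

theorem SE.homF_map (Q : BMod k A) [Module.Projective A Q.toFMod] {X Y Z : FMod k A}
    {f : X →ₗ[A] Y} {g : Y →ₗ[A] Z} (h : SE f g) :
    SE (X := HomF Q X) (Y := HomF Q Y) (Z := HomF Q Z) (HomF.map Q f) (HomF.map Q g) := by
  refine ⟨fun u v huv => ?_, fun u => ⟨fun hu => ?_, ?_⟩, fun u => ?_⟩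
  · ext q
    exact h.inj (LinearMap.congr_fun (congrArg HomT.l huv) q)
  · have hu' : ∀ q, u.l q ∈ LinearMap.range f := fun q =>
      (h.ex _).1 (LinearMap.congr_fun (congrArg HomT.l hu) q)
    refine ⟨⟨(LinearEquiv.ofInjective f h.inj).symm.toLinearMap ∘ₗ
      u.l.codRestrict _ hu'⟩, ?_⟩
    ext q
    simp
  · rintro ⟨v, rfl⟩
    ext q
    exact h.ex.apply_apply_eq_zero _
  · obtain ⟨v, hv⟩ := Module.projective_lifting_property g u.l h.surj
    exact ⟨⟨v⟩, HomT.ext hv⟩

theorem SE.homF_comap {Q₁ Q₂ Q₃ : BMod k A} [Module.Projective A Q₃.toFMod]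
    {i : Q₁.toFMod →ₗ[A] Q₂.toFMod} {p : Q₂.toFMod →ₗ[A] Q₃.toFMod} (h : SE i p)
    (hi : ∀ a, i ∘ₗ Q₁.r a = Q₂.r a ∘ₗ i) (hp : ∀ a, p ∘ₗ Q₂.r a = Q₃.r a ∘ₗ p) (X : FMod k A) :
    SE (X := HomF Q₃ X) (Y := HomF Q₂ X) (Z := HomF Q₁ X) (HomF.comap p hp X)
      (HomF.comap i hi X) := by
  obtain ⟨s, hs⟩ := Module.projective_lifting_property p LinearMap.id h.surj
  have hs' : ∀ z, p (s z) = z := LinearMap.congr_fun hs
  have hmem : ∀ y, ((LinearMap.id - s ∘ₗ p : Q₂.toFMod →ₗ[A] Q₂.toFMod) y) ∈ LinearMap.range i :=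
    fun y => (h.ex _).1 (by simp [hs'])
  refine ⟨fun u v huv => ?_, fun u => ⟨fun hu => ?_, ?_⟩, fun u => ?_⟩
  · ext q
    obtain ⟨y, rfl⟩ := h.surj q
    exact LinearMap.congr_fun (congrArg HomT.l huv) y
  · refine ⟨⟨u.l ∘ₗ s⟩, ?_⟩
    ext y
    obtain ⟨x, hx⟩ := hmem y
    have h0 : u.l (i x) = 0 := LinearMap.congr_fun (congrArg HomT.l hu) x
    rw [hx] at h0
    simp only [LinearMap.sub_apply, LinearMap.id_apply, LinearMap.comp_apply, map_sub] at h0
    simp only [HomF.comap_l, LinearMap.comp_apply]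
    exact (sub_eq_zero.1 h0).symm
  · rintro ⟨v, rfl⟩
    ext x
    simp [h.ex.apply_apply_eq_zero x]
  · refine ⟨⟨u.l ∘ₗ (LinearEquiv.ofInjective i h.inj).symm.toLinearMap ∘ₗ
      LinearMap.codRestrict _ _ hmem⟩, ?_⟩
    ext x
    simp only [HomF.comap_l, LinearMap.comp_apply, LinearEquiv.coe_coe]
    congr 1
    rw [LinearEquiv.symm_apply_eq]
    ext
    simp [h.ex.apply_apply_eq_zero x]

variable (k A) in
/-- Underlying type of the dual of the regular module. -/
@[ext] structure OmT : Type where
  l : Module.Dual k A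

variable (k A) in
/-- Identification with the dual space. -/
def OmT.equiv : OmT k A ≃ Module.Dual k A := ⟨OmT.l, OmT.mk, fun _ => rfl, fun _ => rfl⟩

instance : AddCommGroup (OmT k A) := (OmT.equiv k A).addCommGroup

instance : Module k (OmT k A) := (OmT.equiv k A).module k

@[simp] theorem OmT.l_add (f g : OmT k A) : (f + g).l = f.l + g.l := rfl
@[simp] theorem OmT.l_zero : (0 : OmT k A).l = 0 := rfl
@[simp] theorem OmT.l_smul (c : k) (f : OmT k A) : (c • f).l = c • f.l := rfl

variable (k A) in
/-- Identification with the dual space, `k`-linearly. -/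
def OmT.lequiv : OmT k A ≃ₗ[k] Module.Dual k A :=
  { OmT.equiv k A with
    map_add' := fun _ _ => rfl
    map_smul' := fun _ _ => rfl }

theorem OmT.l_sum {ι : Type} (s : Finset ι) (f : ι → OmT k A) :
    (∑ i ∈ s, f i).l = ∑ i ∈ s, (f i).l := map_sum (OmT.lequiv k A) f s

instance : SMul A (OmT k A) := ⟨fun a f => ⟨f.l ∘ₗ LinearMap.mulRight k a⟩⟩

@[simp] theorem OmT.l_asmul (a : A) (f : OmT k A) (x : A) : (a • f).l x = f.l (x * a) := rfl

instance : Module A (OmT k A) where
  one_smul f := by ext q; simp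
  mul_smul a b f := by ext q; simp [mul_assoc]
  smul_zero a := by ext q; simp
  smul_add a f g := by ext q; simp
  add_smul a b f := by ext q; simp [mul_add]
  zero_smul f := by ext q; simp

instance : IsScalarTower k A (OmT k A) where
  smul_assoc c a f := by
    ext q
    simp

variable [FiniteDimensional k A]

instance : FiniteDimensional k (OmT k A) := (OmT.lequiv k A).symm.finiteDimensional

variable (k A) in
/-- The dual of the regular module, as a left module. -/
abbrev Om : FMod k A := FMod.of k A (OmT k A)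

/-- Right multiplication on the dual. -/
def omR (a : A) : OmT k A →ₗ[A] OmT k A where
  toFun f := ⟨f.l ∘ₗ LinearMap.mulLeft k a⟩
  map_add' f g := by ext; simp
  map_smul' b f := by ext; simp [mul_assoc]

omit [FiniteDimensional k A] in
@[simp] theorem omR_l (a : A) (f : OmT k A) (x : A) : (omR a f).l x = f.l (a * x) := rfl

variable (k A) in
/-- The right action on the dual. -/
def omRHom : Aᵐᵒᵖ →ₐ[k] Module.End A (OmT k A) where
  toFun := fun a => omR a.unop
  map_one' := by ext; simp
  map_mul' := fun a b => by ext; simp [mul_assoc]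
  map_zero' := by ext; simp
  map_add' := fun a b => by ext; simp [add_mul]
  commutes' := fun c => by
    ext f x
    simp [Algebra.algebraMap_eq_smul_one]

omit [FiniteDimensional k A] in
@[simp] theorem omRHom_op (a : A) : omRHom k A (op a) = omR a := rfl

variable (k A) in
/-- The dual of the regular module, as a bimodule. -/
abbrev OmB : BMod k A where
  toFMod := Om k A
  r := omRHom k A

/-- Maps into the dual of the regular module are linear forms. -/
def homOm (N : FMod k A) : (N →ₗ[A] OmT k A) ≃ₗ[k] Module.Dual k N where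
  toFun β :=
    { toFun := fun n => (β n).l 1
      map_add' := fun x y => by simp
      map_smul' := fun c x => by simp }
  invFun φ :=
    { toFun := fun n => ⟨
        { toFun := fun a => φ (a • n)
          map_add' := fun x y => by simp [add_smul]
          map_smul' := fun c x => by simp }⟩
      map_add' := fun x y => by ext; simp
      map_smul' := fun a x => by ext; simp [mul_smul] }
  map_add' f g := by ext; simp
  map_smul' c f := by ext; simp
  left_inv β := by ext n a; simp
  right_inv φ := by ext n; simp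

omit [FiniteDimensional k A] in
@[simp] theorem homOm_apply (N : FMod k A) (β : N →ₗ[A] OmT k A) (n : N) :
    homOm N β n = (β n).l 1 := rfl

omit [FiniteDimensional k A] in
@[simp] theorem homOm_symm_apply (N : FMod k A) (φ : Module.Dual k N) (n : N) (a : A) :
    ((homOm N).symm φ n).l a = φ (a • n) := rfl

instance : Module.Injective A (OmT k A) := by
  refine ⟨fun U V _ _ _ _ f hf g => ?_⟩
  let : Module k U := Module.compHom U (algebraMap k A)
  let : Module k V := Module.compHom V (algebraMap k A)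
  have : IsScalarTower k A U := IsScalarTower.of_compHom k A U
  have : IsScalarTower k A V := IsScalarTower.of_compHom k A V
  let φ : U →ₗ[k] k :=
    { toFun := fun u => (g u).l 1
      map_add' := fun x y => by simp
      map_smul' := fun c x => by simp }
  obtain ⟨r, hr⟩ := (f.restrictScalars k).exists_leftInverse_of_injective
    (LinearMap.ker_eq_bot.2 hf)
  have hr' : ∀ u, r (f u) = u := LinearMap.congr_fun hr
  refine ⟨{ toFun := fun n => ⟨
              { toFun := fun a => φ (r (a • n))
                map_add' := fun x y => by simp [add_smul]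
                map_smul' := fun c x => by simp }⟩
            map_add' := fun x y => by ext; simp
            map_smul' := fun a x => by ext; simp [mul_smul] }, fun u => ?_⟩
  ext a
  simp only [LinearMap.coe_mk, AddHom.coe_mk, ← map_smul, hr', φ]
  simp

theorem exists_embed (X : FMod k A) :
    ∃ (n : ℕ) (u : X →ₗ[A] (Om k A).pi n), Function.Injective u := by
  let b := Module.finBasis k X
  refine ⟨finrank k X, LinearMap.pi fun i => (homOm X).symm (b.coord i), ?_⟩
  rw [← LinearMap.ker_eq_bot, LinearMap.ker_eq_bot']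
  intro x hx
  refine b.ext_elem fun i => ?_
  have : (((homOm X).symm (b.coord i)) x).l 1 = (0 : OmT k A).l 1 :=
    congrArg (fun f : OmT k A => f.l 1) (congrFun hx i)
  simpa using this

theorem omR_surj (u : OmT k A →ₗ[A] OmT k A) : ∃ a : A, omR a = u := by
  let L : A →ₗ[k] (OmT k A →ₗ[A] OmT k A) :=
    { toFun := fun a => omR a
      map_add' := fun a b => by ext; simp [add_mul]
      map_smul' := fun c a => by ext; simp }
  have hinj : Function.Injective L := by
    rw [← LinearMap.ker_eq_bot, LinearMap.ker_eq_bot']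
    intro a ha
    refine (Module.forall_dual_apply_eq_zero_iff k a).1 fun φ => ?_
    have : (omR a ⟨φ⟩).l 1 = (0 : OmT k A).l 1 :=
      congrArg (fun f : OmT k A => f.l 1) (LinearMap.congr_fun ha ⟨φ⟩)
    simpa using this
  have hdim : finrank k A = finrank k (OmT k A →ₗ[A] OmT k A) := by
    refine Eq.trans ?_ (homOm (Om k A)).finrank_eq.symm
    rw [Subspace.dual_finrank_eq]
    change _ = finrank k (OmT k A)
    rw [(OmT.lequiv k A).finrank_eq, Subspace.dual_finrank_eq]
  exact (LinearMap.injective_iff_surjective_of_finrank_eq_finrank hdim).1 hinj u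

end Pool.Agent.P.MP_b7bea3_al
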