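import Mathlib

/-! Over a perfect field the tensor product of two finite-dimensional semisimple algebras has
zero radical. -/

open TensorProduct Polynomial

namespace Pool.Agent.P.MP_b7bea3_al

theorem eq_zero_of_sandwich {S : Type} [Ring S] [IsSemisimpleRing S] (n : S)
    (h : ∀ u, n * u * n = 0) : n = 0 := by
  obtain ⟨f, hf, hI⟩ := IsSemisimpleRing.ideal_eq_span_idempotent (Ideal.span {n})
  obtain ⟨u, hu⟩ := Ideal.mem_span_singleton'.1 (hI ▸ Ideal.subset_span rfl : f ∈ Ideal.span {n})
  obtain ⟨v, hv⟩ := Ideal.mem_span_singleton'.1 (hI ▸ Ideal.subset_span rfl : n ∈ Ideal.span {f})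
  have h0 : f = 0 := by
    rw [← hf.eq, ← hu, mul_assoc, ← mul_assoc n, h, mul_zero]
  rw [← hv, h0, mul_zero]

theorem exists_central_mem {S : Type} [Ring S] [IsSemisimpleRing S] (I : Ideal S)
    (hI : ∀ a ∈ I, ∀ s, a * s ∈ I) (h0 : I ≠ ⊥) : ∃ e ∈ I, e ≠ 0 ∧ ∀ s, s * e = e * s := by
  obtain ⟨e, he, rfl⟩ := IsSemisimpleRing.ideal_eq_span_idempotent I
  have hmem : e ∈ Ideal.span {e} := Ideal.subset_span rfl
  have h1 : ∀ s, e * s * e = e * s := fun s => by
    obtain ⟨v, hv⟩ := Ideal.mem_span_singleton'.1 (hI e hmem s)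
    rw [← hv, mul_assoc, he.eq]
  refine ⟨e, hmem, fun h => h0 (by simp [h]), fun s => ?_⟩
  have h2 : (1 - e) * s * e = 0 := eq_zero_of_sandwich _ fun u => by
    have : e * u * (1 - e) = 0 := by rw [mul_sub, mul_one, h1, sub_self]
    calc (1 - e) * s * e * u * ((1 - e) * s * e) = (1 - e) * s * (e * u * (1 - e)) * s * e := by
          noncomm_ring
      _ = 0 := by rw [this]; simp
  rw [sub_mul, sub_mul, one_mul, h1, sub_eq_zero] at h2
  exact h2

theorem exists_central_coords {S V ι : Type} [Ring S] [IsSemisimpleRing S] [AddCommGroup V]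
    [Fintype ι] (c : ι → V →+ S) (hc : ∀ x, (∀ i, c i x = 0) → x = 0) (l r : S → V → V)
    (hl : ∀ i s x, c i (l s x) = s * c i x) (hr : ∀ i s x, c i (r s x) = c i x * s)
    (I : AddSubgroup V) (hIl : ∀ s, ∀ x ∈ I, l s x ∈ I) (hIr : ∀ s, ∀ x ∈ I, r s x ∈ I)
    (h0 : ∃ x ∈ I, x ≠ 0) : ∃ x ∈ I, x ≠ 0 ∧ ∀ i s, s * c i x = c i x * s := by
  classical
  obtain ⟨x, ⟨hxI, hx0⟩, hmin⟩ := exists_minimalFor_of_wellFoundedLT
    (fun x : V => x ∈ I ∧ x ≠ 0) (fun x => (Finset.univ.filter fun i => c i x ≠ 0).card) h0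
  obtain ⟨i0, hi0⟩ : ∃ i, c i x ≠ 0 := by
    by_contra h
    exact hx0 (hc x fun i => by_contra fun hi => h ⟨i, hi⟩)
  let J : Ideal S :=
    { carrier := {a | ∃ y ∈ I, (∀ i, c i x = 0 → c i y = 0) ∧ c i0 y = a}
      add_mem' := by
        rintro _ _ ⟨y, hy, hy', rfl⟩ ⟨z, hz, hz', rfl⟩
        exact ⟨y + z, I.add_mem hy hz, fun i hi => by rw [map_add, hy' i hi, hz' i hi, add_zero],
          map_add _ _ _⟩
      zero_mem' := ⟨0, I.zero_mem, fun _ _ => map_zero _, map_zero _⟩
      smul_mem' := by
        rintro s _ ⟨y, hy, hy', rfl⟩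
        exact ⟨l s y, hIl s y hy, fun i hi => by rw [hl, hy' i hi, mul_zero], hl _ _ _⟩ }
  obtain ⟨e, ⟨y, hy, hy', rfl⟩, he0, he⟩ := exists_central_mem J (by
    rintro _ ⟨y, hy, hy', rfl⟩ s
    exact ⟨r s y, hIr s y hy, fun i hi => by rw [hr, hy' i hi, zero_mul], hr _ _ _⟩) (by
    intro h
    have : c i0 x ∈ J := ⟨x, hxI, fun _ h => h, rfl⟩
    rw [h] at this
    exact hi0 this)
  refine ⟨y, hy, fun h => he0 (by rw [h, map_zero]), fun i s => ?_⟩
  have h1 : l s y - r s y = 0 := by
    by_contra hne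
    have hlt : (Finset.univ.filter fun i => c i (l s y - r s y) ≠ 0).card <
        (Finset.univ.filter fun i => c i x ≠ 0).card := by
      refine Finset.card_lt_card ⟨fun j hj => ?_, fun hsub => ?_⟩
      · simp only [Finset.mem_filter, Finset.mem_univ, true_and] at hj ⊢
        intro h
        exact hj (by rw [map_sub, hl, hr, hy' j h]; simp)
      · have := hsub (Finset.mem_filter.2 ⟨Finset.mem_univ i0, hi0⟩)
        exact (Finset.mem_filter.1 this).2 (by rw [map_sub, hl, hr, he, sub_self])
    exact absurd (hmin ⟨I.sub_mem (hIl s y hy) (hIr s y hy), hne⟩ hlt.le) (not_le.2 hlt)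
  have := congrArg (c i) h1
  rwa [map_sub, hl, hr, map_zero, sub_eq_zero] at this

variable {k : Type} [Field k]

theorem exists_squarefree {S : Type} [Ring S] [Algebra k S] [FiniteDimensional k S]
    [IsSemisimpleRing S] (z : S) (hz : ∀ s, s * z = z * s) :
    ∃ p : k[X], Squarefree p ∧ aeval z p = 0 := by
  have hi : IsIntegral k z := Algebra.IsIntegral.isIntegral z
  refine ⟨minpoly k z, fun q ⟨r, hq⟩ => ?_, minpoly.aeval k z⟩
  have hc : ∀ (p : k[X]) s, s * aeval z p = aeval z p * s := fun p s => by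
    induction p using Polynomial.induction_on' with
    | add p q hp hq => rw [map_add, mul_add, add_mul, hp, hq]
    | monomial n a =>
      rw [aeval_monomial, ← mul_assoc, ← Algebra.commutes, mul_assoc, mul_assoc,
        (Commute.pow_right (hz s) n).eq]
  have h1 : aeval z (q * r) = 0 := eq_zero_of_sandwich _ fun u => by
    rw [← hc, mul_assoc, ← map_mul, show q * r * (q * r) = (q * q * r) * r by ring, ← hq, map_mul,
      minpoly.aeval, zero_mul, mul_zero]
  have h2 := minpoly.dvd k z h1
  have h3 : q * r ≠ 0 := fun h => minpoly.ne_zero hi (by rw [hq, mul_assoc, h, mul_zero])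
  rw [hq, mul_assoc] at h2
  exact isUnit_of_dvd_one ((mul_dvd_mul_iff_right h3).1 (by simpa using h2))

theorem jacobson_tensor_eq_bot [PerfectField k] (S T : Type) [Ring S] [Ring T] [Algebra k S]
    [Algebra k T] [FiniteDimensional k S] [FiniteDimensional k T] [IsSemisimpleRing S]
    [IsSemisimpleRing T] : Ring.jacobson (S ⊗[k] T) = ⊥ := by
  by_contra hne
  let bS := Module.finBasis k S
  let bT := Module.finBasis k T
  let c : Fin (Module.finrank k T) → S ⊗[k] T →ₗ[k] S := fun i =>
    (TensorProduct.rid k S).toLinearMap ∘ₗ (bT.coord i).lTensor S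
  let c' : Fin (Module.finrank k S) → S ⊗[k] T →ₗ[k] T := fun i =>
    (TensorProduct.lid k T).toLinearMap ∘ₗ (bS.coord i).rTensor T
  have hc : ∀ x, x = ∑ i, c i x ⊗ₜ bT i := fun x => by
    induction x using TensorProduct.induction_on with
    | zero => simp
    | tmul s t =>
      conv_lhs => rw [← bT.sum_repr t, tmul_sum]
      simp [c, smul_tmul]
    | add x y hx hy =>
      simp only [map_add, add_tmul, Finset.sum_add_distrib]
      rw [← hx, ← hy]
  have hc' : ∀ x, x = ∑ i, bS i ⊗ₜ c' i x := fun x => by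
    induction x using TensorProduct.induction_on with
    | zero => simp
    | tmul s t =>
      conv_lhs => rw [← bS.sum_repr s, sum_tmul]
      simp [c', smul_tmul]
    | add x y hx hy =>
      simp only [map_add, tmul_add, Finset.sum_add_distrib]
      rw [← hx, ← hy]
  obtain ⟨x, hx, hx0, hxc⟩ := exists_central_coords (fun i => (c i).toAddMonoidHom)
    (fun x h => by
      rw [hc x]
      exact Finset.sum_eq_zero fun i _ => by rw [show c i x = 0 from h i, zero_tmul])
    (fun s x => s ⊗ₜ 1 * x) (fun s x => x * s ⊗ₜ 1)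
    (fun i s x => by
      induction x using TensorProduct.induction_on with
      | zero => simp
      | tmul a t => simp [c]
      | add x y hx hy => simp only [mul_add, map_add, hx, hy])
    (fun i s x => by
      induction x using TensorProduct.induction_on with
      | zero => simp
      | tmul a t => simp [c]
      | add x y hx hy => simp only [add_mul, map_add, hx, hy])
    (Ring.jacobson (S ⊗[k] T)).toAddSubgroup (fun s x hx => Ideal.mul_mem_left _ _ hx)
    (fun s x hx => Ideal.mul_mem_right _ _ hx) (Submodule.exists_mem_ne_zero_of_ne_bot hne)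
  let Z : Submodule k S := (Subalgebra.center k S).toSubmodule
  obtain ⟨π, hπ⟩ := Z.subtype.exists_leftInverse_of_injective Z.ker_subtype
  let P : S ⊗[k] T →ₗ[k] S ⊗[k] T := (Z.subtype ∘ₗ π).rTensor T
  let I : AddSubgroup (S ⊗[k] T) :=
    (Ring.jacobson (S ⊗[k] T)).toAddSubgroup ⊓ (LinearMap.ker (P - LinearMap.id)).toAddSubgroup
  have hPl : ∀ (t : T) x, P (1 ⊗ₜ t * x) = 1 ⊗ₜ t * P x := fun t x => by
    induction x using TensorProduct.induction_on with
    | zero => simp
    | tmul a t => simp [P]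
    | add x y hx hy => simp only [mul_add, map_add, hx, hy]
  have hPr : ∀ (t : T) x, P (x * 1 ⊗ₜ t) = P x * 1 ⊗ₜ t := fun t x => by
    induction x using TensorProduct.induction_on with
    | zero => simp
    | tmul a t => simp [P]
    | add x y hx hy => simp only [add_mul, map_add, hx, hy]
  have hI : ∀ x, x ∈ I ↔ x ∈ Ring.jacobson (S ⊗[k] T) ∧ P x = x := fun x => by
    simp [I, sub_eq_zero]
  obtain ⟨y, hy, hy0, hyc⟩ := exists_central_coords (fun i => (c' i).toAddMonoidHom)
    (fun x h => by
      rw [hc' x]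
      exact Finset.sum_eq_zero fun i _ => by rw [show c' i x = 0 from h i, tmul_zero])
    (fun s x => 1 ⊗ₜ s * x) (fun s x => x * 1 ⊗ₜ s)
    (fun i s x => by
      induction x using TensorProduct.induction_on with
      | zero => simp
      | tmul a t => simp [c']
      | add x y hx hy => simp only [mul_add, map_add, hx, hy])
    (fun i s x => by
      induction x using TensorProduct.induction_on with
      | zero => simp
      | tmul a t => simp [c']
      | add x y hx hy => simp only [add_mul, map_add, hx, hy])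
    I (fun s x hx => (hI _).2 ⟨Ideal.mul_mem_left _ _ ((hI x).1 hx).1,
      by rw [hPl, ((hI x).1 hx).2]⟩)
    (fun s x hx => (hI _).2 ⟨Ideal.mul_mem_right _ _ ((hI x).1 hx).1,
      by rw [hPr, ((hI x).1 hx).2]⟩)
    ⟨x, (hI x).2 ⟨hx, by
      conv_lhs => rw [hc x, map_sum]
      conv_rhs => rw [hc x]
      refine Finset.sum_congr rfl fun i _ => ?_
      have hm : c i x ∈ Z := (Subalgebra.mem_center_iff (R := k)).2 (hxc i)
      have := LinearMap.congr_fun hπ ⟨_, hm⟩
      simp only [LinearMap.comp_apply, Submodule.subtype_apply, LinearMap.id_apply] at this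
      simp [P, this]⟩, hx0⟩
  obtain ⟨hyJ, hyP⟩ := (hI y).1 hy
  let L := Algebra.lmul k (S ⊗[k] T)
  have hss : ∀ (s : Finset (Fin (Module.finrank k S))),
      (∀ u, u * (∑ i ∈ s, ((π (bS i) : S) ⊗ₜ[k] c' i y)) =
        (∑ i ∈ s, ((π (bS i) : S) ⊗ₜ[k] c' i y)) * u) ∧
      (L (∑ i ∈ s, ((π (bS i) : S) ⊗ₜ[k] c' i y))).IsSemisimple := fun s => by
    induction s using Finset.induction_on with
    | empty => exact ⟨by simp, by simp⟩
    | insert i s hi ih =>
      rw [Finset.sum_insert hi]
      have hz : ∀ a, a * (π (bS i) : S) = π (bS i) * a :=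
        (Subalgebra.mem_center_iff (R := k)).1 (π (bS i)).2
      have hz' : ∀ a, a * c' i y = c' i y * a := hyc i
      have hcomm : ∀ u, u * ((π (bS i) : S) ⊗ₜ[k] c' i y) = ((π (bS i) : S) ⊗ₜ[k] c' i y) * u :=
        fun u => by
          induction u using TensorProduct.induction_on with
          | zero => simp
          | tmul a t => simp [hz, hz']
          | add x y hx hy => simp only [mul_add, add_mul, hx, hy]
      refine ⟨fun u => by rw [mul_add, add_mul, hcomm, ih.1], ?_⟩
      rw [map_add]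
      refine Module.End.IsSemisimple.add_of_commute (Commute.map (ih.1 _) L) ?_ ih.2
      obtain ⟨p, hp, hp'⟩ := exists_squarefree (k := k) _ hz
      obtain ⟨q, hq, hq'⟩ := exists_squarefree (k := k) _ hz'
      have e : ((π (bS i) : S) ⊗ₜ[k] c' i y) = ((π (bS i) : S) ⊗ₜ[k] 1) * (1 ⊗ₜ[k] c' i y) := by
        simp
      rw [e, map_mul]
      refine Module.End.IsSemisimple.mul_of_commute (Commute.map (by simp [Commute, SemiconjBy]) L)
        (Module.End.isSemisimple_of_squarefree_aeval_eq_zero hp ?_)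
        (Module.End.isSemisimple_of_squarefree_aeval_eq_zero hq ?_)
      · have := aeval_algHom_apply (L.comp Algebra.TensorProduct.includeLeft) (π (bS i) : S) p
        rw [hp', map_zero] at this
        exact this
      · have := aeval_algHom_apply (L.comp Algebra.TensorProduct.includeRight) (c' i y) q
        rw [hq', map_zero] at this
        exact this
  have hy' : y = ∑ i, ((π (bS i) : S) ⊗ₜ[k] c' i y) := by
    conv_lhs => rw [← hyP, hc' y, map_sum]
    simp [P]
  have hnil : IsNilpotent y := by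
    have : IsArtinianRing (S ⊗[k] T) := IsArtinianRing.of_finite k _
    obtain ⟨n, hn⟩ := IsSemiprimaryRing.isNilpotent (R := S ⊗[k] T)
    exact ⟨n, by
      have := Ideal.pow_mem_pow hyJ n
      rwa [hn] at this⟩
  have := Module.End.eq_zero_of_isNilpotent_isSemisimple (hnil.map L) (hy' ▸ (hss Finset.univ).2)
  exact hy0 (Algebra.lmul_injective (this.trans (map_zero _).symm))

end Pool.Agent.P.MP_b7bea3_al
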