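import Pool.Agent.P.MP_b7bea3_al.Resol
import Pool.Agent.P.MP_b7bea3_al.Family
import Pool.Agent.P.MP_b7bea3_al.Sep

/-! The self-injective case. -/

open Module MulOpposite TensorProduct

namespace Pool.Agent.P.MP_b7bea3_al

variable {k A : Type} [Field k] [Ring A] [Algebra k A] [FiniteDimensional k A]

/-- The action of `A` by `k`-linear maps. -/
abbrev act (Y : FMod k A) : A →ₐ[k] Module.End k Y := Algebra.lsmul k k Y

theorem inner_of_ed (Y : FMod k A) (h : ed Y Y 1 = 0) (c : A →ₗ[k] Module.End k Y)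
    (hc : ∀ a b, c (a * b) = act Y a * c b + c a * act Y b) :
    ∃ z : Module.End k Y, ∀ a, c a = act Y a * z - z * act Y a := by
  let T : FMod k A := FMod.of k A (A ⊗[k] Y)
  let μ0 : A ⊗[k] Y →ₗ[k] Y := TensorProduct.lift (act Y).toLinearMap
  let μ : T →ₗ[A] Y :=
    { toFun := μ0
      map_add' := map_add μ0
      map_smul' := fun a x => by
        induction x using TensorProduct.induction_on with
        | zero => simp
        | tmul b y =>
          change μ0 ((a * b) ⊗ₜ[k] y) = a • μ0 (b ⊗ₜ[k] y)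
          simp [μ0]
        | add x y hx hy =>
          simp only [RingHom.id_apply] at hx hy
          simp only [smul_add, map_add, hx, hy, RingHom.id_apply] }
  have hμ : Function.Surjective μ := fun y => ⟨1 ⊗ₜ y, by simp [μ, μ0]⟩
  let D : A ⊗[k] Y →ₗ[k] Y := TensorProduct.lift c
  have hD : ∀ (a : A) (x : A ⊗[k] Y), D (a • x) = a • D x + c a (μ0 x) := fun a x => by
    induction x using TensorProduct.induction_on with
    | zero => simp
    | tmul b y => simp [D, μ0, smul_tmul', hc]
    | add x y hx hy => simp only [smul_add, map_add, hx, hy]; abel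
  let D' : T.sub (LinearMap.ker μ) →ₗ[A] Y :=
    { toFun := fun x => D x.1
      map_add' := fun x y => map_add D _ _
      map_smul' := fun a x => by
        have := hD a x.1
        rw [show μ0 x.1 = 0 from x.2, map_zero, add_zero] at this
        exact this }
  obtain ⟨G, hG⟩ := (se_ker μ hμ).extend h D'
  have h1 : c 1 = 0 := by
    have := hc 1 1
    simpa using this
  refine ⟨G.restrictScalars k ∘ₗ TensorProduct.mk k A Y 1, fun a => ?_⟩
  ext y
  have hm : a ⊗ₜ[k] y - 1 ⊗ₜ[k] (a • y) ∈ LinearMap.ker μ := by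
    rw [LinearMap.mem_ker]
    change μ0 _ = 0
    simp [μ0]
  have h2 : G (a ⊗ₜ[k] y - 1 ⊗ₜ[k] (a • y)) = D (a ⊗ₜ[k] y - 1 ⊗ₜ[k] (a • y)) :=
    LinearMap.congr_fun hG ⟨_, hm⟩
  have h3 : G (a ⊗ₜ[k] y) = a • G (1 ⊗ₜ[k] y) := by
    rw [← map_smul]
    congr 1
    change _ = (a * 1) ⊗ₜ[k] y
    rw [mul_one]
  rw [map_sub, map_sub, h3] at h2
  simp only [D, TensorProduct.lift.tmul, h1, LinearMap.zero_apply, sub_zero] at h2
  exact h2.symm

section transfer

variable {V : Type} [AddCommGroup V] [Module k V]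

/-- The non-unital representation on `V` attached to a retract. -/
def rep (Y : FMod k A) (i : Y →ₗ[k] V) (p : V →ₗ[k] Y) : A →ₗ[k] Module.End k V where
  toFun a := i ∘ₗ act Y a ∘ₗ p
  map_add' a b := by ext; simp
  map_smul' c a := by ext; simp

omit [FiniteDimensional k A] in
theorem rep_apply (Y : FMod k A) (i : Y →ₗ[k] V) (p : V →ₗ[k] Y) (a : A) (x : V) :
    rep Y i p a x = i (a • p x) := rfl

omit [FiniteDimensional k A] in
theorem rep_mul (Y : FMod k A) (i : Y →ₗ[k] V) (p : V →ₗ[k] Y) (h : ∀ y, p (i y) = y)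
    (a b : A) : rep Y i p (a * b) = rep Y i p a * rep Y i p b := by
  ext x
  simp [rep_apply, h, mul_smul]

theorem rep_inner (Y : FMod k A) (hY : ed Y Y 1 = 0) (i : Y →ₗ[k] V) (p : V →ₗ[k] Y)
    (h : ∀ y, p (i y) = y) (c : A →ₗ[k] Module.End k V)
    (hc : ∀ a b, c (a * b) = rep Y i p a * c b + c a * rep Y i p b) :
    ∃ z : Module.End k V, ∀ a, c a = rep Y i p a * z - z * rep Y i p a := by
  let c' : A →ₗ[k] Module.End k Y :=
    { toFun := fun a => p ∘ₗ c a ∘ₗ i
      map_add' := fun a b => by ext; simp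
      map_smul' := fun t a => by ext; simp }
  obtain ⟨z, hz⟩ := inner_of_ed Y hY c' fun a b => by
    ext y
    simp [c', hc, rep_apply, h]
  set θ := rep Y i p with hθ
  have hm := rep_mul Y i p h
  rw [← hθ] at hm
  have e1 : ∀ a, θ 1 * θ a = θ a := fun a => by rw [← hm, one_mul]
  have e2 : ∀ a, θ a * θ 1 = θ a := fun a => by rw [← hm, mul_one]
  have e3 : θ 1 * c 1 * θ 1 = 0 := by
    have := congrArg (fun t => θ 1 * t) (hc 1 1)
    simp only [mul_one, mul_add, ← mul_assoc, e1] at this
    simpa using this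
  have e4 : ∀ a, θ 1 * c a * θ 1 = θ a * (i ∘ₗ z ∘ₗ p) - (i ∘ₗ z ∘ₗ p) * θ a := fun a => by
    ext x
    have := LinearMap.congr_fun (hz a) (p x)
    simp only [c', LinearMap.coe_mk, AddHom.coe_mk, LinearMap.comp_apply, LinearMap.sub_apply,
      Module.End.mul_apply, Algebra.lsmul_coe] at this
    simp [hθ, rep_apply, h, this]
  refine ⟨i ∘ₗ z ∘ₗ p + (θ 1 * c 1 - c 1 * θ 1), fun a => ?_⟩
  have f1 := hc 1 a
  have f2 := hc a 1
  rw [one_mul] at f1
  rw [mul_one] at f2
  have f3 : c a = θ a * c 1 + θ 1 * c a * θ 1 + c 1 * θ a := by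
    conv_lhs => rw [f1, f2]
    rw [mul_add, ← mul_assoc, e1, mul_assoc]
  have f4 : θ a * c 1 * θ 1 = 0 := by rw [← e2 a, mul_assoc (θ a), mul_assoc (θ a), e3, mul_zero]
  have f5 : θ 1 * c 1 * θ a = 0 := by rw [← e1 a, ← mul_assoc, e3, zero_mul]
  rw [f3, e4, mul_add, add_mul, mul_sub, sub_mul, ← mul_assoc, ← mul_assoc, e2, f4, f5,
    mul_assoc (c 1), e1]
  abel

omit [FiniteDimensional k A] in
theorem inAdd_of_sum (Y Y' : FMod k A) (i : Y →ₗ[k] V) (p : V →ₗ[k] Y) (h : ∀ y, p (i y) = y)
    (i' : Y' →ₗ[k] V) (p' : V →ₗ[k] Y') (h' : ∀ y, p' (i' y) = y) {N : ℕ} (t : Fin N → k)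
    (φ ψ : Fin N → Module.End k V) (hφ : ∀ l a, rep Y' i' p' a * φ l = φ l * rep Y i p a)
    (hψ : ∀ l a, rep Y i p a * ψ l = ψ l * rep Y' i' p' a)
    (hs : ∑ l, t l • (φ l * ψ l) = 1) : InAdd Y Y' := by
  let Φ : Fin N → (Y →ₗ[A] Y') := fun l =>
    { toFun := fun y => p' (φ l (i y))
      map_add' := fun x y => by simp
      map_smul' := fun a y => by
        have := congrArg p' (LinearMap.congr_fun (hφ l a) (i y))
        simpa [rep_apply, h, h'] using this.symm }
  let Ψ : Fin N → (Y' →ₗ[A] Y) := fun l =>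
    { toFun := fun y => p (ψ l (i' y))
      map_add' := fun x y => by simp
      map_smul' := fun a y => by
        have := congrArg p (LinearMap.congr_fun (hψ l a) (i' y))
        simpa [rep_apply, h, h'] using this.symm }
  refine ⟨N, LinearMap.pi Ψ, ∑ l, t l • (Φ l ∘ₗ LinearMap.proj l), ?_⟩
  ext y
  have e : ∀ l, i (p (ψ l (i' y))) = ψ l (i' y) := fun l => by
    have := LinearMap.congr_fun (hψ l 1) (i' y)
    simpa [rep_apply, h'] using this
  have := congrArg p' (LinearMap.congr_fun hs (i' y))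
  simp only [LinearMap.sum_apply, LinearMap.smul_apply, Module.End.mul_apply, map_sum, map_smul,
    Module.End.one_apply, h'] at this
  simpa [Φ, Ψ, e] using this

end transfer

theorem exists_pair (B : ℕ → BMod k A) (hB : ∀ j, Module.Projective A (B j).toFMod) (n : ℕ)
    (p : ∀ j, (Fin n → A) →ₗ[A] (B j).toFMod) (hp : ∀ j, Function.Surjective (p j)) :
    ∃ j j', j < j' ∧ ∀ X : FMod k A, ed (HomF (B j) X) (HomF (B j) X) 1 = 0 →
      ed (HomF (B j') X) (HomF (B j') X) 1 = 0 → InAdd (HomF (B j) X) (HomF (B j') X) := by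
  classical
  choose s hs using fun j => Module.projective_lifting_property (p j) LinearMap.id (hp j)
  have hs' : ∀ j y, p j (s j y) = y := fun j => LinearMap.congr_fun (hs j)
  let b := Module.finBasis k A
  obtain ⟨j, j', hjj, H⟩ := family (k := k) (fun α β γ => b.repr (b α * b β) γ)
    (σ := Fin (finrank k A) × Fin n × Fin n × Fin (finrank k A))
    (fun j q => b.repr (s j ((B j).r (op (b q.1)) (p j (Pi.single q.2.1 1))) q.2.2.1) q.2.2.2)
  refine ⟨j, j', hjj, fun X h1 h2 => ?_⟩
  let e := LinearMap.toMatrixAlgEquiv (Module.finBasis k (Fin n → X))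
  let i : ∀ j, HomF (B j) X →ₗ[k] (Fin n → X) := fun j =>
    { toFun := fun h u => h.l (p j (Pi.single u 1))
      map_add' := fun x y => rfl
      map_smul' := fun c x => rfl }
  let q : ∀ j, (Fin n → X) →ₗ[k] HomF (B j) X := fun j =>
    { toFun := fun x => ⟨Fintype.linearCombination A x ∘ₗ s j⟩
      map_add' := fun x y => by
        ext; simp [Fintype.linearCombination_apply, Finset.sum_add_distrib]
      map_smul' := fun c x => by
        ext; simp [Fintype.linearCombination_apply, Finset.smul_sum, smul_comm c] }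
  have hqi : ∀ j y, q j (i j y) = y := fun j y => by
    ext z
    change ∑ u, s j z u • y.l (p j (Pi.single u 1)) = y.l z
    simp only [← map_smul, ← map_sum, ← Pi.single_smul, smul_eq_mul, mul_one,
      Finset.univ_sum_single, hs']
  let T0 : Fin n → Fin n → A → Module.End k (Fin n → X) := fun u v a =>
    LinearMap.single k (fun _ => X) u ∘ₗ act X a ∘ₗ LinearMap.proj v
  have hrig : ∀ j, ed (HomF (B j) X) (HomF (B j) X) 1 = 0 →
      Rigid (fun α β γ => b.repr (b α * b β) γ)
        (fun α => e (rep (HomF (B j) X) (i j) (q j) (b α))) := fun j hj c hc => by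
    obtain ⟨z, hz⟩ := rep_inner (HomF (B j) X) hj (i j) (q j) (hqi j)
      (b.constr k fun α => e.symm (c α)) fun x y => by
        have : LinearMap.compr₂ (LinearMap.mul k A) (b.constr k fun α => e.symm (c α)) =
            (LinearMap.mul k _).compl₁₂ (rep (HomF (B j) X) (i j) (q j))
              (b.constr k fun α => e.symm (c α)) +
            (LinearMap.mul k _).compl₁₂ (b.constr k fun α => e.symm (c α))
              (rep (HomF (B j) X) (i j) (q j)) := by
          refine b.ext fun α => b.ext fun β => ?_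
          apply e.injective
          simp only [LinearMap.compr₂_apply, LinearMap.mul_apply', LinearMap.add_apply,
            LinearMap.compl₁₂_apply, Basis.constr_basis, map_add, map_mul,
            AlgEquiv.apply_symm_apply]
          rw [hc]
          conv_lhs => rw [← b.sum_repr (b α * b β)]
          simp only [map_sum, map_smul, Basis.constr_basis, AlgEquiv.apply_symm_apply]
        exact LinearMap.congr_fun (LinearMap.congr_fun this x) y
    refine ⟨e z, fun α => ?_⟩
    have := congrArg e (hz (b α))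
    simpa only [Basis.constr_basis, AlgEquiv.apply_symm_apply, map_sub, map_mul] using this
  have hmem := H _ (fun α q => if q.1 = α then e (T0 q.2.1 q.2.2.1 (b q.2.2.2)) else 0)
    (fun j α => e (rep (HomF (B j) X) (i j) (q j) (b α))) (fun j α => by
      rw [Fintype.sum_prod_type, Finset.sum_eq_single α (fun β _ hβ => by simp [hβ]) (by simp)]
      simp only [if_true, ← map_smul, ← map_sum]
      congr 1
      refine LinearMap.ext fun x => funext fun u => ?_
      rw [Fintype.sum_prod_type, LinearMap.sum_apply, Finset.sum_apply,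
        Finset.sum_eq_single u (fun u' _ hu => by
          simp [T0, LinearMap.sum_apply, Finset.sum_apply, Pi.single_eq_of_ne hu.symm]) (by simp),
        Fintype.sum_prod_type]
      change ∑ v, s j ((B j).r (op (b α)) (p j (Pi.single u 1))) v • x v = _
      simp only [LinearMap.sum_apply, Finset.sum_apply, T0, LinearMap.smul_apply,
        LinearMap.comp_apply, LinearMap.single_apply, Pi.smul_apply, Pi.single_eq_same,
        LinearMap.proj_apply, Algebra.lsmul_coe]
      refine Finset.sum_congr rfl fun v _ => ?_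
      simp only [← smul_assoc, ← Finset.sum_smul, Basis.sum_repr])
    (fun j α β => by
      rw [← map_mul, ← rep_mul _ _ _ (hqi j)]
      conv_lhs => rw [← b.sum_repr (b α * b β)]
      simp only [map_sum, map_smul])
    (hrig j h1) (hrig j' h2)
  obtain ⟨N, t, g, hg⟩ := Submodule.mem_span_set'.1 hmem
  choose φ ψ hφ hψ hgl using fun l => (g l).2
  have hext : ∀ (Y Y' : FMod k A) (i : Y →ₗ[k] (Fin n → X)) (p : (Fin n → X) →ₗ[k] Y)
      (i' : Y' →ₗ[k] (Fin n → X)) (p' : (Fin n → X) →ₗ[k] Y') (M : Matrix _ _ k),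
      (∀ α, e (rep Y' i' p' (b α)) * M = M * e (rep Y i p (b α))) →
      ∀ a, rep Y' i' p' a * e.symm M = e.symm M * rep Y i p a := fun Y Y' i p i' p' M hM a => by
    rw [← b.sum_repr a]
    simp only [map_sum, map_smul, Finset.sum_mul, Finset.mul_sum, smul_mul_assoc, mul_smul_comm]
    refine Finset.sum_congr rfl fun α _ => ?_
    congr 1
    apply e.injective
    simpa only [map_mul, AlgEquiv.apply_symm_apply] using hM α
  refine inAdd_of_sum _ _ (i j) (q j) (hqi j) (i j') (q j') (hqi j') t (fun l => e.symm (φ l))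
    (fun l => e.symm (ψ l)) (fun l => hext _ _ _ _ _ _ _ (hφ l))
    (fun l => hext _ _ _ _ _ _ _ (hψ l)) ?_
  apply e.injective
  simp only [map_sum, map_smul, map_mul, AlgEquiv.apply_symm_apply, map_one, ← hgl, hg]

section selfinj

variable [Module.Projective A (OmT k A)] [Module.Injective A A]

omit [Module.Projective A (OmT k A)] [Module.Injective A A] in
theorem ed_FF_co (hS : SepRad k A) (W X : FMod k A) (j t n : ℕ) :
    ed W (FF (j + t) X) (n + 1) = ed W (FF j X) (n + 1 + t) := by
  induction t generalizing n with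
  | zero => rfl
  | succ t ih =>
    obtain ⟨I, f, g, h, hI, -⟩ := exists_se_FF hS (j + t) X
    rw [← add_assoc, ← h.shift_co, ih, show n + 1 + 1 + t = n + 1 + (t + 1) by ring]

omit [Module.Injective A A] in
theorem ed_FF_both (hS : SepRad k A) (X : FMod k A) (j n : ℕ) :
    ed (FF j X) (FF j X) (n + 1) = ed X X (n + 1) := by
  induction j with
  | zero =>
    exact (ed_congr_co _ (Y := X) (homB0 X) _).trans (ed_congr_con _ (Y := X) (homB0 X) _)
  | succ j ih =>
    obtain ⟨I, f, g, h, hI, -⟩ := exists_se_FF hS j X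
    have := proj_of_inj I
    rw [← h.shift_co, h.shift_con, ih]

omit [Module.Injective A A] in
theorem proj_of_FF (hS : SepRad k A) (X : FMod k A) (j : ℕ)
    (h : Module.Projective A (FF j X)) : Module.Projective A X := by
  induction j with
  | zero =>
    have : Module.Projective A (HomT (toB (B0 k A)) X) := h
    exact Module.Projective.of_equiv' (homB0 X)
  | succ j ih =>
    obtain ⟨I, f, g, hs, hI, -⟩ := exists_se_FF hS j X
    have := proj_of_inj I
    obtain ⟨r, hr⟩ := hs.extend (ed_of_proj _ _ 0) LinearMap.id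
    exact ih (Module.Projective.of_split f r hr)

theorem exists_bound (hS : SepRad k A) {M : FMod k A} {d : ℕ} (h : CT M d) :
    ∃ R, ∀ X : FMod k A, (∀ i, 0 < i → i ≤ R → ed X X i = 0) → Module.Projective A X := by
  obtain ⟨C, hC⟩ := bdd_all h (SS k A) (SS k A)
  have hb : ∀ j, hd (toB (BB k A (j + 1))).toFMod (SS k A) * finrank k A ≤
      C * finrank k A * finrank k A := fun j => by
    refine Nat.mul_le_mul_right _ ?_
    have h1 : hd (toB (BB k A (j + 1))).toFMod (SS k A) = finrank k (FF (j + 1) (SS k A)) :=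
      (HomT.lequiv (toB (BB k A (j + 1))) (SS k A)).finrank_eq.symm
    rw [h1]
    refine (finrank_le_socle _).trans (Nat.mul_le_mul_right _ ?_)
    obtain ⟨I, f, g, hs, hI, H⟩ := exists_se_FF hS j (SS k A)
    refine (hs.hd_le_ed_one (H SS_kill)).trans ?_
    have h2 := ed_FF_co hS (SS k A) (SS k A) 0 j 0
    rw [zero_add] at h2
    rw [show (1 : ℕ) = 0 + 1 from rfl, h2, ed_congr_co _ (Y := SS k A) (homB0 (SS k A))]
    exact hC _
  choose p hp using fun j => exists_gen _ _ (hb j)
  obtain ⟨j, j', hjj, H⟩ := exists_pair (fun j => toB (BB k A (j + 1))) (fun j => BB_proj (j + 1))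
    _ p hp
  obtain ⟨t, rfl⟩ : ∃ t, j' = j + 1 + t := ⟨j' - (j + 1), by omega⟩
  refine ⟨t + 1, fun X hX => ?_⟩
  have hr : ∀ i, ed (FF i X) (FF i X) 1 = 0 := fun i =>
    (ed_FF_both hS X i 0).trans (hX _ (by omega) (by omega))
  have h1 := H X (hr (j + 1)) (hr (j + 1 + t + 1))
  have h2 : ed (FF (j + 1) X) (FF (j + 1 + t) X) 1 = 0 := by
    rw [show (1 : ℕ) = 0 + 1 from rfl, ed_FF_co hS, show 0 + 1 + t = t + 1 by ring, ed_FF_both hS]
    exact hX _ (by omega) le_rfl
  have h3 := h1.ed_con _ _ h2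
  obtain ⟨I, f, g, hs, hI, -⟩ := exists_se_FF hS (j + 1 + t) X
  have := proj_of_inj I
  obtain ⟨r, hr⟩ := hs.extend h3 LinearMap.id
  exact proj_of_FF hS X _ (Module.Projective.of_split f r hr)

omit [Module.Projective A (OmT k A)] [Module.Injective A A] in
theorem semisimple_of_ct_proj {M : FMod k A} {d : ℕ} (h : CT M d) [Module.Projective A M] :
    IsSemisimpleRing A := by
  refine (isSemisimpleModule_iff A A).2 ⟨fun I => ?_⟩
  obtain ⟨n, f, g, hfg⟩ := (h ((FMod.reg k A).quot I)).1.2 fun i h0 _ => by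
    obtain ⟨j, rfl⟩ := Nat.exists_eq_succ_of_ne_zero h0.ne'
    exact ed_of_proj _ _ _
  have : Module.Projective A (M.pi n) := projective_pi n
  have : Module.Projective A ((FMod.reg k A).quot I) := Module.Projective.of_split f g hfg
  obtain ⟨r, hr⟩ := (se_sub (FMod.reg k A) I).extend (W := (FMod.reg k A).sub I)
    (ed_of_proj _ _ 0) LinearMap.id
  exact ⟨_, LinearMap.isCompl_of_proj (f := r) (LinearMap.congr_fun hr)⟩

theorem finite_of_selfinj (hS : SepRad k A) (hA : ¬ IsSemisimpleRing A) :
    {d : ℕ | ∃ M : FMod k A, CT M d}.Finite := by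
  rcases Set.eq_empty_or_nonempty {d : ℕ | ∃ M : FMod k A, CT M d} with h | ⟨d, M, h⟩
  · rw [h]; exact Set.finite_empty
  obtain ⟨R, hR⟩ := exists_bound hS h
  refine (Set.finite_le_nat R).subset ?_
  rintro d' ⟨N, hN⟩
  by_contra hlt
  have := hR N fun i h0 hi => hN.ed_self h0 (lt_of_le_of_lt hi (not_le.1 hlt))
  exact hA (semisimple_of_ct_proj hN)

end selfinj

theorem sepRad_of_perfect [PerfectField k] : SepRad k A := by
  have : IsArtinianRing A := IsArtinianRing.of_finite k A
  exact jacobson_tensor_eq_bot _ _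

end Pool.Agent.P.MP_b7bea3_al
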