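import Pool.Agent.P.MP_b7bea3_al.Phi

/-! The inverse Nakayama functor is fully faithful and preserves Ext; cosyzygies. -/

open Module MulOpposite

namespace Pool.Agent.P.MP_b7bea3_al

variable {k A : Type} [Field k] [Ring A] [Algebra k A] [FiniteDimensional k A]

variable (k A) in
/-- The dual of the regular module is a generator. -/
def Gen : Prop :=
  ∃ (b : ℕ) (r : Fin b → (OmT k A →ₗ[A] A)) (w : Fin b → OmT k A), ∑ i, r i (w i) = 1

theorem gen_of_injective [hA : Module.Injective A A] : Gen k A := by
  obtain ⟨b, u, hu⟩ := exists_embed (FMod.reg k A)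
  obtain ⟨r, hr⟩ := hA.out (X := A) (Y := Fin b → OmT k A) u hu LinearMap.id
  refine ⟨b, fun i => r ∘ₗ LinearMap.single A (fun _ => OmT k A) i, u 1, ?_⟩
  simp only [LinearMap.comp_apply, LinearMap.single_apply, ← map_sum, Finset.univ_sum_single]
  exact hr 1

theorem key_relation (hG : Gen k A) {X Y : FMod k A}
    (ψ : HomT (OmB k A) X →ₗ[A] HomT (OmB k A) Y) {J : Type} [Fintype J]
    (u : J → HomT (OmB k A) X) (v : J → OmT k A) (h : ∑ j, (u j).l (v j) = 0) :
    ∑ j, (ψ (u j)).l (v j) = 0 := by
  obtain ⟨b, r, w, hw⟩ := hG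
  choose a ha using fun (i : Fin b) (j : J) =>
    omR_surj (k := k) (A := A) (LinearMap.toSpanSingleton A (OmT k A) (v j) ∘ₗ r i)
  have ha' : ∀ i j f, omR (a i j) f = r i f • v j := fun i j f => by rw [ha]; rfl
  have h1 : ∀ i, ∑ j, a i j • u j = 0 := fun i => by
    ext f
    simp only [HomT.l_sum, HomT.l_asmul, omRHom_op, LinearMap.sum_apply, LinearMap.comp_apply, ha',
      map_smul, HomT.l_zero, LinearMap.zero_apply, ← Finset.smul_sum]
    erw [h]
    rw [smul_zero]
  have h2 : ∀ i, ∑ j, r i (w i) • (ψ (u j)).l (v j) = 0 := fun i => by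
    have := congrArg (fun z => (ψ z).l (w i)) (h1 i)
    simpa only [map_sum, map_smul, HomT.l_sum, HomT.l_asmul, omRHom_op, LinearMap.sum_apply,
      LinearMap.comp_apply, ha', map_zero, HomT.l_zero, LinearMap.zero_apply] using this
  have h3 : ∑ i, ∑ j, r i (w i) • (ψ (u j)).l (v j) = 0 := Finset.sum_eq_zero fun i _ => h2 i
  simpa only [← Finset.smul_sum, ← Finset.sum_smul, hw, one_smul] using h3

/-- The action of `Phi` on Hom spaces. -/
def phiHom (X Y : FMod k A) : (X →ₗ[A] Y) →ₗ[k] (Phi X →ₗ[A] Phi Y) where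
  toFun f := HomF.map (OmB k A) f
  map_add' f g := by ext; simp
  map_smul' c f := by ext; simp

theorem phiHom_bijective (hG : Gen k A) (X Y : FMod k A) : Function.Bijective (phiHom X Y) := by
  obtain ⟨b, r, w, hw⟩ := id hG
  let U : Fin b → X → HomT (OmB k A) X := fun i x => ⟨LinearMap.toSpanSingleton A X x ∘ₗ r i⟩
  have hU : ∀ x, ∑ i, (U i x).l (w i) = x := fun x => by
    simp only [U, LinearMap.comp_apply, LinearMap.toSpanSingleton_apply, ← Finset.sum_smul, hw,
      one_smul]
  constructor
  · rw [← LinearMap.ker_eq_bot, LinearMap.ker_eq_bot']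
    intro f hf
    ext x
    rw [← hU x, map_sum]
    exact Finset.sum_eq_zero fun i _ =>
      congrArg (fun z : HomT (OmB k A) Y => z.l (w i)) (LinearMap.congr_fun hf (U i x))
  · intro ψ
    have K : ∀ (u : HomT (OmB k A) X) (v : OmT k A),
        ∑ i, (ψ (U i (u.l v))).l (w i) = (ψ u).l v := fun u v => by
      have := key_relation hG ψ (J := Option (Fin b)) (fun o => o.elim u fun i => U i (u.l v))
        (fun o => o.elim (-v) w) (by simp [Fintype.sum_option, hU])
      simp only [Fintype.sum_option, Option.elim, map_neg] at this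
      exact (neg_add_eq_zero.1 this).symm
    refine ⟨{ toFun := fun x => ∑ i, (ψ (U i x)).l (w i)
              map_add' := fun x y => ?_
              map_smul' := fun a x => ?_ }, ?_⟩
    · have : ∀ i, U i (x + y) = U i x + U i y := fun i => by ext; simp [U]
      simp [this, Finset.sum_add_distrib]
    · have := key_relation hG ψ (J := Fin b ⊕ Fin b) (Sum.elim (fun i => U i (a • x)) fun i => U i x)
        (Sum.elim w fun i => -(a • w i)) (by
          simp only [Fintype.sum_sum_type, Sum.elim_inl, Sum.elim_inr, map_neg, map_smul,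
            Finset.sum_neg_distrib, ← Finset.smul_sum, hU, add_neg_cancel])
      simp only [Fintype.sum_sum_type, Sum.elim_inl, Sum.elim_inr, map_neg, map_smul,
        Finset.sum_neg_distrib, ← Finset.smul_sum] at this
      exact add_neg_eq_zero.1 this
    · ext u v
      exact K u v

theorem hd_phi (hG : Gen k A) (X Y : FMod k A) : hd (Phi X) (Phi Y) = hd X Y :=
  (LinearEquiv.ofBijective _ (phiHom_bijective hG X Y)).finrank_eq.symm

/-- Simple or zero. -/
def Sm (T : FMod k A) : Prop := ∀ N : Submodule A T, N = ⊥ ∨ N = ⊤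

theorem Sm.phi [Module.Projective A (OmT k A)] {T : FMod k A} (h : Sm T) : Sm (Phi T) := by
  intro N
  by_cases hN : N = ⊥
  · exact Or.inl hN
  right
  obtain ⟨f, hf, hf0⟩ := Submodule.exists_mem_ne_zero_of_ne_bot hN
  have hs : Function.Surjective f.l := by
    rcases h (LinearMap.range f.l) with h1 | h1
    · exact absurd (HomT.ext (LinearMap.range_eq_bot.1 h1)) hf0
    · exact LinearMap.range_eq_top.1 h1
  rw [Submodule.eq_top_iff']
  intro g
  obtain ⟨u, hu⟩ := Module.projective_lifting_property (P := OmT k A) f.l g.l hs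
  obtain ⟨a, rfl⟩ := omR_surj u
  have : g = a • f := HomT.ext hu.symm
  rw [this]
  exact N.smul_mem a hf

theorem Sm.finrank_le {T : FMod k A} (h : Sm T) : finrank k T ≤ finrank k A := by
  by_cases hT : Subsingleton T
  · rw [Module.finrank_zero_of_subsingleton]; exact Nat.zero_le _
  have : Nontrivial T := not_subsingleton_iff_nontrivial.1 hT
  obtain ⟨x, hx⟩ := exists_ne (0 : T)
  have hs : Function.Surjective (LinearMap.toSpanSingleton A T x) := by
    rcases h (LinearMap.range (LinearMap.toSpanSingleton A T x)) with h1 | h1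
    · exact absurd (by simpa using LinearMap.congr_fun (LinearMap.range_eq_bot.1 h1) 1) hx
    · exact LinearMap.range_eq_top.1 h1
  exact LinearMap.finrank_le_finrank_of_surjective
    (f := (LinearMap.toSpanSingleton A T x).restrictScalars k) hs

/-- Rank of the chosen injective hull. -/
noncomputable def coN (X : FMod k A) : ℕ := (exists_embed X).choose

/-- The chosen embedding. -/
noncomputable def coI (X : FMod k A) : X →ₗ[A] (Om k A).pi (coN X) :=
  (exists_embed X).choose_spec.choose

/-- The chosen cosyzygy. -/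
noncomputable def co (X : FMod k A) : FMod k A :=
  ((Om k A).pi (coN X)).quot (LinearMap.range (coI X))

/-- The projection to the cosyzygy. -/
noncomputable def coP (X : FMod k A) : (Om k A).pi (coN X) →ₗ[A] co X :=
  (LinearMap.range (coI X)).mkQ

theorem se_co (X : FMod k A) : SE (coI X) (coP X) :=
  se_coker _ (exists_embed X).choose_spec.choose_spec

theorem ed_co (W X : FMod k A) (n : ℕ) : ed W X (n + 1 + 1) = ed W (co X) (n + 1) :=
  (se_co X).shift_co W n

theorem ed_co_iter (W X : FMod k A) (j n : ℕ) :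
    ed W X (n + 1 + j) = ed W (co^[j] X) (n + 1) := by
  induction j generalizing X with
  | zero => rfl
  | succ j ih =>
    rw [Function.iterate_succ_apply, ← ih, show n + 1 + (j + 1) = n + j + 1 + 1 by ring, ed_co,
      show n + j + 1 = n + 1 + j by ring]

section selfinj

variable [Module.Projective A (OmT k A)] [Module.Injective A A]

omit [Module.Injective A A] in
theorem se_phi {X Y Z : FMod k A} {f : X →ₗ[A] Y} {g : Y →ₗ[A] Z} (h : SE f g) :
    SE (X := Phi X) (Y := Phi Y) (Z := Phi Z) (HomF.map (OmB k A) f) (HomF.map (OmB k A) g) :=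
  have : Module.Projective A (OmB k A).toFMod := inferInstanceAs (Module.Projective A (OmT k A))
  h.homF_map (OmB k A)

theorem ed_phi (W X : FMod k A) (n : ℕ) : ed (Phi W) (Phi X) (n + 1) = ed W X (n + 1) := by
  induction n generalizing X with
  | zero =>
    have h1 := (se_co X).euler_co W (ed_of_inj _ _ 0)
    have h2 := (se_phi (se_co X)).euler_co (Phi W) (ed_of_inj _ _ 0)
    simp only [hd_phi gen_of_injective] at h2
    change ed _ _ 1 = ed _ _ 1
    omega
  | succ n ih => rw [ed_co W X, (se_phi (se_co X)).shift_co, ih]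

omit [Module.Injective A A] in
/-- Numerical Auslander-Reiten formula. -/
theorem ar_one (N Y : FMod k A) : ed (Phi (co (co (co Y)))) N 1 = ed N Y 1 := by
  have h1 := (se_co Y).euler_co N (ed_of_inj _ _ 0)
  have h2 := (se_phi (se_co (co (co Y)))).euler_con N (ed_of_proj _ _ 0)
  have h3 := ar_aux N (se_co Y) (se_co (co Y))
  have h4 := ar_aux N (se_co (co Y)) (se_co (co (co Y)))
  rw [hd_pi_om] at h1
  rw [hd_phi_pi] at h2
  omega

omit [Module.Injective A A] in
theorem ed_phi_co (N Y : FMod k A) (n : ℕ) :
    ed (Phi (co Y)) N (n + 1 + 1) = ed (Phi Y) N (n + 1) :=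
  (se_phi (se_co Y)).shift_con N n

omit [Module.Injective A A] in
theorem ed_phi_co_iter (N Y : FMod k A) (j n : ℕ) :
    ed (Phi (co^[j] Y)) N (n + 1 + j) = ed (Phi Y) N (n + 1) := by
  induction j with
  | zero => rfl
  | succ j ih =>
    rw [Function.iterate_succ_apply', show n + 1 + (j + 1) = n + j + 1 + 1 by ring, ed_phi_co,
      show n + j + 1 = n + 1 + j by ring, ih]

omit [Module.Injective A A] in
theorem ar_gen (N Y : FMod k A) (i j : ℕ) :
    ed (Phi (co^[i + j + 3] Y)) N (i + 1) = ed N Y (j + 1) := by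
  rw [show i + j + 3 = i + (3 + j) by ring, Function.iterate_add_apply,
    show i + 1 = 0 + 1 + i by ring, ed_phi_co_iter, Function.iterate_add_apply,
    show j + 1 = 0 + 1 + j by ring, ed_co_iter]
  exact ar_one N _

omit [Module.Injective A A] in
theorem proj_of_inj (X : FMod k A) [hX : Module.Injective A X] : Module.Projective A X := by
  obtain ⟨b, u, hu⟩ := exists_embed X
  obtain ⟨r, hr⟩ := hX.out (X := X) (Y := (Om k A).pi b) u hu LinearMap.id
  exact Module.Projective.of_split u r (LinearMap.ext hr)

omit [Module.Projective A (OmT k A)] in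
theorem inj_of_proj (X : FMod k A) [Module.Projective A X] : Module.Injective A X := by
  obtain ⟨b, g, hg⟩ := exists_cover X
  obtain ⟨s, hs⟩ := Module.projective_lifting_property g LinearMap.id hg
  exact injective_of_retract s g hs

omit [Module.Projective A (OmT k A)] in
/-- `Ext¹` out of a cosyzygy does not depend on the choice. -/
theorem ed_cosyz_indep {X J Z J' Z' : FMod k A} {f : X →ₗ[A] J} {g : J →ₗ[A] Z} (h : SE f g)
    {f' : X →ₗ[A] J'} {g' : J' →ₗ[A] Z'} (h' : SE f' g') [Module.Projective A J]
    [Module.Projective A J'] (W : FMod k A) : ed Z W 1 = ed Z' W 1 := by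
  obtain ⟨b, p, hp⟩ := exists_cover W
  have hs := se_ker p hp
  rw [show (1 : ℕ) = 0 + 1 from rfl, ← hs.shift_co, ← hs.shift_co, h.shift_con, h'.shift_con]

end selfinj

end Pool.Agent.P.MP_b7bea3_al
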