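import Pool.Agent.P.MP_b7bea3_al.Basic

/-! Numerical lemmas on dimensions of Ext groups. -/

open CategoryTheory CategoryTheory.Abelian Module

namespace Pool.Agent.P.MP_b7bea3_al

variable {k A : Type} [Field k] [Ring A] [Algebra k A]

/-- Finite powers. -/
abbrev FMod.pi (X : FMod k A) (n : ℕ) : FMod k A := FMod.of k A (Fin n → X)

instance (X : FMod k A) (N : Submodule A X) : FiniteDimensional k N :=
  FiniteDimensional.of_injective (N.subtype.restrictScalars k) N.subtype_injective

instance (X : FMod k A) (N : Submodule A X) : FiniteDimensional k (X ⧸ N) :=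
  Module.Finite.of_surjective (N.mkQ.restrictScalars k) N.mkQ_surjective

/-- Submodules. -/
abbrev FMod.sub (X : FMod k A) (N : Submodule A X) : FMod k A := FMod.of k A N

/-- Quotients. -/
abbrev FMod.quot (X : FMod k A) (N : Submodule A X) : FMod k A := FMod.of k A (X ⧸ N)

variable (k A) in
/-- The regular module. -/
abbrev FMod.reg [FiniteDimensional k A] : FMod k A := FMod.of k A A

theorem se_sub (X : FMod k A) (N : Submodule A X) :
    SE (X := X.sub N) (Y := X) (Z := X.quot N) N.subtype N.mkQ :=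
  ⟨N.subtype_injective, LinearMap.exact_subtype_mkQ N, N.mkQ_surjective⟩

theorem se_ker {Y Z : FMod k A} (g : Y →ₗ[A] Z) (hg : Function.Surjective g) :
    SE (X := Y.sub (LinearMap.ker g)) (LinearMap.ker g).subtype g :=
  ⟨Submodule.subtype_injective _, LinearMap.exact_subtype_ker_map g, hg⟩

theorem se_coker {X Y : FMod k A} (f : X →ₗ[A] Y) (hf : Function.Injective f) :
    SE (Z := Y.quot (LinearMap.range f)) f (LinearMap.range f).mkQ :=
  ⟨hf, LinearMap.exact_map_mkQ_range f, Submodule.mkQ_surjective _⟩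

theorem finrank_le_of_exact {U V W : Type*} [AddCommGroup U] [AddCommGroup V] [AddCommGroup W]
    [Module k U] [Module k V] [Module k W] [FiniteDimensional k U] [FiniteDimensional k V]
    [FiniteDimensional k W] {f : U →ₗ[k] V} {g : V →ₗ[k] W} (h : Function.Exact f g) :
    finrank k V ≤ finrank k U + finrank k W := by
  have h1 := LinearMap.finrank_range_add_finrank_ker g
  have h2 : LinearMap.ker g = LinearMap.range f := LinearMap.exact_iff.1 h
  have h3 := LinearMap.finrank_range_le f
  have h4 := (LinearMap.range g).finrank_le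
  rw [h2] at h1
  omega

theorem finite_of_exact {U V W : Type*} [AddCommGroup U] [AddCommGroup V] [AddCommGroup W]
    [Module k U] [Module k V] [Module k W] [FiniteDimensional k U]
    [FiniteDimensional k W] {f : U →ₗ[k] V} {g : V →ₗ[k] W} (h : Function.Exact f g) :
    FiniteDimensional k V := by
  have h2 : LinearMap.ker g = LinearMap.range f := LinearMap.exact_iff.1 h
  have : FiniteDimensional k (LinearMap.ker g) := by rw [h2]; infer_instance
  have : FiniteDimensional k (V ⧸ LinearMap.ker g) :=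
    LinearEquiv.finiteDimensional g.quotKerEquivRange.symm
  exact Module.Finite.of_submodule_quotient (LinearMap.ker g)

theorem exists_cover [FiniteDimensional k A] (X : FMod k A) :
    ∃ (n : ℕ) (g : (FMod.reg k A).pi n →ₗ[A] X), Function.Surjective g :=
  Module.Finite.exists_fin' A X

instance [FiniteDimensional k A] (n : ℕ) : Module.Projective A ((FMod.reg k A).pi n) :=
  inferInstanceAs (Module.Projective A (Fin n → A))

instance finite_EE [FiniteDimensional k A] (X Y : FMod k A) (n : ℕ) :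
    FiniteDimensional k (EE X Y n) := by
  induction n generalizing X with
  | zero => exact LinearEquiv.finiteDimensional (LinearEquiv.ofBijective m0 m0_bijective)
  | succ n ih =>
    obtain ⟨m, g, hg⟩ := exists_cover X
    have h := se_ker g hg
    have := sub_of_proj ((FMod.reg k A).pi m) Y n
    exact finite_of_exact (h.con3 Y n)

variable [FiniteDimensional k A]

theorem ed_eq_zero_iff (X Y : FMod k A) (n : ℕ) : ed X Y n = 0 ↔ Subsingleton (EE X Y n) :=
  Module.finrank_zero_iff

theorem ed_of_inj (W X : FMod k A) [Module.Injective A X] (n : ℕ) : ed W X (n + 1) = 0 :=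
  (ed_eq_zero_iff _ _ _).2 (sub_of_inj W X n)

theorem ed_of_proj (X W : FMod k A) [Module.Projective A X] (n : ℕ) : ed X W (n + 1) = 0 :=
  (ed_eq_zero_iff _ _ _).2 (sub_of_proj X W n)

section les

variable {X Y Z : FMod k A} {f : X →ₗ[A] Y} {g : Y →ₗ[A] Z}

theorem SE.le_co1 (h : SE f g) (W : FMod k A) (n : ℕ) :
    ed W X (n + 1) ≤ ed W Z n + ed W Y (n + 1) := finrank_le_of_exact (h.co1 W n)

theorem SE.le_co2 (h : SE f g) (W : FMod k A) (n : ℕ) :
    ed W Y n ≤ ed W X n + ed W Z n := finrank_le_of_exact (h.co2 W n)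

theorem SE.le_co3 (h : SE f g) (W : FMod k A) (n : ℕ) :
    ed W Z n ≤ ed W Y n + ed W X (n + 1) := finrank_le_of_exact (h.co3 W n)

theorem SE.le_con1 (h : SE f g) (W : FMod k A) (n : ℕ) :
    ed X W n ≤ ed Y W n + ed Z W (n + 1) := finrank_le_of_exact (h.con1 W n)

theorem SE.le_con2 (h : SE f g) (W : FMod k A) (n : ℕ) :
    ed Y W n ≤ ed Z W n + ed X W n := finrank_le_of_exact (h.con2 W n)

theorem SE.le_con3 (h : SE f g) (W : FMod k A) (n : ℕ) :
    ed Z W (n + 1) ≤ ed X W n + ed Y W (n + 1) := finrank_le_of_exact (h.con3 W n)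

/-- Dimension shifting in the second variable. -/
theorem SE.shift_co (h : SE f g) [Module.Injective A Y] (W : FMod k A) (n : ℕ) :
    ed W X (n + 1 + 1) = ed W Z (n + 1) := by
  have h1 := h.le_co1 W (n + 1)
  have h2 := h.le_co3 W (n + 1)
  rw [ed_of_inj W Y] at h1 h2
  omega

/-- Dimension shifting in the first variable. -/
theorem SE.shift_con (h : SE f g) [Module.Projective A Y] (W : FMod k A) (n : ℕ) :
    ed Z W (n + 1 + 1) = ed X W (n + 1) := by
  have h1 := h.le_con1 W (n + 1)
  have h2 := h.le_con3 W (n + 1)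
  rw [ed_of_proj Y W] at h1 h2
  omega

omit [FiniteDimensional k A] in
theorem post_zero_injective (W : FMod k A) (hf : Function.Injective f) :
    Function.Injective (post W f 0) := by
  rw [← LinearMap.ker_eq_bot, LinearMap.ker_eq_bot']
  intro x hx
  obtain ⟨u, rfl⟩ := m0_bijective.2 x
  rw [post_m0, ← map_zero m0] at hx
  have := m0_bijective.1 hx
  have hu : u = 0 := by
    ext w
    exact hf (by simpa using LinearMap.congr_fun this w)
  rw [hu, map_zero]

/-- Euler characteristic formula for `Ext¹`. -/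
theorem SE.euler_co (h : SE f g) (W : FMod k A) (hY : ed W Y 1 = 0) :
    ed W X 1 + hd W Y = hd W X + hd W Z := by
  have := (ed_eq_zero_iff _ _ _).1 hY
  have hs : Function.Surjective (h.dco W 0) := fun x =>
    (h.co1 W 0 x).1 (Subsingleton.elim _ _)
  have h1 := LinearMap.finrank_range_add_finrank_ker (h.dco W 0)
  have h2 := LinearMap.finrank_range_add_finrank_ker (post W g 0)
  have h3 := LinearMap.finrank_range_of_inj (post_zero_injective W h.inj)
  rw [LinearMap.exact_iff.1 (h.co3 W 0), LinearMap.range_eq_top.2 hs, finrank_top] at h1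
  rw [LinearMap.exact_iff.1 (h.co2 W 0)] at h2
  change _ = ed _ _ 0 at h3
  change ed _ _ 1 + _ = ed _ _ 0 at h1
  change _ = ed _ _ 0 at h2
  simp only [← ed_zero]
  omega

omit [FiniteDimensional k A] in
theorem pre_zero_injective (W : FMod k A) (hg : Function.Surjective g) :
    Function.Injective (pre W g 0) := by
  rw [← LinearMap.ker_eq_bot, LinearMap.ker_eq_bot']
  intro x hx
  obtain ⟨u, rfl⟩ := m0_bijective.2 x
  rw [pre_m0, ← map_zero m0] at hx
  have := m0_bijective.1 hx
  have hu : u = 0 := by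
    ext w
    obtain ⟨y, rfl⟩ := hg w
    simpa using LinearMap.congr_fun this y
  rw [hu, map_zero]

/-- Euler characteristic formula for `Ext¹`, contravariant form. -/
theorem SE.euler_con (h : SE f g) (W : FMod k A) (hY : ed Y W 1 = 0) :
    ed Z W 1 + hd Y W = hd Z W + hd X W := by
  have := (ed_eq_zero_iff _ _ _).1 hY
  have hs : Function.Surjective (h.dcon W 0) := fun x =>
    (h.con3 W 0 x).1 (Subsingleton.elim _ _)
  have h1 := LinearMap.finrank_range_add_finrank_ker (h.dcon W 0)
  have h2 := LinearMap.finrank_range_add_finrank_ker (pre W f 0)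
  have h3 := LinearMap.finrank_range_of_inj (pre_zero_injective W h.surj)
  rw [LinearMap.exact_iff.1 (h.con1 W 0), LinearMap.range_eq_top.2 hs, finrank_top] at h1
  rw [LinearMap.exact_iff.1 (h.con2 W 0)] at h2
  change _ = ed _ _ 0 at h3
  change ed _ _ 1 + _ = ed _ _ 0 at h1
  change _ = ed _ _ 0 at h2
  simp only [← ed_zero]
  omega

/-- Lifting along `g` when `Ext¹(W, X) = 0`. -/
theorem SE.lift (h : SE f g) {W : FMod k A} (hW : ed W X 1 = 0) (u : W →ₗ[A] Z) :
    ∃ v : W →ₗ[A] Y, g ∘ₗ v = u := by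
  have := (ed_eq_zero_iff _ _ _).1 hW
  obtain ⟨y, hy⟩ := (h.co3 W 0 (m0 u)).1 (Subsingleton.elim _ _)
  obtain ⟨v, rfl⟩ := m0_bijective.2 y
  rw [post_m0] at hy
  exact ⟨v, m0_bijective.1 hy⟩

/-- Extension along `f` when `Ext¹(Z, W) = 0`. -/
theorem SE.extend (h : SE f g) {W : FMod k A} (hW : ed Z W 1 = 0) (u : X →ₗ[A] W) :
    ∃ v : Y →ₗ[A] W, v ∘ₗ f = u := by
  have := (ed_eq_zero_iff _ _ _).1 hW
  obtain ⟨y, hy⟩ := (h.con1 W 0 (m0 u)).1 (Subsingleton.elim _ _)
  obtain ⟨v, rfl⟩ := m0_bijective.2 y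
  rw [pre_m0] at hy
  exact ⟨v, m0_bijective.1 hy⟩

/-- Vanishing of `Ext¹(Z, W)` from the extension property. -/
theorem SE.ed_one_eq_zero_of_extend (h : SE f g) {W : FMod k A} (hY : ed Y W 1 = 0)
    (H : ∀ u : X →ₗ[A] W, ∃ v : Y →ₗ[A] W, v ∘ₗ f = u) : ed Z W 1 = 0 := by
  have := (ed_eq_zero_iff _ _ _).1 hY
  refine (ed_eq_zero_iff _ _ _).2 (subsingleton_of_forall_eq 0 fun x => ?_)
  obtain ⟨y, rfl⟩ := (h.con3 W 0 x).1 (Subsingleton.elim _ _)
  obtain ⟨u, rfl⟩ := m0_bijective.2 y
  obtain ⟨v, rfl⟩ := H u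
  rw [← pre_m0]
  exact (h.con1 W 0).apply_apply_eq_zero _

/-- If postcomposition with `g` kills all maps `W → Y`, then `Hom(W,Z)` embeds in `Ext¹(W,X)`. -/
theorem SE.hd_le_ed_one (h : SE f g) {W : FMod k A} (H : ∀ v : W →ₗ[A] Y, g ∘ₗ v = 0) :
    hd W Z ≤ ed W X 1 := by
  rw [← ed_zero]
  refine LinearMap.finrank_le_finrank_of_injective (f := h.dco W 0) ?_
  rw [← LinearMap.ker_eq_bot, LinearMap.ker_eq_bot']
  intro x hx
  obtain ⟨y, rfl⟩ := (h.co3 W 0 x).1 hx
  obtain ⟨v, rfl⟩ := m0_bijective.2 y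
  rw [post_m0, H, map_zero]

end les

theorem ed_le_of_retract_co (W : FMod k A) {X Y : FMod k A} (i : X →ₗ[A] Y) (r : Y →ₗ[A] X)
    (h : r ∘ₗ i = LinearMap.id) (n : ℕ) : ed W X n ≤ ed W Y n := by
  refine LinearMap.finrank_le_finrank_of_injective (f := post W i n) ?_
  refine Function.LeftInverse.injective (g := post W r n) fun x => ?_
  rw [post_post, h, post_id]

theorem ed_le_of_retract_con (W : FMod k A) {X Y : FMod k A} (i : X →ₗ[A] Y) (r : Y →ₗ[A] X)
    (h : r ∘ₗ i = LinearMap.id) (n : ℕ) : ed X W n ≤ ed Y W n := by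
  refine LinearMap.finrank_le_finrank_of_injective (f := pre W r n) ?_
  refine Function.LeftInverse.injective (g := pre W i n) fun x => ?_
  rw [pre_pre, h, pre_id]

theorem ed_congr_co (W : FMod k A) {X Y : FMod k A} (e : X ≃ₗ[A] Y) (n : ℕ) :
    ed W X n = ed W Y n :=
  le_antisymm (ed_le_of_retract_co W e.toLinearMap e.symm.toLinearMap (by ext; simp) n)
    (ed_le_of_retract_co W e.symm.toLinearMap e.toLinearMap (by ext; simp) n)

theorem ed_congr_con (W : FMod k A) {X Y : FMod k A} (e : X ≃ₗ[A] Y) (n : ℕ) :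
    ed X W n = ed Y W n :=
  le_antisymm (ed_le_of_retract_con W e.toLinearMap e.symm.toLinearMap (by ext; simp) n)
    (ed_le_of_retract_con W e.symm.toLinearMap e.toLinearMap (by ext; simp) n)

/-- For a split sequence the dimensions add. -/
theorem SE.add_le_of_split {X Y Z : FMod k A} {f : X →ₗ[A] Y} {g : Y →ₗ[A] Z} (h : SE f g)
    (r : Y →ₗ[A] X) (hr : r ∘ₗ f = LinearMap.id) (s : Z →ₗ[A] Y) (hs : g ∘ₗ s = LinearMap.id)
    (W : FMod k A) (n : ℕ) : ed W X n + ed W Z n ≤ ed W Y n := by
  have h1 := LinearMap.finrank_range_add_finrank_ker (post W g n)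
  have hi : Function.Injective (post W f n) :=
    Function.LeftInverse.injective (g := post W r n) fun x => by rw [post_post, hr, post_id]
  have hsurj : Function.Surjective (post W g n) := fun x =>
    ⟨post W s n x, by rw [post_post, hs, post_id]⟩
  rw [LinearMap.exact_iff.1 (h.co2 W n), LinearMap.finrank_range_of_inj hi,
    LinearMap.range_eq_top.2 hsurj, finrank_top] at h1
  simp only [ed]
  omega

theorem ed_of_subsingleton_co (W X : FMod k A) [Subsingleton X] (n : ℕ) : ed W X n = 0 := by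
  refine (ed_eq_zero_iff _ _ _).2 (subsingleton_of_forall_eq 0 fun x => ?_)
  rw [← post_id W X n x, Subsingleton.elim (LinearMap.id : X →ₗ[A] X) 0, post_zero]

theorem ed_of_subsingleton_con (W X : FMod k A) [Subsingleton X] (n : ℕ) : ed X W n = 0 := by
  refine (ed_eq_zero_iff _ _ _).2 (subsingleton_of_forall_eq 0 fun x => ?_)
  rw [← pre_id W X n x, Subsingleton.elim (LinearMap.id : X →ₗ[A] X) 0, pre_zero]

omit [FiniteDimensional k A] in
theorem se_pi (X : FMod k A) (m : ℕ) :
    SE (X := X) (Y := X.pi (m + 1)) (Z := X.pi m) (LinearMap.single A (fun _ => X) 0)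
      (LinearMap.funLeft A X Fin.succ) := by
  refine ⟨Pi.single_injective (M := fun _ : Fin (m + 1) => X) 0, fun y => ⟨fun hy => ⟨y 0, ?_⟩, ?_⟩,
    LinearMap.funLeft_surjective_of_injective A X _ (Fin.succ_injective m)⟩
  · funext i
    refine Fin.cases ?_ (fun j => ?_) i
    · simp
    · have : y j.succ = 0 := congrFun hy j
      simp [this]
  · rintro ⟨x, rfl⟩
    funext j
    simp [LinearMap.funLeft_apply]
    rfl

theorem ed_pi_co (W X : FMod k A) (m n : ℕ) : ed W (X.pi m) n ≤ m * ed W X n := by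
  induction m with
  | zero => rw [ed_of_subsingleton_co]; simp
  | succ m ih =>
    have := (se_pi X m).le_co2 W n
    rw [Nat.succ_mul]
    omega

theorem ed_pi_con (W X : FMod k A) (m n : ℕ) : ed (X.pi m) W n ≤ m * ed X W n := by
  induction m with
  | zero => rw [ed_of_subsingleton_con]; simp
  | succ m ih =>
    have := (se_pi X m).le_con2 W n
    rw [Nat.succ_mul]
    omega

/-- `X` is a direct summand of a finite power of `M`. -/
def InAdd (M X : FMod k A) : Prop :=
  ∃ (n : ℕ) (f : X →ₗ[A] M.pi n) (g : M.pi n →ₗ[A] X), g ∘ₗ f = LinearMap.id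

theorem InAdd.ed_co {M X : FMod k A} (h : InAdd M X) (W : FMod k A) (n : ℕ)
    (hM : ed W M n = 0) : ed W X n = 0 := by
  obtain ⟨m, f, g, hfg⟩ := h
  have h1 := ed_le_of_retract_co W f g hfg n
  have h2 := ed_pi_co W M m n
  rw [hM] at h2
  omega

theorem InAdd.ed_con {M X : FMod k A} (h : InAdd M X) (W : FMod k A) (n : ℕ)
    (hM : ed M W n = 0) : ed X W n = 0 := by
  obtain ⟨m, f, g, hfg⟩ := h
  have h1 := ed_le_of_retract_con W f g hfg n
  have h2 := ed_pi_con W M m n
  rw [hM] at h2
  omega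

omit [FiniteDimensional k A] in
theorem InAdd.self (M : FMod k A) : InAdd M M :=
  ⟨1, LinearMap.pi fun _ => LinearMap.id, LinearMap.proj 0, by ext; rfl⟩

omit [FiniteDimensional k A] in
theorem InAdd.of_retract {M X Y : FMod k A} (h : InAdd M Y) (i : X →ₗ[A] Y) (r : Y →ₗ[A] X)
    (hr : r ∘ₗ i = LinearMap.id) : InAdd M X := by
  obtain ⟨n, f, g, hfg⟩ := h
  refine ⟨n, f ∘ₗ i, r ∘ₗ g, ?_⟩
  rw [LinearMap.comp_assoc, ← LinearMap.comp_assoc i f g, hfg, LinearMap.id_comp, hr]

/-- `M` is `d`-cluster tilting. -/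
def CT (M : FMod k A) (d : ℕ) : Prop :=
  ∀ X : FMod k A, (InAdd M X ↔ ∀ i, 0 < i → i < d → ed M X i = 0) ∧
    (InAdd M X ↔ ∀ i, 0 < i → i < d → ed X M i = 0)

omit [FiniteDimensional k A] in
theorem injective_of_retract {X Y : Type} [AddCommGroup X] [AddCommGroup Y] [Module A X]
    [Module A Y] [hY : Module.Injective A Y] (i : X →ₗ[A] Y) (r : Y →ₗ[A] X)
    (h : r ∘ₗ i = LinearMap.id) : Module.Injective A X := by
  refine ⟨fun U V _ _ _ _ f hf g => ?_⟩
  obtain ⟨v, hv⟩ := hY.out f hf (i ∘ₗ g)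
  refine ⟨r ∘ₗ v, fun x => ?_⟩
  have := LinearMap.congr_fun h (g x)
  simp only [LinearMap.comp_apply, LinearMap.id_apply] at this ⊢
  rw [hv]
  exact this

omit [FiniteDimensional k A] in
theorem hd_le_mul (X Y : FMod k A) : hd X Y ≤ finrank k X * finrank k Y := by
  rw [← Module.finrank_linearMap k k]
  exact LinearMap.finrank_le_finrank_of_injective (f := LinearMap.restrictScalarsₗ k A X Y k)
    (LinearMap.restrictScalars_injective k)

end Pool.Agent.P.MP_b7bea3_al
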