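import Pool.Agent.P.MP_b7bea3_al.HomF

/-! The inverse Nakayama functor and a numerical Auslander-Reiten formula. -/

open Module MulOpposite

namespace Pool.Agent.P.MP_b7bea3_al

variable {k A : Type} [Field k] [Ring A] [Algebra k A]

/-- Postcomposition on Hom spaces. -/
def postH (N : FMod k A) {X Y : FMod k A} (f : X →ₗ[A] Y) : (N →ₗ[A] X) →ₗ[k] (N →ₗ[A] Y) where
  toFun u := f ∘ₗ u
  map_add' u v := by ext; simp
  map_smul' c u := by ext; simp

/-- Precomposition on Hom spaces. -/
def preH (N : FMod k A) {X Y : FMod k A} (f : X →ₗ[A] Y) : (Y →ₗ[A] N) →ₗ[k] (X →ₗ[A] N) where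
  toFun u := u ∘ₗ f
  map_add' u v := by ext; simp
  map_smul' c u := by ext; simp

theorem finrank_ker_postH (N : FMod k A) {Y J J' : FMod k A} {f : Y →ₗ[A] J} {u : J →ₗ[A] J'}
    (hf : Function.Injective f) (h : Function.Exact f u) :
    finrank k (LinearMap.ker (postH N u)) = hd N Y := by
  have hi : Function.Injective (postH N f) := fun v w hvw => by
    ext x
    exact hf (LinearMap.congr_fun hvw x)
  have : LinearMap.ker (postH N u) = LinearMap.range (postH N f) := by
    ext v
    constructor
    · intro hv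
      have hu' : ∀ q, v q ∈ LinearMap.range f := fun q => (h _).1 (LinearMap.congr_fun hv q)
      refine ⟨(LinearEquiv.ofInjective f hf).symm.toLinearMap ∘ₗ v.codRestrict _ hu', ?_⟩
      ext q
      simp [postH]
    · rintro ⟨w, rfl⟩
      ext q
      exact h.apply_apply_eq_zero _
  rw [this, LinearMap.finrank_range_of_inj hi, hd]

theorem finrank_ker_preH (N : FMod k A) {J J' C : FMod k A} {u : J →ₗ[A] J'} {g : J' →ₗ[A] C}
    (hg : Function.Surjective g) (h : Function.Exact u g) :
    finrank k (LinearMap.ker (preH N u)) = hd C N := by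
  have hi : Function.Injective (preH N g) := fun v w hvw => by
    ext x
    obtain ⟨y, rfl⟩ := hg x
    exact LinearMap.congr_fun hvw y
  have : LinearMap.ker (preH N u) = LinearMap.range (preH N g) := by
    ext v
    constructor
    · intro hv
      have hle : LinearMap.ker g ≤ LinearMap.ker v := fun y hy => by
        obtain ⟨x, rfl⟩ := (h y).1 hy
        exact LinearMap.congr_fun hv x
      refine ⟨(LinearMap.ker g).liftQ v hle ∘ₗ (g.quotKerEquivOfSurjective hg).symm.toLinearMap, ?_⟩
      ext q
      simp [preH]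
    · rintro ⟨w, rfl⟩
      ext q
      simp [preH, h.apply_apply_eq_zero q]
  rw [this, LinearMap.finrank_range_of_inj hi, hd]

theorem exact_comp_of_se {Y J Y' J' : FMod k A} {f : Y →ₗ[A] J} {g : J →ₗ[A] Y'}
    (h : SE f g) {f' : Y' →ₗ[A] J'} (hf' : Function.Injective f') :
    Function.Exact f (f' ∘ₗ g) := fun y => by
  rw [← h.ex y, LinearMap.comp_apply, map_eq_zero_iff f' hf']

theorem exact_comp_of_se' {J Y' J' C : FMod k A} {g : J →ₗ[A] Y'} (hg : Function.Surjective g)
    {f' : Y' →ₗ[A] J'} {g' : J' →ₗ[A] C} (h : SE f' g') :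
    Function.Exact (f' ∘ₗ g) g' := fun y => by
  rw [h.ex y]
  constructor
  · rintro ⟨x, rfl⟩
    obtain ⟨z, rfl⟩ := hg x
    exact ⟨z, rfl⟩
  · rintro ⟨x, rfl⟩
    exact ⟨g x, rfl⟩

variable [FiniteDimensional k A]

/-- The functor `Hom_A(DA, -)`. -/
abbrev Phi (X : FMod k A) : FMod k A := HomF (OmB k A) X

/-- The canonical generators of `Phi (DA ^ b)`. -/
def io (b : ℕ) (i : Fin b) : HomT (OmB k A) ((Om k A).pi b) :=
  ⟨LinearMap.single A (fun _ => OmT k A) i⟩

theorem exists_eq_sum_io {b : ℕ} (h : HomT (OmB k A) ((Om k A).pi b)) :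
    ∃ a : Fin b → A, (∀ i v, h.l v i = omR (a i) v) ∧ h = ∑ i, a i • io b i := by
  choose a ha using fun i : Fin b => omR_surj (k := k) (A := A)
    ((LinearMap.proj i : (Fin b → OmT k A) →ₗ[A] OmT k A) ∘ₗ h.l)
  have ha' : ∀ i v, h.l v i = omR (a i) v := fun i v => by rw [ha i]; rfl
  refine ⟨a, ha', ?_⟩
  ext v j : 3
  rw [HomT.l_sum, LinearMap.sum_apply, Finset.sum_apply, ha',
    Finset.sum_eq_single j (fun i _ hij => by simp [io, Pi.single_eq_of_ne hij.symm])
      (by simp)]
  simp [io]

/-- `Phi (DA ^ b)` is free. -/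
noncomputable def freeEquiv (b : ℕ) :
    (Fin b → A) ≃ₗ[A] HomT (OmB k A) ((Om k A).pi b) :=
  LinearEquiv.ofBijective (Fintype.linearCombination A (io b)) (by
    constructor
    · rw [← LinearMap.ker_eq_bot, LinearMap.ker_eq_bot']
      intro a ha
      funext j
      refine (Module.forall_dual_apply_eq_zero_iff k (a j)).1 fun φ => ?_
      have h1 := congrArg (fun h : HomT (OmB k A) ((Om k A).pi b) => (h.l ⟨φ⟩ j).l 1) ha
      simp only [Fintype.linearCombination_apply, HomT.l_sum, LinearMap.sum_apply,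
        Finset.sum_apply] at h1
      rw [Finset.sum_eq_single j (fun i _ hij => by simp [io, Pi.single_eq_of_ne hij.symm])
        (by simp)] at h1
      simp only [io, HomT.l_asmul, omRHom_op, LinearMap.comp_apply, LinearMap.single_apply,
        Pi.single_eq_same, omR_l, mul_one] at h1
      exact h1
    · intro h
      obtain ⟨a, -, rfl⟩ := exists_eq_sum_io h
      exact ⟨a, by simp [Fintype.linearCombination_apply]⟩)

instance (b : ℕ) : Module.Projective A (Phi ((Om k A).pi b)) :=
  Module.Projective.of_equiv' (freeEquiv (k := k) b)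

instance (b : ℕ) : Module.Injective A ((Om k A).pi b) :=
  inferInstanceAs (Module.Injective A (Fin b → OmT k A))

instance [Module.Injective A A] (b : ℕ) : Module.Injective A ((FMod.reg k A).pi b) :=
  inferInstanceAs (Module.Injective A (Fin b → A))

instance [Module.Injective A A] (b : ℕ) : Module.Injective A (Phi ((Om k A).pi b)) :=
  injective_of_retract (Y := Fin b → A) (freeEquiv (k := k) b).symm.toLinearMap
    (freeEquiv (k := k) b).toLinearMap (by ext : 1; simp)

instance [Module.Projective A (OmT k A)] (b : ℕ) : Module.Projective A ((Om k A).pi b) :=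
  Module.Projective.of_equiv' (DFinsupp.linearEquivFunOnFintype (R := A)
    (M := fun _ : Fin b => OmT k A))

theorem hd_phi_pi (b : ℕ) (N : FMod k A) : hd (Phi ((Om k A).pi b)) N = b * finrank k N := by
  rw [← ed_zero, ← ed_congr_con N (X := (FMod.reg k A).pi b) (freeEquiv b), ed_zero, hd]
  refine Eq.trans ((Pi.basisFun A (Fin b)).constr k).finrank_eq.symm ?_
  simp [Module.finrank_pi_fintype]

theorem hd_pi_om (b : ℕ) (N : FMod k A) : hd N ((Om k A).pi b) = b * finrank k N := by
  refine Eq.trans (LinearEquiv.linearMapPi k).finrank_eq.symm ?_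
  simp [Module.finrank_pi_fintype, (homOm N).finrank_eq]

/-- The duality pairing. -/
noncomputable def pairing (b : ℕ) (N : FMod k A) :
    (Phi ((Om k A).pi b) →ₗ[A] N) →ₗ[k] Module.Dual k (N →ₗ[A] (Om k A).pi b) :=
  LinearMap.mk₂ k (fun a β => ∑ i, (β (a (io b i)) i).l 1)
    (fun a a' β => by simp [Finset.sum_add_distrib])
    (fun c a β => by simp [Finset.mul_sum])
    (fun a β β' => by simp [Finset.sum_add_distrib])
    (fun c a β => by simp [Finset.mul_sum])

theorem pairing_bijective (b : ℕ) (N : FMod k A) : Function.Bijective (pairing b N) := by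
  have hi : Function.Injective (pairing b N) := by
    rw [← LinearMap.ker_eq_bot, LinearMap.ker_eq_bot']
    intro a ha
    have h0 : ∀ i, a (io b i) = 0 := fun i => by
      refine (Module.forall_dual_apply_eq_zero_iff k _).1 fun φ => ?_
      have h1 := LinearMap.congr_fun ha
        (LinearMap.single A (fun _ => OmT k A) i ∘ₗ (homOm N).symm φ)
      simp only [pairing, LinearMap.mk₂_apply, LinearMap.comp_apply, LinearMap.zero_apply] at h1
      rw [Finset.sum_eq_single i (fun j _ hij => by simp [Pi.single_eq_of_ne hij])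
        (by simp)] at h1
      simpa using h1
    ext h
    obtain ⟨c, -, rfl⟩ := exists_eq_sum_io h
    simp [h0]
  refine ⟨hi, (LinearMap.injective_iff_surjective_of_finrank_eq_finrank ?_).1 hi⟩
  rw [Subspace.dual_finrank_eq]
  exact (hd_phi_pi b N).trans (hd_pi_om b N).symm

theorem pairing_natural {b c : ℕ} (N : FMod k A) (u : (Om k A).pi b →ₗ[A] (Om k A).pi c) :
    pairing b N ∘ₗ preH N (X := Phi ((Om k A).pi b)) (Y := Phi ((Om k A).pi c))
      (HomF.map (OmB k A) u) = (postH N u).dualMap ∘ₗ pairing c N := by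
  ext a β
  choose m hm hm' using fun i => exists_eq_sum_io (HomF.map (OmB k A) u (io b i))
  have hu : ∀ (y : Fin b → OmT k A) j, u y j = ∑ i, omR (m i j) (y i) := fun y j => by
    conv_lhs => rw [← Finset.univ_sum_single y, map_sum, Finset.sum_apply]
    exact Finset.sum_congr rfl fun i _ => hm i j (y i)
  simp only [pairing, preH, postH, LinearMap.comp_apply, LinearMap.mk₂_apply, LinearMap.coe_mk,
    AddHom.coe_mk, LinearMap.dualMap_apply, hm', hu, map_sum, map_smul, Finset.sum_apply,
    OmT.l_sum, LinearMap.sum_apply, Pi.smul_apply, OmT.l_asmul, omR_l, one_mul, mul_one]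
  exact Finset.sum_comm

theorem ar_aux [Module.Projective A (OmT k A)] (N : FMod k A) {b c : ℕ} {Y Y' Y'' : FMod k A}
    {f : Y →ₗ[A] (Om k A).pi b} {g : (Om k A).pi b →ₗ[A] Y'} (h : SE f g)
    {f' : Y' →ₗ[A] (Om k A).pi c} {g' : (Om k A).pi c →ₗ[A] Y''} (h' : SE f' g') :
    hd (Phi Y'') N + b * finrank k N = hd N Y + c * finrank k N := by
  have : Module.Projective A (OmB k A).toFMod := inferInstanceAs (Module.Projective A (OmT k A))
  have h1 := finrank_ker_postH N h.inj (exact_comp_of_se h h'.inj)
  have h2 := finrank_ker_preH N (h'.homF_map (OmB k A)).surj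
    (exact_comp_of_se' (h.homF_map (OmB k A)).surj (h'.homF_map (OmB k A)))
  have h3 := LinearMap.finrank_range_add_finrank_ker (postH N (f' ∘ₗ g))
  have h4 := LinearMap.finrank_range_add_finrank_ker
    (preH N (X := Phi ((Om k A).pi b)) (Y := Phi ((Om k A).pi c)) (HomF.map (OmB k A) (f' ∘ₗ g)))
  have h5 := congrArg (fun L => finrank k (LinearMap.range L)) (pairing_natural N (f' ∘ₗ g))
  simp only at h5
  rw [LinearMap.range_comp_of_range_eq_top _ (LinearMap.range_eq_top.2 (pairing_bijective c N).2),
    LinearMap.finrank_range_dualMap_eq_finrank_range, LinearMap.range_comp,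
    LinearEquiv.finrank_eq (Submodule.equivMapOfInjective _ (pairing_bijective b N).1 _).symm]
    at h5
  have h6 := hd_phi_pi c N
  have h7 := hd_pi_om b N
  have e : HomF.map (OmB k A) (f' ∘ₗ g) = HomF.map (OmB k A) f' ∘ₗ HomF.map (OmB k A) g := rfl
  rw [← e] at h2
  simp only [hd] at *
  omega

end Pool.Agent.P.MP_b7bea3_al
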