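import Pool.Agent.P.MP_b7bea3_al.Bound

/-! Radicals, socles, projective covers. -/

open Module MulOpposite

namespace Pool.Agent.P.MP_b7bea3_al

variable {k A : Type} [Field k] [Ring A] [Algebra k A] [FiniteDimensional k A]

include k in
theorem semisimple_of_kill {X : Type} [AddCommGroup X] [Module A X]
    (h : ∀ j ∈ Ring.jacobson A, ∀ x : X, j • x = 0) : IsSemisimpleModule A X := by
  have : IsArtinianRing A := IsArtinianRing.of_finite k A
  have hT : Module.IsTorsionBySet A X (Ring.jacobson A) := fun x j => h j j.2 x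
  let := hT.module
  exact hT.isSemisimpleModule_iff.1 inferInstance

include k in
theorem jacobson_le_smul (X : Type) [AddCommGroup X] [Module A X] :
    Module.jacobson A X ≤ Ring.jacobson A • ⊤ := by
  have : IsSemisimpleModule A (X ⧸ (Ring.jacobson A • ⊤ : Submodule A X)) :=
    semisimple_of_kill (k := k) fun j hj x => by
      obtain ⟨x, rfl⟩ := Submodule.mkQ_surjective _ x
      rw [← map_smul, Submodule.mkQ_apply, Submodule.Quotient.mk_eq_zero]
      exact Submodule.smul_mem_smul hj trivial
  exact Module.jacobson_le_of_eq_bot (IsSemisimpleModule.jacobson_eq_bot _ _)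

theorem exists_proj_cover (B : FMod k A) : ∃ (E : FMod k A) (π : E →ₗ[A] B),
    Module.Projective A E ∧ Function.Surjective π ∧
      LinearMap.ker π ≤ Ring.jacobson A • ⊤ := by
  obtain ⟨n, g, hg⟩ := exists_cover B
  obtain ⟨E, ⟨π, hE, hπ⟩, hmin⟩ := exists_minimalFor_of_wellFoundedLT
    (fun E : FMod k A => ∃ π : E →ₗ[A] B, Module.Projective A E ∧ Function.Surjective π)
    (fun E => finrank k E) ⟨(FMod.reg k A).pi n, g, inferInstance, hg⟩
  refine ⟨E, π, hE, hπ, le_trans ?_ (jacobson_le_smul (k := k) E)⟩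
  refine le_sInf fun N hN => ?_
  by_contra hle
  have htop : N ⊔ LinearMap.ker π = ⊤ := hN.2 _ (left_lt_sup.2 hle)
  have hs : Function.Surjective (π ∘ₗ N.subtype) := fun b => by
    obtain ⟨x, rfl⟩ := hπ b
    obtain ⟨y, hy, z, hz, rfl⟩ := Submodule.mem_sup.1 (htop ▸ Submodule.mem_top : x ∈ N ⊔ _)
    exact ⟨⟨y, hy⟩, by simp [LinearMap.mem_ker.1 hz]⟩
  obtain ⟨v, hv⟩ := Module.projective_lifting_property (π ∘ₗ N.subtype) π hs
  let u : Module.End A E := N.subtype ∘ₗ v
  have hu : ∀ (m : ℕ) x, π ((u ^ m) x) = π x := fun m x => by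
    induction m with
    | zero => rfl
    | succ m ih =>
      rw [pow_succ', Module.End.mul_apply]
      exact (LinearMap.congr_fun hv _).trans ih
  obtain ⟨m, hm⟩ := Filter.eventually_atTop.1 (LinearMap.eventually_isCompl_ker_pow_range_pow u)
  have hc := hm (m + 1) (Nat.le_succ m)
  have hlt : finrank k (E.sub (LinearMap.range (u ^ (m + 1)))) < finrank k E :=
    finrank_sub_lt E fun h => hN.1 (top_unique (h ▸ by
      rintro _ ⟨x, rfl⟩
      rw [pow_succ', Module.End.mul_apply]
      exact (v _).2))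
  refine absurd (hmin (j := E.sub (LinearMap.range (u ^ (m + 1))))
    ⟨π ∘ₗ Submodule.subtype _, Module.Projective.of_split (Submodule.subtype _) _
      (Submodule.projectionOnto_comp_subtype hc.symm), fun b => ?_⟩ hlt.le) (not_le.2 hlt)
  obtain ⟨x, rfl⟩ := hπ b
  exact ⟨⟨_, x, rfl⟩, hu (m + 1) x⟩

variable (k A) in
/-- The semisimple quotient of the regular module. -/
abbrev SS : FMod k A := (FMod.reg k A).quot (Ring.jacobson A)

theorem SS_kill (j : A) (hj : j ∈ Ring.jacobson A) (x : SS k A) : j • x = 0 := by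
  obtain ⟨x, rfl⟩ := Submodule.mkQ_surjective _ x
  rw [← map_smul, Submodule.mkQ_apply, Submodule.Quotient.mk_eq_zero]
  exact Ideal.mul_mem_right _ _ hj

/-- The map out of the semisimple quotient determined by an element killed by the radical. -/
def SSlift {Y : FMod k A} (y : Y) (hy : ∀ j ∈ Ring.jacobson A, j • y = 0) : SS k A →ₗ[A] Y :=
  (Ring.jacobson A).liftQ (LinearMap.toSpanSingleton A Y y) fun j hj => hy j hj

theorem SSlift_mk {Y : FMod k A} (y : Y) (hy : ∀ j ∈ Ring.jacobson A, j • y = 0) (a : A) :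
    SSlift y hy (Submodule.Quotient.mk a) = a • y := rfl

theorem SS_ext {Y : FMod k A} {f g : SS k A →ₗ[A] Y}
    (h : f (Submodule.Quotient.mk 1) = g (Submodule.Quotient.mk 1)) : f = g :=
  Submodule.linearMap_qext _ (LinearMap.ext_ring h)

theorem finrank_le_socle (Y : FMod k A) : finrank k Y ≤ hd (SS k A) Y * finrank k A := by
  let σ : Submodule A Y :=
    { carrier := {y | ∀ j ∈ Ring.jacobson A, j • y = 0}
      add_mem' := fun {x y} hx hy j hj => by rw [smul_add, hx j hj, hy j hj, add_zero]
      zero_mem' := fun j _ => smul_zero j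
      smul_mem' := fun a y hy j hj => by
        rw [← mul_smul]; exact hy _ (Ideal.mul_mem_right _ _ hj) }
  have h1 : finrank k (Y.sub σ) ≤ hd (SS k A) Y := by
    let L : σ →ₗ[k] (SS k A →ₗ[A] Y) :=
      { toFun := fun y => SSlift y.1 y.2
        map_add' := fun x y => SS_ext (by
          rw [LinearMap.add_apply, SSlift_mk, SSlift_mk, SSlift_mk]; simp)
        map_smul' := fun c x => SS_ext (by
          rw [LinearMap.smul_apply, SSlift_mk, SSlift_mk]; simp) }
    refine LinearMap.finrank_le_finrank_of_injective (f := L) fun x y h => ?_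
    have : (1 : A) • x.1 = (1 : A) • y.1 := LinearMap.congr_fun h (Submodule.Quotient.mk 1)
    exact Subtype.ext (by simpa using this)
  let b := Module.finBasis k σ
  let u : σ →ₗ[A] (Fin (finrank k σ) → OmT k A) :=
    LinearMap.pi fun i => (homOm (Y.sub σ)).symm (b.coord i)
  have hu : ∀ x, u x = 0 → x = 0 := fun x hx => b.ext_elem fun i => by
    have : (((homOm (Y.sub σ)).symm (b.coord i)) x).l 1 = (0 : OmT k A).l 1 :=
      congrArg (fun f : OmT k A => f.l 1) (congrFun hx i)
    rw [homOm_symm_apply, one_smul] at this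
    simpa using this
  obtain ⟨v, hv⟩ := (inferInstance : Module.Injective A (Fin (finrank k σ) → OmT k A)).out
    σ.subtype σ.subtype_injective u
  have hinj : Function.Injective v := by
    rw [← LinearMap.ker_eq_bot]
    rcases eq_bot_or_exists_atom_le (LinearMap.ker v) with h | ⟨N, hN, hle⟩
    · exact h
    have hs := isSimpleModule_iff_isAtom.2 hN
    obtain ⟨x, hx, hx0⟩ := Submodule.exists_mem_ne_zero_of_ne_bot hN.1
    have hxσ : x ∈ σ := fun j hj => congrArg Subtype.val
      (Module.mem_annihilator.1 (IsSemisimpleModule.jacobson_le_annihilator A N hj) ⟨x, hx⟩)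
    have := hu ⟨x, hxσ⟩ ((hv _).symm.trans (hle hx))
    exact absurd (congrArg Subtype.val this) hx0
  have h2 := LinearMap.finrank_le_finrank_of_injective (f := v.restrictScalars k) hinj
  rw [Module.finrank_pi_fintype, Finset.sum_const, Finset.card_univ, Fintype.card_fin,
    (OmT.lequiv k A).finrank_eq, Subspace.dual_finrank_eq, smul_eq_mul] at h2
  exact h2.trans (Nat.mul_le_mul_right _ h1)

theorem finrank_le_of_kill (Y : FMod k A) (h : ∀ j ∈ Ring.jacobson A, ∀ x : Y, j • x = 0) :
    finrank k Y ≤ hd Y (SS k A) * finrank k A := by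
  have : IsSemisimpleModule A Y := semisimple_of_kill (k := k) h
  have : IsSemisimpleModule A (SS k A) := semisimple_of_kill (k := k) SS_kill
  let b := Module.finBasis k (Y →ₗ[A] SS k A)
  let v : Y →ₗ[A] (Fin (finrank k (Y →ₗ[A] SS k A)) → SS k A) := LinearMap.pi fun i => b i
  have hinj : Function.Injective v := by
    rw [← LinearMap.ker_eq_bot, LinearMap.ker_eq_bot']
    intro y hy
    have h0 : ∀ g : Y →ₗ[A] SS k A, g y = 0 := fun g => by
      rw [← b.sum_repr g, LinearMap.sum_apply]
      exact Finset.sum_eq_zero fun i _ => by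
        rw [LinearMap.smul_apply, show b i y = 0 from congrFun hy i, smul_zero]
    let φ := SSlift y (fun j hj => h j hj y)
    obtain ⟨s, hs⟩ := IsSemisimpleModule.lifting_property φ.rangeRestrict
      φ.surjective_rangeRestrict LinearMap.id
    obtain ⟨g, hg⟩ := IsSemisimpleModule.extension_property (LinearMap.range φ).subtype
      (Submodule.subtype_injective _) s
    have hy' : y ∈ LinearMap.range φ := ⟨Submodule.Quotient.mk 1, one_smul A y⟩
    have h1 : s ⟨y, hy'⟩ = 0 := (LinearMap.congr_fun hg ⟨y, hy'⟩).symm.trans (h0 g)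
    have h2 := LinearMap.congr_fun hs ⟨y, hy'⟩
    rw [LinearMap.comp_apply, h1, map_zero] at h2
    exact (congrArg Subtype.val h2).symm
  have h2 := LinearMap.finrank_le_finrank_of_injective (f := v.restrictScalars k) hinj
  rw [Module.finrank_pi_fintype, Finset.sum_const, Finset.card_univ, Fintype.card_fin,
    smul_eq_mul] at h2
  refine h2.trans (Nat.mul_le_mul_left _ ?_)
  have := (se_sub (FMod.reg k A) (Ring.jacobson A)).finrank_eq
  exact le_of_le_of_eq (Nat.le_add_left _ _) this.symm

theorem exists_gen (B : FMod k A) (n : ℕ) (hn : hd B (SS k A) * finrank k A ≤ n) :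
    ∃ p : (Fin n → A) →ₗ[A] B, Function.Surjective p := by
  let U : Submodule A B := Ring.jacobson A • ⊤
  have h1 := finrank_le_of_kill (B.quot U) fun j hj x => by
    obtain ⟨x, rfl⟩ := Submodule.mkQ_surjective _ x
    rw [← map_smul, Submodule.mkQ_apply, Submodule.Quotient.mk_eq_zero]
    exact Submodule.smul_mem_smul hj trivial
  have h2 : hd (B.quot U) (SS k A) ≤ hd B (SS k A) :=
    LinearMap.finrank_le_finrank_of_injective (f := preH (SS k A) (X := B) (Y := B.quot U) U.mkQ)
      fun f g h => Submodule.linearMap_qext _ h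
  have h3 : finrank k (B ⧸ U) ≤ finrank k (Fin n → k) := by
    rw [Module.finrank_fin_fun]
    exact h1.trans ((Nat.mul_le_mul_right _ h2).trans hn)
  obtain ⟨L, hL⟩ : ∃ L : (Fin n → k) →ₗ[k] (B ⧸ U), Function.Surjective L := by
    obtain ⟨i, hi⟩ := finrank_le_iff_exists_linearMap.1 h3
    obtain ⟨L, hL⟩ := i.exists_leftInverse_of_injective (LinearMap.ker_eq_bot.2 hi)
    exact ⟨L, fun y => ⟨i y, LinearMap.congr_fun hL y⟩⟩
  choose x hx using fun i : Fin n => U.mkQ_surjective (L (Pi.single i 1))
  let p := Fintype.linearCombination A x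
  refine ⟨p, ?_⟩
  have htop : LinearMap.range p ⊔ U = ⊤ := by
    rw [Submodule.eq_top_iff']
    intro y
    obtain ⟨c, hc⟩ := hL (U.mkQ y)
    have : U.mkQ (p fun i => algebraMap k A (c i)) = U.mkQ y := by
      rw [← hc, Fintype.linearCombination_apply, map_sum]
      conv_rhs => rw [← Finset.univ_sum_single c, map_sum]
      refine Finset.sum_congr rfl fun i _ => ?_
      rw [map_smul, hx, algebraMap_smul, ← map_smul, ← Pi.single_smul, smul_eq_mul, mul_one]
    rw [Submodule.mkQ_apply, Submodule.mkQ_apply, Submodule.Quotient.eq] at this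
    exact Submodule.mem_sup.2 ⟨_, ⟨_, rfl⟩, _, U.neg_mem this, by abel⟩
  rw [← LinearMap.range_eq_top]
  have h4 : (⊤ : Submodule A (B ⧸ LinearMap.range p)) = ⊥ := by
    refine Submodule.FG.eq_bot_of_le_jacobson_smul Module.Finite.fg_top ?_
    intro z _
    obtain ⟨y, rfl⟩ := (LinearMap.range p).mkQ_surjective z
    obtain ⟨a, ha, b, hb, rfl⟩ := Submodule.mem_sup.1 (htop ▸ Submodule.mem_top : y ∈ _ ⊔ U)
    rw [map_add, show (LinearMap.range p).mkQ a = 0 from (Submodule.Quotient.mk_eq_zero _).2 ha,
      zero_add]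
    refine Submodule.smul_induction_on hb (fun j hj x _ => ?_) fun x y hx hy => ?_
    · rw [map_smul]; exact Submodule.smul_mem_smul hj trivial
    · rw [map_add]; exact Submodule.add_mem _ hx hy
  rw [Submodule.eq_top_iff']
  intro y
  have : (LinearMap.range p).mkQ y ∈ (⊥ : Submodule A (B ⧸ LinearMap.range p)) := h4 ▸ trivial
  simpa using this

end Pool.Agent.P.MP_b7bea3_al
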