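import Pool.Agent.P.MP_b7bea3_al.Rad

/-! Minimal bimodule resolutions and the cosyzygy functors. -/

open Module MulOpposite TensorProduct

namespace Pool.Agent.P.MP_b7bea3_al

variable {k A : Type} [Field k] [Ring A] [Algebra k A]

variable (k A) in
/-- The enveloping algebra. -/
abbrev Env : Type := A ⊗[k] Aᵐᵒᵖ

/-- Underlying type of the left module attached to a module over the enveloping algebra. -/
@[ext] structure LT (X : FMod k (Env k A)) : Type where
  v : X

/-- Identification of underlying types. -/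
def LT.equiv (X : FMod k (Env k A)) : LT X ≃ X := ⟨LT.v, LT.mk, fun _ => rfl, fun _ => rfl⟩

instance (X : FMod k (Env k A)) : AddCommGroup (LT X) := (LT.equiv X).addCommGroup

instance (X : FMod k (Env k A)) : Module k (LT X) := (LT.equiv X).module k

@[simp] theorem LT.v_add {X : FMod k (Env k A)} (x y : LT X) : (x + y).v = x.v + y.v := rfl
@[simp] theorem LT.v_zero {X : FMod k (Env k A)} : (0 : LT X).v = 0 := rfl
@[simp] theorem LT.v_smul {X : FMod k (Env k A)} (c : k) (x : LT X) : (c • x).v = c • x.v := rfl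

/-- Identification of underlying vector spaces. -/
def LT.lequiv (X : FMod k (Env k A)) : LT X ≃ₗ[k] X :=
  { LT.equiv X with
    map_add' := fun _ _ => rfl
    map_smul' := fun _ _ => rfl }

instance (X : FMod k (Env k A)) : SMul A (LT X) := ⟨fun a x => ⟨(a ⊗ₜ[k] (1 : Aᵐᵒᵖ)) • x.v⟩⟩

@[simp] theorem LT.v_asmul {X : FMod k (Env k A)} (a : A) (x : LT X) :
    (a • x).v = (a ⊗ₜ[k] (1 : Aᵐᵒᵖ)) • x.v := rfl

instance (X : FMod k (Env k A)) : Module A (LT X) where
  one_smul f := by ext; simp [← Algebra.TensorProduct.one_def]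
  mul_smul a b f := by ext; simp [← mul_smul]
  smul_zero a := by ext; simp
  smul_add a f g := by ext; simp
  add_smul a b f := by ext; simp [add_tmul, add_smul]
  zero_smul f := by
    ext
    rw [LT.v_asmul, zero_tmul]
    exact zero_smul (Env k A) f.v

instance (X : FMod k (Env k A)) : IsScalarTower k A (LT X) where
  smul_assoc c a f := by
    ext
    simp [← smul_tmul']

instance (X : FMod k (Env k A)) : FiniteDimensional k (LT X) :=
  (LT.lequiv X).symm.finiteDimensional

/-- The right action. -/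
def LT.r (X : FMod k (Env k A)) : Aᵐᵒᵖ →ₐ[k] Module.End A (LT X) where
  toFun b :=
    { toFun := fun x => ⟨((1 : A) ⊗ₜ[k] b) • x.v⟩
      map_add' := fun x y => by ext; simp
      map_smul' := fun a x => by ext; simp [← mul_smul] }
  map_one' := by ext; simp [← Algebra.TensorProduct.one_def]
  map_mul' a b := by ext; simp [← mul_smul]
  map_zero' := by
    ext x
    change ((1 : A) ⊗ₜ[k] (0 : Aᵐᵒᵖ)) • x.v = 0
    rw [tmul_zero]
    exact zero_smul (Env k A) x.v
  map_add' a b := by ext; simp [tmul_add, add_smul]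
  commutes' c := by
    ext
    simp [Algebra.algebraMap_eq_smul_one, ← Algebra.TensorProduct.one_def]

@[simp] theorem LT.r_v (X : FMod k (Env k A)) (b : Aᵐᵒᵖ) (x : LT X) :
    (LT.r X b x).v = ((1 : A) ⊗ₜ[k] b) • x.v := rfl

/-- The bimodule attached to a module over the enveloping algebra. -/
abbrev toB (X : FMod k (Env k A)) : BMod k A where
  toFMod := FMod.of k A (LT X)
  r := LT.r X

/-- Functoriality. -/
def LT.map {X Y : FMod k (Env k A)} (f : X →ₗ[Env k A] Y) : LT X →ₗ[A] LT Y where
  toFun x := ⟨f x.v⟩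
  map_add' x y := by ext; simp
  map_smul' a x := by ext; simp

@[simp] theorem LT.map_v {X Y : FMod k (Env k A)} (f : X →ₗ[Env k A] Y) (x : LT X) :
    (LT.map f x).v = f x.v := rfl

theorem LT.map_r {X Y : FMod k (Env k A)} (f : X →ₗ[Env k A] Y) (b : Aᵐᵒᵖ) :
    LT.map f ∘ₗ LT.r X b = LT.r Y b ∘ₗ LT.map f := by
  ext; simp

theorem SE.toB {X Y Z : FMod k (Env k A)} {f : X →ₗ[Env k A] Y} {g : Y →ₗ[Env k A] Z}
    (h : SE f g) : SE (X := (toB X).toFMod) (Y := (toB Y).toFMod) (Z := (toB Z).toFMod)
      (LT.map f) (LT.map g) := by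
  refine ⟨fun x y hxy => LT.ext (h.inj (congrArg LT.v hxy)), fun y => ⟨fun hy => ?_, ?_⟩,
    fun z => ?_⟩
  · obtain ⟨x, hx⟩ := (h.ex y.v).1 (congrArg LT.v hy)
    exact ⟨⟨x⟩, LT.ext hx⟩
  · rintro ⟨x, rfl⟩
    exact LT.ext (h.ex.apply_apply_eq_zero _)
  · obtain ⟨y, hy⟩ := h.surj z.v
    exact ⟨⟨y⟩, LT.ext hy⟩

/-- The contravariant map on `Hom` induced by a map of bimodules. -/
def cm {X Y : FMod k (Env k A)} (f : X →ₗ[Env k A] Y) (W : FMod k A) :
    HomT (toB Y) W →ₗ[A] HomT (toB X) W :=
  HomF.comap (Q := toB X) (Q' := toB Y) (LT.map f) (LT.map_r f) W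

@[simp] theorem cm_l {X Y : FMod k (Env k A)} (f : X →ₗ[Env k A] Y) (W : FMod k A)
    (u : HomT (toB Y) W) (x : LT X) : (cm f W u).l x = u.l ⟨f x.v⟩ := rfl

theorem projective_pi {R P : Type} [Ring R] [AddCommGroup P] [Module R P] [Module.Projective R P]
    (n : ℕ) : Module.Projective R (Fin n → P) :=
  Module.Projective.of_equiv' (DFinsupp.linearEquivFunOnFintype (R := R) (M := fun _ : Fin n => P))

variable [FiniteDimensional k A]

omit [FiniteDimensional k A] in
theorem smul_eq_tmul_mul (a : A) (x : Env k A) : (a ⊗ₜ[k] (1 : Aᵐᵒᵖ)) * x = a • x := by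
  induction x using TensorProduct.induction_on with
  | zero => simp
  | tmul b c => simp [smul_tmul']
  | add x y hx hy => rw [mul_add, smul_add, hx, hy]

theorem toB_proj (E : FMod k (Env k A)) [Module.Projective (Env k A) E] :
    Module.Projective A (LT E) := by
  obtain ⟨n, g, hg⟩ := exists_cover E
  obtain ⟨s, hs⟩ := Module.projective_lifting_property g LinearMap.id hg
  have := projective_pi (R := A) (P := Env k A) n
  let e : LT ((FMod.reg k (Env k A)).pi n) ≃ₗ[A] (Fin n → Env k A) :=
    { LT.equiv _ with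
      map_add' := fun _ _ => rfl
      map_smul' := fun a x => funext fun i => smul_eq_tmul_mul a (x.v i) }
  have := Module.Projective.of_equiv' e.symm
  exact Module.Projective.of_split (LT.map s) (LT.map g)
    (LinearMap.ext fun x => LT.ext (LinearMap.congr_fun hs x.v))

theorem homT_reg_inj (X : FMod k A) :
    Module.Injective A (HomT (toB (FMod.reg k (Env k A))) X) := by
  refine Module.Baer.injective fun I g => ?_
  let ψ : I →ₗ[k] X :=
    { toFun := fun u => (g u).l ⟨1⟩
      map_add' := fun x y => by simp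
      map_smul' := fun c x => by simp }
  obtain ⟨r, hr⟩ := (I.subtype.restrictScalars k).exists_leftInverse_of_injective
    (LinearMap.ker_eq_bot.2 I.subtype_injective)
  have hr' : ∀ u : I, r u = u := LinearMap.congr_fun hr
  let L : Env k A →ₗ[k] X := TensorProduct.lift (LinearMap.mk₂ k (fun a b => a • ψ (r b.unop))
    (fun a a' b => add_smul _ _ _) (fun c a b => smul_assoc _ _ _)
    (fun a b b' => by simp) (fun c a b => by simp [smul_comm a c]))
  have hL : ∀ a b, L (a ⊗ₜ b) = a • ψ (r b.unop) := fun a b => rfl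
  let h : HomT (toB (FMod.reg k (Env k A))) X := ⟨
    { toFun := fun y => L y.v
      map_add' := fun x y => map_add L _ _
      map_smul' := fun a y => by
        obtain ⟨y⟩ := y
        change L (a ⊗ₜ 1 * y) = a • L y
        induction y using TensorProduct.induction_on with
        | zero => simp
        | tmul b c => simp [hL, mul_smul]
        | add x y hx hy => rw [mul_add, map_add, map_add, smul_add, hx, hy] }⟩
  refine ⟨LinearMap.toSpanSingleton A _ h, fun u hu => ?_⟩
  ext ⟨y⟩
  change L (1 ⊗ₜ op u * y) = (g ⟨u, hu⟩).l ⟨y⟩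
  induction y using TensorProduct.induction_on with
  | zero => rw [mul_zero, map_zero]; exact (map_zero _).symm
  | tmul a b =>
    have e1 : (⟨a ⊗ₜ b⟩ : LT (FMod.reg k (Env k A))) = a • LT.r _ b ⟨1⟩ := by
      ext; simp
    have e2 : (g ⟨u, hu⟩).l (LT.r _ b ⟨1⟩) = ψ (b.unop • ⟨u, hu⟩) := by
      simp only [ψ, LinearMap.coe_mk, AddHom.coe_mk, map_smul]
      rfl
    rw [e1, map_smul]
    erw [e2]
    rw [Algebra.TensorProduct.tmul_mul_tmul, hL, one_mul, ← hr' (b.unop • ⟨u, hu⟩)]
    rfl
  | add x y hx hy =>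
    rw [mul_add, map_add, hx, hy, ← map_add]
    rfl

theorem homT_inj (E : FMod k (Env k A)) [Module.Projective (Env k A) E] (X : FMod k A) :
    Module.Injective A (HomT (toB E) X) := by
  obtain ⟨n, g, hg⟩ := exists_cover E
  obtain ⟨s, hs⟩ := Module.projective_lifting_property g LinearMap.id hg
  have := homT_reg_inj X
  let p : Fin n → ((FMod.reg k (Env k A)).pi n →ₗ[Env k A] FMod.reg k (Env k A)) :=
    fun l => LinearMap.proj l
  let q : Fin n → (FMod.reg k (Env k A) →ₗ[Env k A] (FMod.reg k (Env k A)).pi n) :=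
    fun l => LinearMap.single (Env k A) (fun _ => Env k A) l
  refine injective_of_retract (Y := Fin n → HomT (toB (FMod.reg k (Env k A))) X)
    (LinearMap.pi fun l => cm (g ∘ₗ q l) X) (∑ l, cm (p l ∘ₗ s) X ∘ₗ LinearMap.proj l) ?_
  ext u x
  simp only [LinearMap.comp_apply, LinearMap.sum_apply, HomT.l_sum, LinearMap.proj_apply,
    LinearMap.pi_apply, LinearMap.id_apply]
  change ∑ l, u.l ⟨g (q l (p l (s x.v)))⟩ = u.l x
  rw [← map_sum]
  congr 1
  apply (LT.lequiv E).injective
  rw [map_sum]
  change ∑ l, g (q l (p l (s x.v))) = x.v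
  rw [← map_sum]
  refine Eq.trans ?_ (LinearMap.congr_fun hs x.v)
  exact congrArg g (Finset.univ_sum_single (s x.v))

variable (k A) in
/-- The quotient by the radical is separable. -/
def SepRad : Prop :=
  Ring.jacobson ((A ⧸ Ring.jacobson A) ⊗[k] (A ⧸ Ring.jacobson A)ᵐᵒᵖ) = ⊥

omit [FiniteDimensional k A] in
theorem kill_rad (hS : SepRad k A) {E : FMod k (Env k A)} {X : FMod k A}
    (hX : ∀ j ∈ Ring.jacobson A, ∀ x : X, j • x = 0) (f : HomT (toB E) X)
    (hf : ∀ j ∈ Ring.jacobson A, j • f = 0) (y : E)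
    (hy : y ∈ (Ring.jacobson (Env k A) • ⊤ : Submodule (Env k A) E)) : f.l ⟨y⟩ = 0 := by
  let q := Ideal.Quotient.mkₐ k (Ring.jacobson A)
  have hq : Function.Surjective q := Ideal.Quotient.mkₐ_surjective k _
  have hq' : Function.Surjective (AlgHom.op q) := fun b => by
    obtain ⟨a, ha⟩ := hq b.unop
    exact ⟨op a, by simp [ha]⟩
  let F : E →ₗ[k] X := f.l.restrictScalars k ∘ₗ (LT.lequiv E).symm.toLinearMap
  have key : ∀ r ∈ Ring.jacobson (Env k A), ∀ y : E, F (r • y) = 0 := fun r hr y => by
    have : RingHomSurjective (Algebra.TensorProduct.map q (AlgHom.op q)).toRingHom :=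
      ⟨Algebra.TensorProduct.map_surjective _ _ hq hq'⟩
    have h1 := Ring.le_comap_jacobson (Algebra.TensorProduct.map q (AlgHom.op q)).toRingHom hr
    rw [hS] at h1
    have h2 : r ∈ LinearMap.ker (TensorProduct.map q.toLinearMap (AlgHom.op q).toLinearMap) := h1
    rw [TensorProduct.map_ker (LinearMap.exact_subtype_ker_map _) hq
      (LinearMap.exact_subtype_ker_map _) hq'] at h2
    obtain ⟨_, ⟨s, rfl⟩, _, ⟨t, rfl⟩, rfl⟩ := Submodule.mem_sup.1 h2
    rw [add_smul, map_add]
    have e1 : F (LinearMap.lTensor A (LinearMap.ker (AlgHom.op q).toLinearMap).subtype s • y) = 0 := by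
      clear hr h1 h2
      induction s using TensorProduct.induction_on with
      | zero => simp
      | tmul a b =>
        have hb : b.1.unop ∈ Ring.jacobson A :=
          Ideal.Quotient.eq_zero_iff_mem.1 (congrArg unop b.2)
        have h3 : f.l (LT.r E b.1 ⟨y⟩) = 0 := LinearMap.congr_fun (congrArg HomT.l (hf _ hb)) ⟨y⟩
        have e : (⟨(a ⊗ₜ[k] b.1) • y⟩ : LT E) = a • LT.r E b.1 ⟨y⟩ := by
          ext; simp [← mul_smul]
        change f.l ⟨(a ⊗ₜ[k] b.1) • y⟩ = 0
        rw [e, map_smul]
        erw [h3]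
        rw [smul_zero]
      | add x y hx hy => rw [map_add, add_smul, map_add, hx, hy, add_zero]
    have e2 : F (LinearMap.rTensor Aᵐᵒᵖ (LinearMap.ker q.toLinearMap).subtype t • y) = 0 := by
      clear hr h1 h2
      induction t using TensorProduct.induction_on with
      | zero => rw [map_zero, zero_smul (Env k A) y, map_zero]
      | tmul a b =>
        have ha : a.1 ∈ Ring.jacobson A := Ideal.Quotient.eq_zero_iff_mem.1 a.2
        have e : (⟨(a.1 ⊗ₜ[k] b) • y⟩ : LT E) = a.1 • LT.r E b ⟨y⟩ := by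
          ext; simp [← mul_smul]
        change f.l ⟨(a.1 ⊗ₜ[k] b) • y⟩ = 0
        rw [e, map_smul, hX _ ha]
      | add x y hx hy => rw [map_add, add_smul, map_add, hx, hy, add_zero]
    rw [e1, e2, add_zero]
  change F y = 0
  refine Submodule.smul_induction_on hy (fun r hr y _ => key r hr y) fun x y hx hy => ?_
  rw [map_add, hx, hy, add_zero]

variable (k A) in
/-- The regular bimodule. -/
noncomputable def B0 : FMod k (Env k A) :=
  letI : Module (Env k A) A := Module.compHom A (AlgHom.mulLeftRight k A).toRingHom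
  haveI : IsScalarTower k (Env k A) A := ⟨fun c r a => by
    change AlgHom.mulLeftRight k A (c • r) a = c • AlgHom.mulLeftRight k A r a
    simp⟩
  FMod.of k (Env k A) A

/-- The left module of the regular bimodule. -/
noncomputable def b0Equiv : LT (B0 k A) ≃ₗ[A] A where
  toFun x := x.v
  invFun a := ⟨a⟩
  map_add' _ _ := rfl
  map_smul' a x := by
    change AlgHom.mulLeftRight k A (a ⊗ₜ 1) x.v = a * (show A from x.v)
    erw [AlgHom.mulLeftRight_apply]
    simp
  left_inv _ := rfl
  right_inv _ := rfl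

theorem b0Equiv_r (b : Aᵐᵒᵖ) (x : LT (B0 k A)) :
    b0Equiv (LT.r _ b x) = b0Equiv x * b.unop := by
  change AlgHom.mulLeftRight k A (1 ⊗ₜ b) x.v = (show A from x.v) * b.unop
  erw [AlgHom.mulLeftRight_apply, one_mul]

/-- `Hom_A(A, X) = X`. -/
noncomputable def homB0 (X : FMod k A) : HomT (toB (B0 k A)) X ≃ₗ[A] X where
  toFun h := h.l (b0Equiv.symm 1)
  invFun x := ⟨LinearMap.toSpanSingleton A X x ∘ₗ b0Equiv.toLinearMap⟩
  map_add' _ _ := rfl
  map_smul' a h := by
    change h.l (LT.r _ (op a) (b0Equiv.symm 1)) = a • h.l (b0Equiv.symm 1)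
    rw [← map_smul]
    congr 1
    apply b0Equiv.injective
    rw [b0Equiv_r]
    simp
  left_inv h := by
    ext y
    change b0Equiv y • h.l (b0Equiv.symm 1) = h.l y
    rw [← map_smul, ← map_smul]
    simp
  right_inv x := by simp

/-- Chosen projective cover. -/
noncomputable def pcE (B : FMod k (Env k A)) : FMod k (Env k A) := (exists_proj_cover B).choose

/-- Chosen projective cover map. -/
noncomputable def pcP (B : FMod k (Env k A)) : pcE B →ₗ[Env k A] B :=
  (exists_proj_cover B).choose_spec.choose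

instance (B : FMod k (Env k A)) : Module.Projective (Env k A) (pcE B) :=
  (exists_proj_cover B).choose_spec.choose_spec.1

/-- The minimal syzygy. -/
noncomputable def syz (B : FMod k (Env k A)) : FMod k (Env k A) :=
  (pcE B).sub (LinearMap.ker (pcP B))

/-- The inclusion of the minimal syzygy. -/
noncomputable def syzI (B : FMod k (Env k A)) : syz B →ₗ[Env k A] pcE B :=
  (LinearMap.ker (pcP B)).subtype

theorem se_syz (B : FMod k (Env k A)) : SE (syzI B) (pcP B) :=
  se_ker _ (exists_proj_cover B).choose_spec.choose_spec.2.1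

theorem syzI_mem (B : FMod k (Env k A)) (y : syz B) :
    syzI B y ∈ (Ring.jacobson (Env k A) • ⊤ : Submodule (Env k A) (pcE B)) :=
  (exists_proj_cover B).choose_spec.choose_spec.2.2 y.2

variable (k A) in
/-- The bimodule syzygies of the regular bimodule. -/
noncomputable def BB (j : ℕ) : FMod k (Env k A) := syz^[j] (B0 k A)

theorem BB_succ (j : ℕ) : BB k A (j + 1) = syz (BB k A j) := Function.iterate_succ_apply' _ _ _

theorem syz_proj (B : FMod k (Env k A)) [Module.Projective A (LT B)] :
    Module.Projective A (LT (syz B)) := by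
  have h := (se_syz B).toB
  have : Module.Projective A (toB B).toFMod := inferInstanceAs (Module.Projective A (LT B))
  have := toB_proj (pcE B)
  obtain ⟨r, hr⟩ := h.extend (W := (toB (syz B)).toFMod) (ed_of_proj _ _ 0) LinearMap.id
  exact Module.Projective.of_split (M := LT (pcE B)) _ r hr

instance BB_proj (j : ℕ) : Module.Projective A (LT (BB k A j)) := by
  induction j with
  | zero => exact Module.Projective.of_equiv' (b0Equiv (k := k) (A := A)).symm
  | succ j ih => rw [BB_succ]; exact syz_proj _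

/-- The functorial cosyzygies. -/
noncomputable abbrev FF (j : ℕ) (X : FMod k A) : FMod k A := HomF (toB (BB k A j)) X

theorem exists_se_FF (hS : SepRad k A) (j : ℕ) (X : FMod k A) :
    ∃ (I : FMod k A) (f : FF j X →ₗ[A] I) (g : I →ₗ[A] FF (j + 1) X), SE f g ∧
      Module.Injective A I ∧ ((∀ j ∈ Ring.jacobson A, ∀ x : X, j • x = 0) →
        ∀ v : SS k A →ₗ[A] I, g ∘ₗ v = 0) := by
  unfold FF
  rw [BB_succ]
  have h := (se_syz (BB k A j)).toB
  have : Module.Projective A (toB (BB k A j)).toFMod := BB_proj j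
  refine ⟨HomF (toB (pcE (BB k A j))) X, _, _, h.homF_comap (LT.map_r _) (LT.map_r _) X,
    homT_inj _ _, fun hX v => SS_ext ?_⟩
  ext y
  refine kill_rad hS hX (v (Submodule.Quotient.mk 1)) (fun a ha => ?_) _ (syzI_mem _ y.v)
  rw [← map_smul, SS_kill a ha, map_zero]

end Pool.Agent.P.MP_b7bea3_al
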